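import Pool.Agent.H13.EdgeGameDefs

namespace Pool.Agent.H13

section General

variable {V : Type*} {G : SimpleGraph V} {k : ℕ}

/-- determinacy, the easy half -/
theorem MoverWins.not_all {p : V → Option (Fin k)} (h : MoverWins G p) :
    ¬ ∀ q, LegalMove G p q → MoverWins G q := by
  induction h with
  | intro p q hpq hq ih =>
    intro hall
    have h1 := hall q hpq
    cases h1 with
    | intro _ r hqr hr =>
      exact ih r hqr hr

theorem PlayerOneWins.not_two (h : PlayerOneWins G k) : ¬ PlayerTwoWins G k :=
  MoverWins.not_all h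

theorem option_map_ne_none {α β : Type*} (f : α → β) (x : Option α) :
    Option.map f x ≠ none ↔ x ≠ none := by
  cases x <;> simp

theorem legal_perm (σ : Equiv.Perm (Fin k)) {p : V → Option (Fin k)}
    (h : LegalPosition G p) : LegalPosition G (fun v => (p v).map σ) := by
  intro e he e' he' hee
  have hmap : ∀ x : Sym2 V, Sym2.map (fun v => (p v).map σ) x =
      Sym2.map (Option.map σ) (Sym2.map p x) := by
    intro x
    rw [Sym2.map_map]
    rfl
  rw [hmap, hmap] at hee
  have hinj : Function.Injective (Sym2.map (Option.map σ)) :=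
    Sym2.map.injective (Option.map_injective σ.injective)
  apply h _ _ (hinj hee)
  · exact ⟨he.1, fun v hv => (option_map_ne_none _ _).1 (he.2 v hv)⟩
  · exact ⟨he'.1, fun v hv => (option_map_ne_none _ _).1 (he'.2 v hv)⟩

theorem legalMove_perm (σ : Equiv.Perm (Fin k)) {p q : V → Option (Fin k)}
    (h : LegalMove G p q) :
    LegalMove G (fun v => (p v).map σ) (fun v => (q v).map σ) := by
  obtain ⟨v, a, h1, h2, h3, h4⟩ := h
  exact ⟨v, σ a, by simp [h1], by simp [h2], fun w hw => by simp [h3 w hw], legal_perm σ h4⟩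

theorem moverWins_perm {p : V → Option (Fin k)} (h : MoverWins G p) :
    ∀ (σ : Equiv.Perm (Fin k)), MoverWins G (fun v => (p v).map σ) := by
  induction h with
  | intro p q hpq hq ih =>
    intro σ
    refine MoverWins.intro _ _ (legalMove_perm σ hpq) ?_
    intro r hr
    have h1 := legalMove_perm σ.symm hr
    have h2 : (fun v => ((q v).map σ).map σ.symm) = q := by
      funext v
      rw [Option.map_map]
      cases q v <;> simp
    rw [h2] at h1
    have h3 := ih _ h1 σ
    have h4 : (fun v => ((r v).map σ.symm).map σ) = r := by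
      funext v
      rw [Option.map_map]
      cases r v <;> simp
    rwa [h4] at h3

end General

section Checker

/-- apply `f` to `n`, evaluating `n` first -/
def seqNat {α : Type} (n : ℕ) (f : ℕ → α) : α :=
  Nat.rec (motive := fun _ => α) (f 0) (fun m _ => f (Nat.succ m)) n

theorem seqNat_eq {α : Type} (n : ℕ) (f : ℕ → α) : seqNat n f = f n := by
  cases n <;> rfl

/-- the digit number `i` of the board `B` (in base `16`): `0` = uncoloured -/
def dg (B i : ℕ) : ℕ := Nat.land (Nat.shiftRight B (Nat.mul 4 i)) 15

theorem dg_eq (B i : ℕ) : dg B i = B / 16 ^ i % 16 := by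
  change (B >>> (4 * i)) &&& 15 = _
  rw [Nat.shiftRight_eq_div_pow, pow_mul]
  exact Nat.and_two_pow_sub_one_eq_mod _ 4

theorem dg_zero (i : ℕ) : dg 0 i = 0 := by
  rw [dg_eq]; simp

theorem dg_set {B v x : ℕ} (h0 : dg B v = 0) (hx : x < 16) (j : ℕ) :
    dg (Nat.add B (Nat.mul x (Nat.pow 16 v))) j = if j = v then x else dg B j := by
  change dg (B + x * 16 ^ v) j = _
  rw [dg_eq] at h0
  rw [dg_eq, dg_eq]
  have hv : 0 < 16 ^ v := by positivity
  have h1 : (B + x * 16 ^ v) / 16 ^ v = B / 16 ^ v + x := Nat.add_mul_div_right _ _ hv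
  split_ifs with h
  · subst h
    rw [h1]
    omega
  · rcases lt_or_gt_of_ne h with h | h
    · obtain ⟨d, rfl⟩ : ∃ d, v = j + 1 + d := ⟨v - (j + 1), by omega⟩
      have hj : 0 < 16 ^ j := by positivity
      have e1 : x * 16 ^ (j + 1 + d) = (x * 16 ^ d * 16) * 16 ^ j := by
        rw [pow_add, pow_add]; ring
      rw [e1, Nat.add_mul_div_right _ _ hj]
      omega
    · obtain ⟨d, rfl⟩ : ∃ d, j = v + 1 + d := ⟨j - (v + 1), by omega⟩
      have e1 : 16 ^ (v + 1 + d) = 16 ^ v * (16 * 16 ^ d) := by
        rw [pow_add, pow_add]; ring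
      rw [e1, ← Nat.div_div_eq_div_mul, ← Nat.div_div_eq_div_mul, h1, ← Nat.div_div_eq_div_mul,
        ← Nat.div_div_eq_div_mul]
      congr 2
      omega

/-- code of an unordered pair of colours `< 16` -/
def codeN (x y : ℕ) : ℕ :=
  cond (Nat.ble x y) (Nat.add (Nat.mul 16 x) y) (Nat.add (Nat.mul 16 y) x)

theorem codeN_eq (x y : ℕ) : codeN x y = if x ≤ y then 16 * x + y else 16 * y + x := by
  unfold codeN
  rcases h : Nat.ble x y with _ | _
  · rw [if_neg]
    · rfl
    · intro h'
      rw [← Nat.ble_eq] at h'
      rw [h'] at h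
      exact absurd h (by decide)
  · rw [if_pos (Nat.le_of_ble_eq_true h)]
    rfl

theorem codeN_eq_iff {x y x' y' : ℕ} (hx : x < 16) (hy : y < 16) (hx' : x' < 16)
    (hy' : y' < 16) :
    codeN x y = codeN x' y' ↔ (x = x' ∧ y = y') ∨ (x = y' ∧ y = x') := by
  rw [codeN_eq, codeN_eq]
  split_ifs <;> omega

/-- Is the board legal? `U` is the set of the codes already met. -/
def legalAux (B : ℕ) (l : List (ℕ × ℕ)) : ℕ → Bool :=
  List.rec (motive := fun _ => ℕ → Bool) (fun _ => true)
    (fun e _ ih U =>
    seqNat (dg B e.1) fun x => seqNat (dg B e.2) fun y =>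
    cond (Nat.beq x 0) (ih U)
    (cond (Nat.beq y 0) (ih U)
    (seqNat (codeN x y) fun c =>
     cond (Nat.beq (Nat.land (Nat.shiftRight U c) 1) 0)
      (seqNat (Nat.lor U (Nat.shiftLeft 1 c)) ih)
      false))) l

/-- the colour pair of the edge, if both ends are coloured -/
def codeOf (B : ℕ) (e : ℕ × ℕ) : Option ℕ :=
  if dg B e.1 = 0 ∨ dg B e.2 = 0 then none else some (codeN (dg B e.1) (dg B e.2))

theorem cond_beq {α : Type*} (x y : ℕ) (a b : α) :
    cond (Nat.beq x y) a b = if x = y then a else b := by
  rcases h : Nat.beq x y with _ | _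
  · rw [if_neg (Nat.ne_of_beq_eq_false h)]; rfl
  · rw [if_pos (Nat.eq_of_beq_eq_true h)]; rfl

theorem cond_ble {α : Type*} (x y : ℕ) (a b : α) :
    cond (Nat.ble x y) a b = if x ≤ y then a else b := by
  rcases h : Nat.ble x y with _ | _
  · rw [if_neg]
    · rfl
    · intro h'
      rw [← Nat.ble_eq] at h'
      rw [h'] at h
      exact absurd h (by decide)
  · rw [if_pos (Nat.le_of_ble_eq_true h)]; rfl

theorem legalAux_cons (B : ℕ) (e : ℕ × ℕ) (t : List (ℕ × ℕ)) (U : ℕ) :
    legalAux B (e :: t) U =
      if dg B e.1 = 0 ∨ dg B e.2 = 0 then legalAux B t U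
      else if Nat.testBit U (codeN (dg B e.1) (dg B e.2)) = true then false
      else legalAux B t (U ||| (2 ^ (codeN (dg B e.1) (dg B e.2)))) := by
  have h1 : legalAux B (e :: t) U = seqNat (dg B e.1) fun x => seqNat (dg B e.2) fun y =>
    cond (Nat.beq x 0) (legalAux B t U)
    (cond (Nat.beq y 0) (legalAux B t U)
    (seqNat (codeN x y) fun c =>
     cond (Nat.beq (Nat.land (Nat.shiftRight U c) 1) 0)
      (seqNat (Nat.lor U (Nat.shiftLeft 1 c)) (legalAux B t))
      false)) := rfl
  rw [h1, seqNat_eq, seqNat_eq, seqNat_eq, seqNat_eq, cond_beq, cond_beq, cond_beq]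
  set c := codeN (dg B e.1) (dg B e.2) with hc
  have h2 : Nat.lor U (Nat.shiftLeft 1 c) = U ||| (2 ^ c) := by
    change U ||| (1 <<< c) = _
    rw [Nat.shiftLeft_eq, one_mul]
  have h3 : Nat.land (Nat.shiftRight U c) 1 = 0 ↔ Nat.testBit U c = false := by
    change (U >>> c) &&& 1 = 0 ↔ _
    rw [Nat.testBit_eq_decide_div_mod_eq, Nat.and_one_is_mod, Nat.shiftRight_eq_div_pow]
    simp
  rw [h2]
  by_cases hx : dg B e.1 = 0
  · simp [hx]
  · by_cases hy : dg B e.2 = 0
    · simp [hy]
    · have hor : ¬ (dg B e.1 = 0 ∨ dg B e.2 = 0) := not_or.2 ⟨hx, hy⟩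
      rw [if_neg hx, if_neg hy, if_neg hor]
      by_cases ht : Nat.testBit U c = true
      · have h4 : ¬ (Nat.land (Nat.shiftRight U c) 1 = 0) := by
          rw [h3, ht]; decide
        rw [if_pos ht, if_neg h4]
      · have h4 : Nat.land (Nat.shiftRight U c) 1 = 0 := by
          rw [h3]
          simpa using ht
        rw [if_neg ht, if_pos h4]

theorem legalAux_iff (b : ℕ) (l : List (ℕ × ℕ)) : ∀ U : ℕ,
    legalAux b l U = true ↔
      (l.filterMap (codeOf b)).Nodup ∧ ∀ c ∈ l.filterMap (codeOf b), Nat.testBit U c = false := by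
  induction l with
  | nil =>
    intro U
    have : legalAux b [] U = true := rfl
    simp [this]
  | cons e t ih =>
    intro U
    rw [legalAux_cons]
    by_cases h : dg b e.1 = 0 ∨ dg b e.2 = 0
    · have hc : codeOf b e = none := by
        unfold codeOf; rw [if_pos h]
      rw [if_pos h, List.filterMap_cons_none hc]
      exact ih U
    · have hc : codeOf b e = some (codeN (dg b e.1) (dg b e.2)) := by
        unfold codeOf; rw [if_neg h]
      rw [if_neg h, List.filterMap_cons_some hc]
      set c0 := codeN (dg b e.1) (dg b e.2) with hc0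
      by_cases h2 : Nat.testBit U c0 = true
      · rw [if_pos h2]
        simp only [Bool.false_eq_true, false_iff, not_and, List.nodup_cons]
        intro _ h3
        have := h3 c0 (by simp)
        rw [h2] at this
        exact absurd this (by decide)
      · rw [if_neg h2, ih]
        rw [Bool.not_eq_true] at h2
        simp only [List.nodup_cons, List.mem_cons, forall_eq_or_imp, Nat.testBit_or,
          Nat.testBit_two_pow, Bool.or_eq_false_iff, decide_eq_false_iff_not]
        constructor
        · rintro ⟨h3, h4⟩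
          refine ⟨⟨?_, h3⟩, h2, fun c hc => (h4 c hc).1⟩
          intro hmem
          exact (h4 c0 hmem).2 rfl
        · rintro ⟨⟨h3, h4⟩, _, h5⟩
          refine ⟨h4, fun c hc => ⟨h5 c hc, ?_⟩⟩
          rintro rfl
          exact h3 hc

theorem filterMap_inj_of_nodup {α β : Type*} {f : α → Option β} {l : List α}
    (h : (l.filterMap f).Nodup) {x y : α} (hx : x ∈ l) (hy : y ∈ l) {c : β}
    (hfx : f x = some c) (hfy : f y = some c) : x = y := by
  induction l with
  | nil => simp at hx
  | cons a t ih =>
    rcases ha : f a with _ | d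
    · rw [List.filterMap_cons_none ha] at h
      rw [List.mem_cons] at hx hy
      rcases hx with rfl | hx
      · rw [ha] at hfx; exact absurd hfx (by simp)
      · rcases hy with rfl | hy
        · rw [ha] at hfy; exact absurd hfy (by simp)
        · exact ih h hx hy
    · rw [List.filterMap_cons_some ha, List.nodup_cons] at h
      rw [List.mem_cons] at hx hy
      rcases hx with rfl | hx
      · rcases hy with rfl | hy
        · rfl
        · exfalso
          apply h.1
          rw [ha, Option.some.injEq] at hfx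
          rw [hfx]
          exact List.mem_filterMap.2 ⟨y, hy, hfy⟩
      · rcases hy with rfl | hy
        · exfalso
          apply h.1
          rw [ha, Option.some.injEq] at hfy
          rw [hfy]
          exact List.mem_filterMap.2 ⟨x, hx, hfx⟩
        · exact ih h.2 hx hy

theorem nodup_filterMap_of_inj {α β : Type*} {f : α → Option β} {l : List α} (hl : l.Nodup)
    (h : ∀ x ∈ l, ∀ y ∈ l, ∀ c, f x = some c → f y = some c → x = y) :
    (l.filterMap f).Nodup := by
  induction l with
  | nil => simp
  | cons a t ih =>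
    rw [List.nodup_cons] at hl
    have ih' := ih hl.2 (fun x hx y hy c => h x (by simp [hx]) y (by simp [hy]) c)
    rcases ha : f a with _ | d
    · rwa [List.filterMap_cons_none ha]
    · rw [List.filterMap_cons_some ha, List.nodup_cons]
      refine ⟨?_, ih'⟩
      intro hd
      obtain ⟨y, hy, hfy⟩ := List.mem_filterMap.1 hd
      have := h a (by simp) y (by simp [hy]) d ha hfy
      exact hl.1 (this ▸ hy)

/-- the list of the edges of `T_n`, the smaller end first -/
def edgeList (n : ℕ) : List (ℕ × ℕ) :=
  ((List.range n ×ˢ List.range n)).filter (fun e => (e.1 + 1 == e.2) || (e.1 + 2 == e.2))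

theorem mem_edgeList {n : ℕ} {e : ℕ × ℕ} :
    e ∈ edgeList n ↔ e.1 < n ∧ e.2 < n ∧ (e.1 + 1 = e.2 ∨ e.1 + 2 = e.2) := by
  obtain ⟨i, j⟩ := e
  simp [edgeList, and_assoc]

theorem edgeList_nodup (n : ℕ) : (edgeList n).Nodup :=
  List.Nodup.filter _ (List.Nodup.product List.nodup_range List.nodup_range)

theorem ladder_adj {n : ℕ} (i j : Fin n) : (triangularLadder n).Adj i j ↔
    (i.val + 1 = j.val ∨ i.val + 2 = j.val) ∨ (j.val + 1 = i.val ∨ j.val + 2 = i.val) := by
  change (|(i.val : ℤ) - (j.val : ℤ)| = 1 ∨ |(i.val : ℤ) - (j.val : ℤ)| = 2) ↔ _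
  rcases abs_cases ((i.val : ℤ) - (j.val : ℤ)) with ⟨h, h'⟩ | ⟨h, h'⟩ <;> rw [h] <;> omega

/-- the partial colouring described by a board -/
def toPos (n K : ℕ) (b : ℕ) : Fin n → Option (Fin K) := fun i =>
  if h : 1 ≤ dg b i.val ∧ dg b i.val ≤ K then some ⟨dg b i.val - 1, by omega⟩
  else none

theorem toPos_eq_none {n K : ℕ} {b : ℕ} (hb : ∀ i, dg b i ≤ K) (i : Fin n) :
    toPos n K b i = none ↔ dg b i.val = 0 := by
  unfold toPos
  have := hb i.val
  split_ifs with h
  · simp only [reduceCtorEq, false_iff]; omega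
  · simp only [true_iff]; omega

theorem toPos_eq_iff {n K : ℕ} {b : ℕ} (hb : ∀ i, dg b i ≤ K) (i j : Fin n) :
    toPos n K b i = toPos n K b j ↔ dg b i.val = dg b j.val := by
  unfold toPos
  have h1 := hb i.val
  have h2 := hb j.val
  split_ifs with h h' h'
  · simp only [Option.some.injEq, Fin.mk.injEq]; omega
  · simp only [reduceCtorEq, false_iff]; omega
  · simp only [reduceCtorEq, false_iff]; omega
  · simp only [true_iff]; omega

theorem exists_rep {n : ℕ} {e : Sym2 (Fin n)} (he : e ∈ (triangularLadder n).edgeSet) :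
    ∃ i j : Fin n, e = s(i, j) ∧ (i.val, j.val) ∈ edgeList n := by
  induction e with
  | h x y =>
    rw [SimpleGraph.mem_edgeSet, ladder_adj] at he
    rcases he with he | he
    · exact ⟨x, y, rfl, mem_edgeList.2 ⟨x.isLt, y.isLt, he⟩⟩
    · exact ⟨y, x, Sym2.eq_swap, mem_edgeList.2 ⟨y.isLt, x.isLt, he⟩⟩

theorem legal_iff {n K : ℕ} (hK : K < 16) {b : ℕ} (hb : ∀ i, dg b i ≤ K) :
    legalAux b (edgeList n) 0 = true ↔ LegalPosition (triangularLadder n) (toPos n K b) := by
  rw [legalAux_iff]
  have hcode : ∀ i j i' j' : Fin n,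
      (Sym2.map (toPos n K b) s(i, j) = Sym2.map (toPos n K b) s(i', j') ↔
      codeN (dg b i.val) (dg b j.val) = codeN (dg b i'.val) (dg b j'.val)) := by
    intro i j i' j'
    have h1 := hb i.val
    have h2 := hb j.val
    have h3 := hb i'.val
    have h4 := hb j'.val
    rw [codeN_eq_iff (by omega) (by omega) (by omega) (by omega), Sym2.map_mk, Sym2.map_mk,
      Sym2.eq_iff, toPos_eq_iff hb, toPos_eq_iff hb, toPos_eq_iff hb, toPos_eq_iff hb]
  constructor
  · rintro ⟨h, _⟩
    intro e he e' he' hee
    obtain ⟨i, j, rfl, hij⟩ := exists_rep he.1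
    obtain ⟨i', j', rfl, hij'⟩ := exists_rep he'.1
    have hi : dg b i.val ≠ 0 := fun h => he.2 i (by simp) ((toPos_eq_none hb i).2 h)
    have hj : dg b j.val ≠ 0 := fun h => he.2 j (by simp) ((toPos_eq_none hb j).2 h)
    have hi' : dg b i'.val ≠ 0 := fun h => he'.2 i' (by simp) ((toPos_eq_none hb i').2 h)
    have hj' : dg b j'.val ≠ 0 := fun h => he'.2 j' (by simp) ((toPos_eq_none hb j').2 h)
    have hc := (hcode i j i' j').1 hee
    have h5 : codeOf b (i.val, j.val) = some (codeN (dg b i.val) (dg b j.val)) := by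
      unfold codeOf; rw [if_neg]; simp only [not_or]; exact ⟨hi, hj⟩
    have h6 : codeOf b (i'.val, j'.val) = some (codeN (dg b i.val) (dg b j.val)) := by
      unfold codeOf; rw [if_neg, hc]; simp only [not_or]; exact ⟨hi', hj'⟩
    have h7 := filterMap_inj_of_nodup h hij hij' h5 h6
    simp only [Prod.mk.injEq] at h7
    rw [Fin.ext h7.1, Fin.ext h7.2]
  · intro h
    refine ⟨?_, by simp⟩
    apply nodup_filterMap_of_inj (edgeList_nodup n)
    rintro ⟨i, j⟩ hij ⟨i', j'⟩ hij' c h1 h2
    have m1 := mem_edgeList.1 hij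
    have m2 := mem_edgeList.1 hij'
    simp only at m1 m2
    unfold codeOf at h1 h2
    simp only [Option.ite_none_left_eq_some, not_or, Option.some.injEq] at h1 h2
    obtain ⟨⟨hi, hj⟩, hc⟩ := h1
    obtain ⟨⟨hi', hj'⟩, hc'⟩ := h2
    have hee := (hcode ⟨i, m1.1⟩ ⟨j, m1.2.1⟩ ⟨i', m2.1⟩ ⟨j', m2.2.1⟩).2 (hc.trans hc'.symm)
    have q1 : s((⟨i, m1.1⟩ : Fin n), ⟨j, m1.2.1⟩) ∈
        {e | e ∈ (triangularLadder n).edgeSet ∧ ∀ v ∈ e, toPos n K b v ≠ none} := by
      refine ⟨?_, ?_⟩
      · rw [SimpleGraph.mem_edgeSet, ladder_adj]; exact Or.inl m1.2.2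
      · intro v hv
        rw [Sym2.mem_iff] at hv
        rw [ne_eq, toPos_eq_none hb]
        rcases hv with rfl | rfl
        · exact hi
        · exact hj
    have q2 : s((⟨i', m2.1⟩ : Fin n), ⟨j', m2.2.1⟩) ∈
        {e | e ∈ (triangularLadder n).edgeSet ∧ ∀ v ∈ e, toPos n K b v ≠ none} := by
      refine ⟨?_, ?_⟩
      · rw [SimpleGraph.mem_edgeSet, ladder_adj]; exact Or.inl m2.2.2
      · intro v hv
        rw [Sym2.mem_iff] at hv
        rw [ne_eq, toPos_eq_none hb]
        rcases hv with rfl | rfl
        · exact hi'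
        · exact hj'
    have h5 := h q1 q2 hee
    rw [Sym2.eq_iff] at h5
    simp only [Fin.mk.injEq] at h5
    rcases h5 with ⟨rfl, rfl⟩ | ⟨rfl, rfl⟩
    · rfl
    · exfalso; omega

/-- process the replies, reading the certificates from the stream -/
def checkReplies (f : ℕ → ℕ → List ℕ → Option (List ℕ)) (E : List (ℕ × ℕ)) (b : ℕ)
    (m : ℕ) (l : List (ℕ × ℕ)) : List ℕ → Option (List ℕ) :=
  List.rec (motive := fun _ => List ℕ → Option (List ℕ)) (fun s => some s)
  (fun e _ ih s =>
    cond (Nat.ble e.2 (Nat.succ m))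
      (cond (Nat.beq (dg b e.1) 0)
        (seqNat (Nat.add b (Nat.mul e.2 (Nat.pow 16 e.1))) fun b' =>
          cond (legalAux b' E 0)
            (Option.rec (motive := fun _ => Option (List ℕ)) none (fun s' => ih s')
              (seqNat (cond (Nat.ble m e.2) e.2 m) fun m' => f b' m' s))
            (ih s))
        (ih s))
      (ih s)) l

/-- all the possible replies -/
def allReplies (n K : ℕ) : List (ℕ × ℕ) :=
  (List.range n) ×ˢ ((List.range K).map (· + 1))

/-- check the strategy given by the stream of moves (in preorder) -/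
def check (n K : ℕ) (E R : List (ℕ × ℕ)) (fuel : ℕ) : ℕ → ℕ → List ℕ → Option (List ℕ) :=
  Nat.rec (motive := fun _ => ℕ → ℕ → List ℕ → Option (List ℕ)) (fun _ _ _ => none)
  (fun _ ih b m s =>
    List.rec (motive := fun _ => Option (List ℕ)) none (fun mv rest _ =>
    seqNat (Nat.div mv 16) fun v => seqNat (Nat.mod mv 16) fun x =>
    cond (Nat.ble (Nat.succ v) n)
     (cond (Nat.ble 1 x)
      (cond (Nat.ble x K)
       (cond (Nat.beq (dg b v) 0)
        (seqNat (Nat.add b (Nat.mul x (Nat.pow 16 v))) fun b' =>
          cond (legalAux b' E 0)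
           (seqNat (cond (Nat.ble m x) x m) fun m' => checkReplies ih E b' m' R rest)
           none)
        none) none) none) none) s) fuel

theorem checkReplies_cons (f : ℕ → ℕ → List ℕ → Option (List ℕ)) (E : List (ℕ × ℕ)) (b m : ℕ)
    (e : ℕ × ℕ) (t : List (ℕ × ℕ)) (s : List ℕ) :
    checkReplies f E b m (e :: t) s =
      if e.2 ≤ m + 1 ∧ dg b e.1 = 0 ∧
        legalAux (Nat.add b (Nat.mul e.2 (Nat.pow 16 e.1))) E 0 = true then
        (f (Nat.add b (Nat.mul e.2 (Nat.pow 16 e.1))) (max m e.2) s).bind
          (checkReplies f E b m t)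
      else checkReplies f E b m t s := by
  have h1 : checkReplies f E b m (e :: t) s =
    cond (Nat.ble e.2 (Nat.succ m))
      (cond (Nat.beq (dg b e.1) 0)
        (seqNat (Nat.add b (Nat.mul e.2 (Nat.pow 16 e.1))) fun b' =>
          cond (legalAux b' E 0)
            (Option.rec (motive := fun _ => Option (List ℕ)) none
              (fun s' => checkReplies f E b m t s')
              (seqNat (cond (Nat.ble m e.2) e.2 m) fun m' => f b' m' s))
            (checkReplies f E b m t s))
        (checkReplies f E b m t s))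
      (checkReplies f E b m t s) := rfl
  rw [h1, seqNat_eq, seqNat_eq, cond_ble, cond_beq, cond_ble]
  have h2 : (if m ≤ e.2 then e.2 else m) = max m e.2 := by
    split_ifs <;> omega
  rw [h2]
  by_cases c1 : e.2 ≤ Nat.succ m
  · by_cases c2 : dg b e.1 = 0
    · rcases c3 : legalAux (Nat.add b (Nat.mul e.2 (Nat.pow 16 e.1))) E 0 with _ | _
      · rw [if_pos c1, if_pos c2, if_neg (by simp)]
        rfl
      · rw [if_pos c1, if_pos c2, if_pos ⟨c1, c2, rfl⟩]
        rcases f (Nat.add b (Nat.mul e.2 (Nat.pow 16 e.1))) (max m e.2) s with _ | s'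
        · rfl
        · rfl
    · rw [if_pos c1, if_neg c2, if_neg (by tauto)]
  · rw [if_neg c1, if_neg (fun h => c1 h.1)]

theorem checkReplies_spec (f : ℕ → ℕ → List ℕ → Option (List ℕ)) (E : List (ℕ × ℕ))
    (b : ℕ) (m : ℕ) (l : List (ℕ × ℕ)) : ∀ (s s' : List ℕ),
    checkReplies f E b m l s = some s' → ∀ v x, (v, x) ∈ l → x ≤ m + 1 → dg b v = 0 →
      legalAux (Nat.add b (Nat.mul x (Nat.pow 16 v))) E 0 = true →
      ∃ s1 s2, f (Nat.add b (Nat.mul x (Nat.pow 16 v))) (max m x) s1 = some s2 := by
  induction l with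
  | nil => intro s s' _ v x hv; simp at hv
  | cons e t ih =>
    obtain ⟨v0, x0⟩ := e
    intro s s' h v x hv hx hb hl
    rw [checkReplies_cons] at h
    rw [List.mem_cons] at hv
    split_ifs at h with hc
    · rcases hf : f (Nat.add b (Nat.mul x0 (Nat.pow 16 v0))) (max m x0) s with _ | s1
      · simp only at h
        rw [hf] at h; simp at h
      · simp only at h
        rw [hf, Option.bind_some] at h
        rcases hv with hv | hv
        · simp only [Prod.mk.injEq] at hv
          obtain ⟨rfl, rfl⟩ := hv
          exact ⟨s, s1, hf⟩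
        · exact ih s1 s' h v x hv hx hb hl
    · rcases hv with hv | hv
      · simp only [Prod.mk.injEq] at hv
        obtain ⟨rfl, rfl⟩ := hv
        exact absurd ⟨hx, hb, hl⟩ hc
      · exact ih s s' h v x hv hx hb hl

theorem check_succ (n K : ℕ) (E R : List (ℕ × ℕ)) (fuel b m : ℕ) (s s' : List ℕ)
    (h : check n K E R (fuel + 1) b m s = some s') : ∃ v x rest, v < n ∧ 1 ≤ x ∧ x ≤ K ∧
      dg b v = 0 ∧ legalAux (Nat.add b (Nat.mul x (Nat.pow 16 v))) E 0 = true ∧
      checkReplies (check n K E R fuel) E (Nat.add b (Nat.mul x (Nat.pow 16 v))) (max m x) R rest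
        = some s' := by
  rcases s with _ | ⟨mv, rest⟩
  · exact absurd h (by
      have : check n K E R (fuel + 1) b m [] = none := rfl
      rw [this]; simp)
  · have h1 : check n K E R (fuel + 1) b m (mv :: rest) =
      (seqNat (Nat.div mv 16) fun v => seqNat (Nat.mod mv 16) fun x =>
      cond (Nat.ble (Nat.succ v) n)
       (cond (Nat.ble 1 x)
        (cond (Nat.ble x K)
         (cond (Nat.beq (dg b v) 0)
          (seqNat (Nat.add b (Nat.mul x (Nat.pow 16 v))) fun b' =>
            cond (legalAux b' E 0)
             (seqNat (cond (Nat.ble m x) x m) fun m' =>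
              checkReplies (check n K E R fuel) E b' m' R rest)
             none)
          none) none) none) none) := rfl
    rw [h1, seqNat_eq, seqNat_eq, seqNat_eq, seqNat_eq, cond_ble, cond_ble, cond_ble, cond_beq,
      cond_ble] at h
    set v := Nat.div mv 16 with hv
    set x := Nat.mod mv 16 with hx
    have h2 : (if m ≤ x then x else m) = max m x := by
      split_ifs <;> omega
    rw [h2] at h
    by_cases c1 : Nat.succ v ≤ n
    · rw [if_pos c1] at h
      by_cases c2 : 1 ≤ x
      · rw [if_pos c2] at h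
        by_cases c3 : x ≤ K
        · rw [if_pos c3] at h
          by_cases c4 : dg b v = 0
          · rw [if_pos c4] at h
            rcases c5 : legalAux (Nat.add b (Nat.mul x (Nat.pow 16 v))) E 0 with _ | _
            · rw [c5] at h
              exact absurd h (by simp)
            · rw [c5] at h
              exact ⟨v, x, rest, c1, c2, c3, c4, c5, h⟩
          · rw [if_neg c4] at h; simp at h
        · rw [if_neg c3] at h; simp at h
      · rw [if_neg c2] at h; simp at h
    · rw [if_neg c1] at h; simp at h

theorem toPos_set {n K : ℕ} (hK : K < 16) {b : ℕ} (v : Fin n) (x : Fin K)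
    (h0 : dg b v.val = 0) :
    toPos n K (Nat.add b (Nat.mul (x.val + 1) (Nat.pow 16 v.val))) =
      Function.update (toPos n K b) v (some x) := by
  have hx := x.isLt
  funext w
  by_cases h : w = v
  · subst h
    rw [Function.update_self]
    unfold toPos
    simp only [dg_set h0 (show x.val + 1 < 16 by omega), if_true]
    rw [dif_pos (by omega)]
    simp
  · rw [Function.update_of_ne h]
    unfold toPos
    have h' : w.val ≠ v.val := fun h' => h (Fin.ext h')
    simp only [dg_set h0 (show x.val + 1 < 16 by omega), if_neg h']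

theorem mem_allReplies {n K v x : ℕ} (hv : v < n) (hx1 : 1 ≤ x) (hx : x ≤ K) :
    (v, x) ∈ allReplies n K := by
  unfold allReplies
  rw [List.mem_product]
  refine ⟨List.mem_range.2 hv, List.mem_map.2 ⟨x - 1, List.mem_range.2 (by omega), by omega⟩⟩

/-- Soundness of the checker. -/
theorem check_sound {n K : ℕ} (hK : K < 16) : ∀ (fuel : ℕ) (b : ℕ) (m : ℕ)
    (s s' : List ℕ), check n K (edgeList n) (allReplies n K) fuel b m s = some s' →
    (∀ i, dg b i ≤ m) → m ≤ K →
    MoverWins (triangularLadder n) (toPos n K b) := by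
  intro fuel
  induction fuel with
  | zero =>
    intro b m s s' h
    have : check n K (edgeList n) (allReplies n K) 0 b m s = none := rfl
    rw [this] at h
    exact absurd h (by simp)
  | succ fuel ih =>
    intro b m s s' h hbm hmK
    obtain ⟨i, a, rest, hi, ha1, haK, hb0, hleg, hrep⟩ := check_succ _ _ _ _ _ _ _ _ _ h
    set b1 := Nat.add b (Nat.mul a (Nat.pow 16 i)) with hb1
    set m1 := max m a with hm1
    have hb1m : ∀ j, dg b1 j ≤ m1 := by
      intro j
      rw [hb1, dg_set hb0 (by omega)]
      have := hbm j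
      split_ifs <;> omega
    have hm1K : m1 ≤ K := by omega
    have hb1K : ∀ j, dg b1 j ≤ K := fun j => (hb1m j).trans hm1K
    have hq : toPos n K b1 = Function.update (toPos n K b) ⟨i, hi⟩ (some ⟨a - 1, by omega⟩) := by
      have := toPos_set hK (b := b) ⟨i, hi⟩ ⟨a - 1, by omega⟩ hb0
      simp only [Nat.sub_add_cancel ha1] at this
      exact this
    refine MoverWins.intro _ (toPos n K b1) ⟨⟨i, hi⟩, ⟨a - 1, by omega⟩, ?_, ?_, ?_, ?_⟩ ?_
    · rw [toPos_eq_none (fun j => (hbm j).trans hmK)]
      exact hb0
    · rw [hq, Function.update_self]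
    · intro w hw
      rw [hq, Function.update_of_ne hw]
    · exact (legal_iff hK hb1K).1 hleg
    · rintro r ⟨v, x, hv, hrv, hrw, hrl⟩
      have hr : r = Function.update (toPos n K b1) v (some x) := by
        funext w
        by_cases hw : w = v
        · rw [hw, Function.update_self, hrv]
        · rw [Function.update_of_ne hw, hrw w hw]
      rw [toPos_eq_none hb1K] at hv
      -- the general step: a reply with colour `y + 1 ≤ m1 + 1`
      have hstep : ∀ y : Fin K, y.val ≤ m1 →
          LegalPosition (triangularLadder n) (Function.update (toPos n K b1) v (some y)) →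
          MoverWins (triangularLadder n) (Function.update (toPos n K b1) v (some y)) := by
        intro y hy hyl
        rw [← toPos_set hK _ _ hv] at hyl ⊢
        have hy' := y.isLt
        have hbK : ∀ j, dg (Nat.add b1 (Nat.mul (y.val + 1) (Nat.pow 16 v.val))) j ≤
            max m1 (y.val + 1) := by
          intro j
          rw [dg_set hv (by omega)]
          have := hb1m j
          split_ifs <;> omega
        have hmax : max m1 (y.val + 1) ≤ K := by omega
        obtain ⟨s1, s2, hs⟩ := checkReplies_spec _ _ _ _ _ _ _ hrep v.val (y.val + 1)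
          (mem_allReplies v.isLt (by omega) (by omega)) (by omega) hv
          ((legal_iff hK (fun j => (hbK j).trans hmax)).2 hyl)
        exact ih _ _ _ _ hs hbK hmax
      rw [hr] at hrl ⊢
      by_cases hx : x.val ≤ m1
      · exact hstep x hx hrl
      · push Not at hx
        have hxK := x.isLt
        set y : Fin K := ⟨m1, by omega⟩ with hy
        -- swap the new colour `x` with the first unused colour
        have hswap : ∀ z w : Fin K, m1 ≤ z.val → m1 ≤ w.val →
            (fun u => (Function.update (toPos n K b1) v (some z) u).map (Equiv.swap z w)) =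
            Function.update (toPos n K b1) v (some w) := by
          intro z w hz hw
          funext u
          by_cases hu : u = v
          · subst hu
            simp
          · rw [Function.update_of_ne hu, Function.update_of_ne hu]
            unfold toPos
            have h1 := hb1m u.val
            split_ifs with h2
            · simp only [Option.map_some, Option.some.injEq]
              apply Equiv.swap_apply_of_ne_of_ne
              · intro h3
                rw [← h3] at hz
                simp only at hz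
                omega
              · intro h3
                rw [← h3] at hw
                simp only at hw
                omega
            · simp
        have h1 := legal_perm (Equiv.swap x y) hrl
        have e1 := hswap x y hx.le le_rfl
        have h2 := hstep y le_rfl (e1 ▸ h1)
        have h3 := moverWins_perm h2 (Equiv.swap y x)
        have e2 := hswap y x le_rfl hx.le
        exact e2 ▸ h3

theorem playerOneWins_of_check {n K : ℕ} (hK : K < 16) (fuel : ℕ) (s s' : List ℕ)
    (h : check n K (edgeList n) (allReplies n K) fuel 0 0 s = some s') :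
    PlayerOneWins (triangularLadder n) K := by
  have hb : ∀ i, dg 0 i ≤ 0 := fun i => (dg_zero i).le
  have h1 := check_sound hK fuel _ 0 s s' h hb (Nat.zero_le _)
  have h2 : toPos n K 0 = fun _ => none := by
    funext i
    rw [toPos_eq_none (fun i => (hb i).trans (Nat.zero_le _))]
    exact dg_zero i.val
  rw [h2] at h1
  exact h1

end Checker

end Pool.Agent.H13
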