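import Mathlib

/-!
The edge-distinguishing game on a graph.
-/

namespace Pool.Agent.H13

/-- The triangular ladder `T_n`: the vertices are `0, ..., n - 1`, and two of them are adjacent
exactly when their distance is `1` or `2`. -/
def triangularLadder (n : ℕ) : SimpleGraph (Fin n) where
  Adj i j := |(i.val : ℤ) - (j.val : ℤ)| = 1 ∨ |(i.val : ℤ) - (j.val : ℤ)| = 2
  symm := ⟨by
    intro i j h
    rw [abs_sub_comm]
    exact h⟩
  loopless := ⟨by
    intro i h
    simp at h⟩

/-- A colouring of the vertices is edge-distinguishing if distinct edges receive distinct
unordered pairs (multisets) of colours. -/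
def EdgeDistinguishing {V : Type*} (G : SimpleGraph V) {k : ℕ} (c : V → Fin k) : Prop :=
  Set.InjOn (Sym2.map c) G.edgeSet

/-- The edge-distinguishing chromatic number `λ(G)`. -/
noncomputable def edgeDistinguishingNumber {V : Type*} (G : SimpleGraph V) : ℕ :=
  sInf {k : ℕ | ∃ c : V → Fin k, EdgeDistinguishing G c}

/-- A partial colouring (`none` = not yet coloured) is legal if distinct edges having both ends
coloured receive distinct unordered pairs of colours. -/
def LegalPosition {V : Type*} (G : SimpleGraph V) {k : ℕ} (p : V → Option (Fin k)) : Prop :=
  Set.InjOn (Sym2.map p) {e | e ∈ G.edgeSet ∧ ∀ v ∈ e, p v ≠ none}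

/-- A legal move from the position `p` to the position `q`: an uncoloured vertex `v` receives a
colour `a`, nothing else changes, and the new position is legal. -/
def LegalMove {V : Type*} (G : SimpleGraph V) {k : ℕ} (p q : V → Option (Fin k)) : Prop :=
  ∃ (v : V) (a : Fin k), p v = none ∧ q v = some a ∧ (∀ w, w ≠ v → q w = p w) ∧
    LegalPosition G q

/-- The player who is to move at the position `p` has a winning strategy (a player who cannot
move loses): there is a legal move to some `q` such that, after every legal reply, the player has
again a winning strategy. -/
inductive MoverWins {V : Type*} (G : SimpleGraph V) {k : ℕ} : (V → Option (Fin k)) → Prop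
  | intro (p q : V → Option (Fin k)) : LegalMove G p q →
      (∀ r, LegalMove G q r → MoverWins G r) → MoverWins G p

/-- Player 1 (who moves first, all vertices being uncoloured) has a winning strategy in the
edge-distinguishing game on `G` played with `k` colours. -/
def PlayerOneWins {V : Type*} (G : SimpleGraph V) (k : ℕ) : Prop :=
  MoverWins G (fun _ => none : V → Option (Fin k))

/-- Player 2 has a winning strategy: after every legal first move of Player 1 the player to move
has a winning strategy. -/
def PlayerTwoWins {V : Type*} (G : SimpleGraph V) (k : ℕ) : Prop :=
  ∀ q, LegalMove G (fun _ => none : V → Option (Fin k)) q → MoverWins G q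

end Pool.Agent.H13
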