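import Pool.Agent.H13.EdgeGame

/-!
The edge-distinguishing number of `T_10` is `7`, and Player 1 wins the game on `T_10`.
-/

namespace Pool.Agent.H13

/-- The strategy of Player 1 on `T_10` with `7` colours, in preorder; the entry `16 i + a` means
that the vertex `i` receives the colour `a`. -/
def strategyTen : List ℕ :=
  [1, 97, 145, 84, 68, 145, 84, 52, 145, 68, 52, 131, 148, 86, 70, 148, 86, 54, 53, 149, 70, 70,
   52, 86, 70, 115, 148, 86, 70, 148, 86, 54, 53, 149, 70, 70, 52, 86, 70, 50, 84, 68, 50, 84,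
   134, 118, 68, 134, 118, 68, 134, 86, 68, 118, 86, 113, 129, 84, 84, 84, 52, 97, 148, 68, 81,
   69, 151, 135, 37, 151, 135, 37, 151, 71, 37, 135, 71, 131, 149, 53, 145, 100, 84, 81, 53, 151,
   135, 37, 151, 135, 37, 151, 55, 37, 135, 55, 35, 69, 151, 135, 53, 151, 135, 53, 151, 71, 53,
   135, 71, 36, 129, 145, 103, 71, 129, 129, 133, 151, 55, 70, 135, 55, 55, 55, 55, 51, 51, 151,
   103, 67, 51, 135, 103, 50, 148, 68, 145, 51, 67, 36, 68, 84, 50, 52, 66, 50, 84, 68, 65, 149,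
   53, 66, 100, 84, 65, 133, 53, 146, 98, 113, 85, 135, 103, 69, 135, 103, 69, 135, 87, 69, 103,
   87, 130, 84, 52, 98, 85, 53, 98, 50, 132, 100, 99, 132, 129, 52, 52, 50, 82, 132, 52, 50, 83,
   132, 129, 52, 52, 50, 51, 85, 135, 103, 69, 135, 103, 69, 135, 87, 69, 103, 87, 50, 100, 68,
   67, 133, 53, 81, 66, 84, 52, 113, 69, 103, 87, 53, 103, 87, 53, 103, 71, 53, 87, 71, 146, 66,
   101, 135, 119, 85, 135, 119, 85, 135, 103, 85, 119, 103, 98, 98, 85, 21, 19, 101, 135, 119,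
   85, 135, 119, 85, 135, 103, 85, 119, 103, 99, 53, 135, 119, 21, 135, 119, 21, 135, 55, 21,
   119, 55, 130, 52, 102, 70, 20, 102, 70, 20, 102, 54, 20, 70, 54, 99, 133, 21, 98, 53, 21, 67,
   53, 119, 87, 87, 21, 119, 87, 87, 21, 119, 55, 55, 21, 87, 55, 55, 21, 87, 55, 55, 50, 82,
   133, 21, 19, 69, 103, 87, 53, 103, 87, 53, 103, 71, 53, 87, 71, 66, 85, 135, 103, 21, 135,
   103, 21, 135, 87, 21, 103, 87, 81, 52, 102, 70, 20, 102, 70, 20, 102, 54, 20, 70, 54, 82, 101,
   21, 66, 115, 149, 133, 146, 131, 145, 84, 85, 129, 130, 83, 149, 133, 113, 114, 113, 149, 101,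
   98, 132, 116, 98, 113, 133, 101, 82, 146, 132, 100, 130, 145, 36, 37, 146, 132, 100, 130, 145,
   20, 21, 145, 36, 20, 116, 148, 129, 151, 39, 148, 129, 151, 23, 21, 151, 39, 21, 151, 39, 21,
   135, 39, 17, 21, 135, 39, 129, 36, 20, 100, 147, 129, 151, 39, 147, 129, 151, 23, 21, 151, 39,
   21, 151, 39, 21, 135, 39, 17, 21, 135, 39, 113, 36, 20, 145, 36, 20, 113, 37, 151, 103, 21,
   151, 103, 21, 151, 39, 21, 103, 39, 97, 36, 20, 17, 132, 100, 113, 37, 135, 103, 21, 135, 103,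
   21, 135, 39, 21, 103, 39, 114, 82, 148, 132, 130, 84, 52, 98, 147, 52, 52, 130, 146, 100, 20,
   98, 147, 20, 20, 131, 148, 148, 19, 17, 148, 132, 100, 146, 133, 151, 55, 133, 151, 55, 133,
   151, 23, 18, 151, 55, 21, 135, 55, 17, 18, 135, 55, 146, 52, 20, 19, 147, 52, 52, 84, 146,
   133, 151, 55, 133, 151, 55, 133, 151, 23, 18, 151, 55, 21, 135, 55, 17, 18, 135, 55, 17, 148,
   84, 49, 49, 145, 100, 101, 49, 132, 100, 17, 100, 84, 81, 132, 132, 19, 49, 115, 149, 133,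
   146, 131, 145, 84, 85, 129, 130, 83, 149, 133, 113, 114, 113, 149, 101, 98, 132, 116, 98, 113,
   133, 101, 113, 35, 69, 151, 135, 53, 151, 135, 53, 151, 71, 53, 135, 71, 19, 69, 151, 135, 53,
   151, 135, 53, 151, 71, 53, 135, 71, 19, 69, 151, 135, 37, 151, 135, 37, 151, 71, 37, 135, 71,
   19, 53, 151, 135, 37, 151, 135, 37, 151, 55, 37, 135, 55, 19, 53, 151, 71, 37, 151, 71, 37,
   151, 55, 37, 71, 55, 19, 53, 135, 71, 37, 135, 71, 37, 135, 55, 37, 71, 55, 17, 146, 132, 100,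
   130, 145, 68, 68, 69, 114, 148, 132, 113, 148, 132, 130, 145, 52, 52, 53, 145, 68, 52, 129,
   148, 52, 113, 133, 150, 70, 148, 134, 54, 53, 150, 70, 68, 134, 54, 66, 148, 132, 65, 148,
   132, 100, 147, 129, 150, 70, 147, 145, 135, 55, 53, 150, 70, 53, 151, 71, 53, 135, 71, 50, 53,
   135, 71, 65, 148, 116, 51, 145, 68, 68, 69, 98, 145, 52, 52, 52, 97, 68, 52, 50, 132, 100, 98,
   132, 129, 52, 52, 51, 129, 35, 148, 86, 70, 85, 150, 54, 69, 150, 54, 52, 86, 70, 50, 148, 84,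
   146, 34, 148, 84, 50, 148, 20, 67, 37, 150, 54, 21, 150, 54, 148, 38, 22, 52, 38, 22, 49, 146,
   50, 50, 65, 85, 53, 50, 50, 66, 53, 21, 65, 17, 34, 85, 21, 49, 18, 33, 85, 53, 33, 49, 19,
   69, 37, 33, 67, 101, 151, 135, 85, 151, 135, 85, 151, 103, 85, 135, 103, 51, 101, 151, 135,
   85, 151, 135, 85, 151, 103, 85, 135, 103, 51, 101, 151, 135, 69, 151, 135, 69, 151, 103, 69,
   135, 103, 51, 85, 151, 135, 69, 151, 135, 69, 151, 87, 69, 135, 87, 51, 85, 151, 103, 69, 151,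
   103, 69, 151, 87, 69, 103, 87, 51, 85, 135, 103, 69, 135, 103, 69, 135, 87, 69, 103, 87, 146,
   50, 100, 68, 66, 34, 69, 103, 87, 53, 103, 87, 53, 103, 71, 53, 87, 71, 50, 100, 68, 19, 69,
   103, 87, 53, 103, 87, 53, 103, 71, 53, 87, 71, 66, 53, 21, 66, 17, 100, 68, 67, 100, 100, 97,
   20, 17, 17, 100, 84, 18, 51, 100, 100, 97, 20, 17, 17, 100, 68, 35, 101, 21, 49, 34, 53, 87,
   71, 21, 87, 71, 21, 87, 55, 21, 71, 55, 97, 35, 148, 86, 70, 85, 150, 54, 69, 150, 54, 52, 86,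
   70, 50, 148, 84, 146, 34, 148, 84, 50, 148, 20, 67, 37, 150, 54, 21, 150, 54, 148, 38, 22, 52,
   38, 22, 49, 65, 98, 148, 84, 114, 84, 52, 113, 149, 53, 114, 115, 85, 151, 103, 21, 151, 103,
   21, 151, 87, 21, 103, 87, 113, 149, 21, 115, 148, 148, 18, 51, 146, 20, 20, 100, 146, 117,
   151, 55, 117, 151, 55, 117, 151, 23, 145, 119, 23, 18, 151, 55, 21, 119, 55, 17, 17, 18, 119,
   55, 146, 52, 20, 17, 148, 84, 84, 146, 117, 151, 55, 117, 151, 55, 117, 151, 23, 145, 119, 23,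
   18, 151, 55, 21, 119, 55, 17, 17, 18, 119, 55, 19, 149, 53, 49, 49, 145, 100, 101, 49, 116,
   100, 97, 52, 20, 81, 116, 116, 117, 18, 18, 99, 85, 135, 119, 132, 53, 135, 119, 53, 135, 87,
   83, 97, 84, 68, 115, 99, 132, 37, 135, 103, 36, 37, 135, 71, 67, 129, 84, 52, 98, 132, 116,
   99, 117, 135, 55, 113, 117, 135, 39, 50, 37, 135, 55, 50, 37, 119, 55, 97, 52, 36, 98, 132,
   36, 65, 129, 53, 135, 119, 53, 135, 103, 52, 53, 119, 103, 50, 84, 68, 50, 132, 116, 113, 51,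
   67, 36, 68, 84, 50, 52, 66, 66, 100, 84, 51, 99, 132, 37, 135, 103, 36, 37, 135, 71, 67, 65,
   84, 52, 51, 83, 116, 37, 103, 87, 87, 36, 37, 103, 71, 71, 36, 37, 87, 71, 71, 67, 49, 98, 98,
   113, 133, 101, 98, 98, 114, 101, 69, 113, 65, 82, 133, 69, 97, 66, 81, 133, 101, 81, 97, 67,
   117, 85]

def edgesTen : List (ℕ × ℕ) :=
  [(0, 1), (0, 2), (1, 2), (1, 3), (2, 3), (2, 4), (3, 4), (3, 5), (4, 5), (4, 6), (5, 6),
   (5, 7), (6, 7), (6, 8), (7, 8), (7, 9), (8, 9)]

theorem edgesTen_eq : edgeList 10 = edgesTen := by decide +kernel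

def repliesTen : List (ℕ × ℕ) :=
  [(0, 1), (0, 2), (0, 3), (0, 4), (0, 5), (0, 6), (0, 7), (1, 1), (1, 2), (1, 3), (1, 4),
   (1, 5), (1, 6), (1, 7), (2, 1), (2, 2), (2, 3), (2, 4), (2, 5), (2, 6), (2, 7), (3, 1),
   (3, 2), (3, 3), (3, 4), (3, 5), (3, 6), (3, 7), (4, 1), (4, 2), (4, 3), (4, 4), (4, 5),
   (4, 6), (4, 7), (5, 1), (5, 2), (5, 3), (5, 4), (5, 5), (5, 6), (5, 7), (6, 1), (6, 2),
   (6, 3), (6, 4), (6, 5), (6, 6), (6, 7), (7, 1), (7, 2), (7, 3), (7, 4), (7, 5), (7, 6),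
   (7, 7), (8, 1), (8, 2), (8, 3), (8, 4), (8, 5), (8, 6), (8, 7), (9, 1), (9, 2), (9, 3),
   (9, 4), (9, 5), (9, 6), (9, 7)]

theorem repliesTen_eq : allReplies 10 7 = repliesTen := by decide +kernel

theorem check_ten : (check 10 7 edgesTen repliesTen 6 0 0 strategyTen).isSome = true := by
  decide +kernel

theorem playerOneWins_ten_seven : PlayerOneWins (triangularLadder 10) 7 := by
  obtain ⟨s, hs⟩ := Option.isSome_iff_exists.1 check_ten
  rw [← edgesTen_eq, ← repliesTen_eq] at hs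
  exact playerOneWins_of_check (by norm_num) _ _ _ hs

/-- an edge-distinguishing colouring of `T_10` with `7` colours -/
def colTen : Fin 10 → Fin 7 := ![0, 1, 2, 3, 4, 0, 5, 6, 1, 4]

theorem colTen_ed : EdgeDistinguishing (triangularLadder 10) colTen := by
  intro e he e' he' hee
  obtain ⟨i, j, rfl, hij⟩ := exists_rep he
  obtain ⟨i', j', rfl, hij'⟩ := exists_rep he'
  clear he he'
  rw [mem_edgeList] at hij hij'
  rw [Sym2.map_mk, Sym2.map_mk] at hee
  revert i j i' j'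
  decide +kernel

/-- Adjacent vertices of `T_n`, `n ≥ 3`, have distinct colours in an edge-distinguishing
colouring, as every edge lies in a triangle. -/
theorem ed_ne {n k : ℕ} (hn : 3 ≤ n) {c : Fin n → Fin k}
    (hc : EdgeDistinguishing (triangularLadder n) c) {i j : Fin n}
    (hij : (triangularLadder n).Adj i j) : c i ≠ c j := by
  intro h
  -- a common neighbour
  obtain ⟨l, hil, hjl⟩ : ∃ l : Fin n, (triangularLadder n).Adj i l ∧
      (triangularLadder n).Adj j l := by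
    rw [ladder_adj] at hij
    have hi := i.isLt
    have hj := j.isLt
    rcases hij with (h | h) | (h | h)
    · by_cases h2 : j.val + 1 < n
      · exact ⟨⟨j.val + 1, h2⟩, (ladder_adj _ _).2 (by dsimp only; omega),
          (ladder_adj _ _).2 (by dsimp only; omega)⟩
      · exact ⟨⟨i.val - 1, by omega⟩, (ladder_adj _ _).2 (by dsimp only; omega),
          (ladder_adj _ _).2 (by dsimp only; omega)⟩
    · exact ⟨⟨i.val + 1, by omega⟩, (ladder_adj _ _).2 (by dsimp only; omega),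
          (ladder_adj _ _).2 (by dsimp only; omega)⟩
    · by_cases h2 : i.val + 1 < n
      · exact ⟨⟨i.val + 1, h2⟩, (ladder_adj _ _).2 (by dsimp only; omega),
          (ladder_adj _ _).2 (by dsimp only; omega)⟩
      · exact ⟨⟨j.val - 1, by omega⟩, (ladder_adj _ _).2 (by dsimp only; omega),
          (ladder_adj _ _).2 (by dsimp only; omega)⟩
    · exact ⟨⟨j.val + 1, by omega⟩, (ladder_adj _ _).2 (by dsimp only; omega),
          (ladder_adj _ _).2 (by dsimp only; omega)⟩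
  have h1 := hc ((SimpleGraph.mem_edgeSet _).2 hil) ((SimpleGraph.mem_edgeSet _).2 hjl)
    (by rw [Sym2.map_mk, Sym2.map_mk, h])
  rw [Sym2.eq_iff] at h1
  rcases h1 with ⟨h1, _⟩ | ⟨h1, h2⟩
  · exact hij.ne h1
  · exact hil.ne h1

theorem edgeDistinguishingNumber_ten : edgeDistinguishingNumber (triangularLadder 10) = 7 := by
  unfold edgeDistinguishingNumber
  apply le_antisymm
  · exact Nat.sInf_le ⟨colTen, colTen_ed⟩
  · by_contra hlt
    push Not at hlt
    have hne : {k : ℕ | ∃ c : Fin 10 → Fin k, EdgeDistinguishing (triangularLadder 10) c}.Nonempty :=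
      ⟨7, colTen, colTen_ed⟩
    have hmem := Nat.sInf_mem hne
    generalize sInf {k : ℕ | ∃ c : Fin 10 → Fin k, EdgeDistinguishing (triangularLadder 10) c} = k
      at hlt hmem
    obtain ⟨c, hc⟩ := hmem
    -- the 17 edges receive distinct pairs of distinct colours
    have h1 : (edgeList 10).length ≤ ((Finset.univ : Finset (Sym2 (Fin k))).filter
        (fun e => ¬ e.IsDiag)).card := by
      have h2 : (edgeList 10).length = (edgeList 10).toFinset.card :=
        (List.toFinset_card_of_nodup (edgeList_nodup 10)).symm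
      rw [h2]
      apply Finset.card_le_card_of_injOn
        (fun e : ℕ × ℕ => if h : e.1 < 10 ∧ e.2 < 10 then
          s(c ⟨e.1, h.1⟩, c ⟨e.2, h.2⟩) else s(c 0, c 0))
      · intro e he
        simp only [List.coe_toFinset, Set.mem_ofPred_eq, mem_edgeList] at he
        simp only [Finset.coe_filter, Finset.mem_univ, true_and, Set.mem_ofPred_eq]
        rw [dif_pos ⟨he.1, he.2.1⟩, Sym2.mk_isDiag_iff]
        apply ed_ne (by norm_num) hc
        rw [ladder_adj]
        exact Or.inl he.2.2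
      · intro e he e' he' hee
        simp only [List.coe_toFinset, Set.mem_ofPred_eq, mem_edgeList] at he he'
        simp only [dif_pos (And.intro he.1 he.2.1), dif_pos (And.intro he'.1 he'.2.1)] at hee
        have h3 := hc (x₁ := s(⟨e.1, he.1⟩, ⟨e.2, he.2.1⟩)) (x₂ := s(⟨e'.1, he'.1⟩, ⟨e'.2, he'.2.1⟩))
          (by rw [SimpleGraph.mem_edgeSet, ladder_adj]; exact Or.inl he.2.2)
          (by rw [SimpleGraph.mem_edgeSet, ladder_adj]; exact Or.inl he'.2.2) hee
        rw [Sym2.eq_iff] at h3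
        simp only [Fin.mk.injEq] at h3
        apply Prod.ext <;> omega
    have h4 : (edgeList 10).length = 17 := by decide +kernel
    have h5 : ((Finset.univ : Finset (Sym2 (Fin k))).filter (fun e => ¬ e.IsDiag)).card
        = k.choose 2 := by
      rw [← Fintype.card_subtype, Sym2.card_subtype_not_diag, Fintype.card_fin]
    rw [h4, h5] at h1
    have h6 : k.choose 2 ≤ (6).choose 2 := Nat.choose_le_choose 2 (by omega)
    have h7 : (6).choose 2 = 15 := by decide
    omega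

/-- Player 1 has a winning strategy in the edge-distinguishing game on `T_10`. -/
theorem playerOneWins_ten :
    PlayerOneWins (triangularLadder 10) (edgeDistinguishingNumber (triangularLadder 10)) := by
  rw [edgeDistinguishingNumber_ten]
  exact playerOneWins_ten_seven

end Pool.Agent.H13
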