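import Pool.Agent.H13.FlagDefs

namespace Pool.Agent.H13

open Finset

section Basic

variable {V : Type*} {G : SimpleGraph V}

theorem mem_linkIn {A : Finset V} {v w : V} : w ∈ linkIn G A v ↔ w ∈ A ∧ G.Adj v w := by
  classical
  unfold linkIn
  simp

theorem mem_simplicesIn {A s : Finset V} :
    s ∈ simplicesIn G A ↔ s ⊆ A ∧ G.IsClique (s : Set V) := by
  classical
  unfold simplicesIn
  simp

theorem mem_linkOf {A s : Finset V} {w : V} : w ∈ linkOf G A s ↔ w ∈ A ∧ ∀ x ∈ s, G.Adj x w := by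
  classical
  unfold linkOf
  simp

theorem linkOf_empty (A : Finset V) : linkOf G A ∅ = A := by
  ext w; simp [mem_linkOf]

theorem linkOf_singleton (A : Finset V) (v : V) : linkOf G A {v} = linkIn G A v := by
  ext w; simp [mem_linkOf, mem_linkIn]

theorem linkOf_insert [DecidableEq V] (A s : Finset V) (v : V) :
    linkOf G A (insert v s) = linkIn G (linkOf G A s) v := by
  ext w
  simp only [mem_linkOf, mem_linkIn, mem_insert, forall_eq_or_imp]
  tauto

theorem linkOf_subset (A s : Finset V) : linkOf G A s ⊆ A := fun _ h => (mem_linkOf.1 h).1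

theorem linkIn_subset (A : Finset V) (v : V) : linkIn G A v ⊆ A := fun _ h => (mem_linkIn.1 h).1

theorem linkOf_linkOf [DecidableEq V] (A s t : Finset V) : linkOf G (linkOf G A s) t = linkOf G A (s ∪ t) := by
  ext w
  simp only [mem_linkOf, mem_union]
  constructor
  · rintro ⟨⟨h1, h2⟩, h3⟩
    exact ⟨h1, fun x hx => hx.elim (h2 x) (h3 x)⟩
  · rintro ⟨h1, h2⟩
    exact ⟨⟨h1, fun x hx => h2 x (Or.inl hx)⟩, fun x hx => h2 x (Or.inr hx)⟩

theorem disjoint_of_mem_linkOf {A s t : Finset V} (h : t ⊆ linkOf G A s) : Disjoint s t := by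
  rw [Finset.disjoint_left]
  intro x hx hx'
  exact (mem_linkOf.1 (h hx')).2 x hx |>.ne rfl

/-- Double counting of the pairs of a simplex and one of its faces. -/
theorem double_count [DecidableEq V] {M : Type*} [AddCommMonoid M] (A : Finset V)
    (F : Finset V → Finset V → M) :
    ∑ σ ∈ simplicesIn G A, ∑ τ ∈ σ.powerset, F τ (σ \ τ) =
      ∑ τ ∈ simplicesIn G A, ∑ ρ ∈ simplicesIn G (linkOf G A τ), F τ ρ := by
  rw [Finset.sum_sigma', Finset.sum_sigma']
  apply Finset.sum_bij' (fun p _ => (⟨p.2, p.1 \ p.2⟩ : Σ _ : Finset V, Finset V))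
    (fun p _ => (⟨p.1 ∪ p.2, p.1⟩ : Σ _ : Finset V, Finset V))
  · rintro ⟨σ, τ⟩ h
    simp only [mem_sigma, mem_powerset, mem_simplicesIn] at h ⊢
    obtain ⟨⟨h1, h2⟩, h3⟩ := h
    refine ⟨⟨h3.trans h1, h2.subset (by exact_mod_cast h3)⟩, ?_, h2.subset (by
      exact_mod_cast sdiff_subset)⟩
    intro x hx
    rw [mem_sdiff] at hx
    rw [mem_linkOf]
    refine ⟨h1 hx.1, fun y hy => h2 (h3 hy) hx.1 ?_⟩
    rintro rfl
    exact hx.2 hy
  · rintro ⟨τ, ρ⟩ h
    simp only [mem_sigma, mem_powerset, mem_simplicesIn] at h ⊢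
    obtain ⟨⟨h1, h2⟩, h3, h4⟩ := h
    refine ⟨⟨union_subset h1 (h3.trans (linkOf_subset _ _)), ?_⟩, subset_union_left⟩
    intro x hx y hy hxy
    rw [mem_coe, mem_union] at hx hy
    rcases hx with hx | hx
    · rcases hy with hy | hy
      · exact h2 hx hy hxy
      · exact (mem_linkOf.1 (h3 hy)).2 x hx
    · rcases hy with hy | hy
      · exact ((mem_linkOf.1 (h3 hx)).2 y hy).symm
      · exact h4 hx hy hxy
  · rintro ⟨σ, τ⟩ h
    simp only [mem_sigma, mem_powerset] at h
    simp [h.2]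
  · rintro ⟨τ, ρ⟩ h
    simp only [mem_sigma, mem_simplicesIn] at h
    have hd := disjoint_of_mem_linkOf h.2.1
    simp only [Sigma.mk.injEq, heq_eq_eq, true_and]
    exact union_sdiff_cancel_left hd
  · rintro ⟨σ, τ⟩ h
    rfl

/-- links of simplices -/
theorem IsFlagSphere.link {d : ℕ} {A : Finset V} (h : IsFlagSphere G d A) {s : Finset V}
    (hs : s ∈ simplicesIn G A) : s.card ≤ d ∧ IsFlagSphere G (d - s.card) (linkOf G A s) := by
  classical
  induction s using Finset.induction_on with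
  | empty => simpa [linkOf_empty] using h
  | insert v s hv ih =>
    rw [mem_simplicesIn] at hs
    have hs' : s ∈ simplicesIn G A := by
      rw [mem_simplicesIn]
      exact ⟨(subset_insert v s).trans hs.1, hs.2.subset (by simp)⟩
    obtain ⟨h1, h2⟩ := ih hs'
    have hvc : v ∈ linkOf G A s := by
      rw [mem_linkOf]
      refine ⟨hs.1 (mem_insert_self v s), fun x hx => hs.2 (by simp [hx]) (by simp) ?_⟩
      rintro rfl
      exact hv hx
    rw [card_insert_of_notMem hv, linkOf_insert]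
    rcases hd : d - s.card with _ | e
    · rw [hd] at h2
      simp only [IsFlagSphere] at h2
      rw [h2] at hvc
      simp at hvc
    · rw [hd] at h2
      have h3 : d - (s.card + 1) = e := by omega
      rw [h3]
      exact ⟨by omega, h2.2.1 v hvc⟩

theorem IsFlagSphere.euler {d : ℕ} {A : Finset V} (h : IsFlagSphere G d A) :
    ∑ s ∈ simplicesIn G A, (-1 : ℤ) ^ s.card = (-1) ^ d := by
  rcases d with _ | d
  · simp only [IsFlagSphere] at h
    subst h
    have : simplicesIn G (∅ : Finset V) = {∅} := by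
      ext s
      rw [mem_simplicesIn, subset_empty, mem_singleton]
      constructor
      · exact fun h => h.1
      · rintro rfl; simp
    rw [this]
    simp
  · exact h.2.2.1

theorem omega_empty : omega G (∅ : Finset V) = 1 := by
  unfold omega
  have : simplicesIn G (∅ : Finset V) = {∅} := by
    ext s
    rw [mem_simplicesIn, subset_empty, mem_singleton]
    constructor
    · exact fun h => h.1
    · rintro rfl; simp
  rw [this]
  simp

theorem IsFlagSphere.omega_eq {d : ℕ} {A : Finset V} (h : IsFlagSphere G d A) :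
    omega G A = (-1) ^ d * omega G A := by
  classical
  have hdc := double_count (G := G) (M := ℚ) A
    (fun τ ρ => (-1) ^ (τ.card + ρ.card) * (-1 / 2) ^ τ.card)
  have h1 : ∀ σ ∈ simplicesIn G A, ∑ τ ∈ σ.powerset,
      (-1 : ℚ) ^ (τ.card + (σ \ τ).card) * (-1 / 2) ^ τ.card = (-1) ^ σ.card / 2 ^ σ.card := by
    intro σ _
    have h2 : ∀ τ ∈ σ.powerset, (-1 : ℚ) ^ (τ.card + (σ \ τ).card) * (-1 / 2) ^ τ.card =
        (-1) ^ σ.card * ((-1 / 2) ^ τ.card * 1 ^ (σ.card - τ.card)) := by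
      intro τ hτ
      rw [mem_powerset] at hτ
      have h3 : τ.card + (σ \ τ).card = σ.card := by
        rw [card_sdiff_of_subset hτ]
        have := card_le_card hτ
        omega
      rw [h3, one_pow, mul_one]
    rw [Finset.sum_congr rfl h2, ← Finset.mul_sum, Finset.sum_pow_mul_eq_add_pow]
    rw [← div_pow, ← mul_pow]
    norm_num
  have h2 : ∀ τ ∈ simplicesIn G A, ∑ ρ ∈ simplicesIn G (linkOf G A τ),
      (-1 : ℚ) ^ (τ.card + ρ.card) * (-1 / 2) ^ τ.card =
      (-1) ^ d * ((-1) ^ τ.card / 2 ^ τ.card) := by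
    intro τ hτ
    obtain ⟨h3, h4⟩ := h.link hτ
    have h5 := h4.euler
    have h6 : ∑ ρ ∈ simplicesIn G (linkOf G A τ), (-1 : ℚ) ^ ρ.card = (-1) ^ (d - τ.card) := by
      have := congrArg (Int.cast : ℤ → ℚ) h5
      push_cast at this
      exact this
    have h7 : ∀ ρ ∈ simplicesIn G (linkOf G A τ), (-1 : ℚ) ^ (τ.card + ρ.card) * (-1 / 2) ^ τ.card =
        ((-1) ^ τ.card * (-1 / 2) ^ τ.card) * (-1) ^ ρ.card := by
      intro ρ _
      rw [pow_add]; ring
    rw [Finset.sum_congr rfl h7, ← Finset.mul_sum, h6]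
    have h8 : (-1 : ℚ) ^ d = (-1) ^ (d - τ.card) * (-1) ^ τ.card := by
      rw [← pow_add]; congr 1; omega
    rw [h8, div_pow]
    ring
  have h3 := (Finset.sum_congr rfl h1).symm.trans (hdc.trans (Finset.sum_congr rfl h2))
  rw [← Finset.mul_sum] at h3
  exact h3

theorem IsFlagSphere.omega_odd {d : ℕ} {A : Finset V} (h : IsFlagSphere G d A) (hd : Odd d) :
    omega G A = 0 := by
  have h1 := h.omega_eq
  rw [hd.neg_one_pow] at h1
  linarith

/-- inclusion-exclusion over the simplices contained in `U` -/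
theorem omega_sdiff [DecidableEq V] (A U : Finset V) (hU : U ⊆ A) :
    omega G (A \ U) = ∑ ρ ∈ simplicesIn G U, (1 / 2 : ℚ) ^ ρ.card * omega G (linkOf G A ρ) := by
  have hdc := double_count (G := G) (M := ℚ) A
    (fun τ ρ => if τ ⊆ U then (1 / 2 : ℚ) ^ τ.card * ((-1) ^ ρ.card / 2 ^ ρ.card) else 0)
  have h1 : ∑ τ ∈ simplicesIn G A, ∑ ρ ∈ simplicesIn G (linkOf G A τ),
      (if τ ⊆ U then (1 / 2 : ℚ) ^ τ.card * ((-1) ^ ρ.card / 2 ^ ρ.card) else 0) =
      ∑ ρ ∈ simplicesIn G U, (1 / 2 : ℚ) ^ ρ.card * omega G (linkOf G A ρ) := by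
    have h2 : simplicesIn G U = (simplicesIn G A).filter (fun τ => τ ⊆ U) := by
      ext τ
      rw [mem_filter, mem_simplicesIn, mem_simplicesIn]
      constructor
      · rintro ⟨h1, h2⟩; exact ⟨⟨h1.trans hU, h2⟩, h1⟩
      · rintro ⟨⟨_, h2⟩, h3⟩; exact ⟨h3, h2⟩
    rw [h2, Finset.sum_filter]
    apply Finset.sum_congr rfl
    intro τ _
    split_ifs with h
    · unfold omega
      rw [← Finset.mul_sum]
    · simp
  rw [← h1, ← hdc]
  unfold omega
  have h3 : simplicesIn G (A \ U) = (simplicesIn G A).filter (fun τ => Disjoint τ U) := by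
    ext τ
    rw [mem_filter, mem_simplicesIn, mem_simplicesIn, subset_sdiff]
    tauto
  rw [h3, Finset.sum_filter]
  apply Finset.sum_congr rfl
  intro σ _
  have h4 : ∑ τ ∈ σ.powerset, (if τ ⊆ U then (1 / 2 : ℚ) ^ τ.card *
      ((-1) ^ (σ \ τ).card / 2 ^ (σ \ τ).card) else 0) =
      ((-1) ^ σ.card / 2 ^ σ.card) * ∑ τ ∈ (σ ∩ U).powerset, (-1 : ℚ) ^ τ.card := by
    have h5 : (σ ∩ U).powerset = σ.powerset.filter (fun τ => τ ⊆ U) := by
      ext τ; rw [mem_filter, mem_powerset, mem_powerset, subset_inter_iff]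
    rw [h5, Finset.sum_filter, Finset.mul_sum]
    apply Finset.sum_congr rfl
    intro τ hτ
    rw [mem_powerset] at hτ
    split_ifs with h
    · have h6 : σ.card = τ.card + (σ \ τ).card := by
        rw [card_sdiff_of_subset hτ]
        have := card_le_card hτ
        omega
      rw [h6, pow_add, pow_add]
      have h7 : (-1 : ℚ) ^ τ.card * (-1) ^ τ.card = 1 := by
        rw [← mul_pow]; norm_num
      have h8 : (2 : ℚ) ^ τ.card ≠ 0 := by positivity
      have h9 : (2 : ℚ) ^ (σ \ τ).card ≠ 0 := by positivity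
      rw [one_div, inv_pow]
      field_simp
      rw [sq, h7]
    · simp
  rw [h4]
  have h10 : ∑ τ ∈ (σ ∩ U).powerset, (-1 : ℚ) ^ τ.card = if σ ∩ U = ∅ then 1 else 0 := by
    have := Finset.sum_powerset_neg_one_pow_card (x := σ ∩ U)
    have h11 := congrArg (Int.cast : ℤ → ℚ) this
    push_cast at h11
    exact h11
  rw [h10]
  by_cases hd : Disjoint σ U
  · rw [if_pos hd, if_pos (Finset.disjoint_iff_inter_eq_empty.1 hd), mul_one]
  · rw [if_neg hd, if_neg (fun h => hd (Finset.disjoint_iff_inter_eq_empty.2 h)), mul_zero]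

end Basic

end Pool.Agent.H13
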