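import Mathlib

/-!
Flag complexes, given by their graphs, and a combinatorial notion of generalized sphere.

A flag complex is given by a finite set `A` of vertices in a graph `G`: its simplices are the
subsets of `A` whose elements are pairwise adjacent.  The link of a simplex `s` is again a flag
complex, on the set of those elements of `A` which are adjacent to all elements of `s`.
-/

namespace Pool.Agent.H13

/-- The vertices of `A` which are adjacent to `v`; this is the vertex set of the link of `v` in
the flag complex on `A`. -/
noncomputable def linkIn {V : Type*} (G : SimpleGraph V) (A : Finset V) (v : V) : Finset V := by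
  classical exact A.filter (fun w => G.Adj v w)

/-- The vertices of `A` which are adjacent to all elements of `s`; this is the vertex set of the
link of the simplex `s` in the flag complex on `A`. -/
noncomputable def linkOf {V : Type*} (G : SimpleGraph V) (A s : Finset V) : Finset V := by
  classical exact A.filter (fun w => ∀ x ∈ s, G.Adj x w)

/-- The vertices of `A` which are different from `v` and not adjacent to `v`. -/
noncomputable def farIn {V : Type*} (G : SimpleGraph V) (A : Finset V) (v : V) : Finset V := by
  classical exact A.filter (fun w => w ≠ v ∧ ¬ G.Adj v w)

/-- The simplices, including the empty one, of the flag complex on the vertex set `A` whose edges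
are the edges of `G`: the sets of pairwise adjacent elements of `A`. -/
noncomputable def simplicesIn {V : Type*} (G : SimpleGraph V) (A : Finset V) :
    Finset (Finset V) := by
  classical exact A.powerset.filter (fun s => G.IsClique (s : Set V))

/-- The flag complex on the vertex set `A` (with the edges of `G`) is a generalized flag sphere of
dimension `d - 1`, in the following recursive sense. For `d = 0` the set `A` is empty. For `d + 1`
the set `A` is not empty, the link of every vertex is a generalized flag sphere of dimension
`d - 1`, the (reduced) Euler characteristic is that of a sphere of dimension `d`, and the complex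
is connected if its dimension `d` is at least `1`. -/
def IsFlagSphere {V : Type*} (G : SimpleGraph V) : ℕ → Finset V → Prop
  | 0, A => A = ∅
  | d + 1, A => A.Nonempty ∧ (∀ v ∈ A, IsFlagSphere G d (linkIn G A v)) ∧
      (∑ s ∈ simplicesIn G A, (-1 : ℤ) ^ s.card = (-1) ^ (d + 1)) ∧
      (1 ≤ d → (G.induce (A : Set V)).Connected)

/-- The Charney-Davis quantity `ω` of the flag complex on `A`, all edge weights being `2`: the sum
over the simplices `s` (with the empty one) of `(-1)^(dim s + 1) / 2^(dim s + 1)`. -/
noncomputable def omega {V : Type*} (G : SimpleGraph V) (A : Finset V) : ℚ :=
  ∑ s ∈ simplicesIn G A, (-1) ^ s.card / 2 ^ s.card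

/-- The flag complex on `A` is the join of the one on `Q` and the one on the rest of `A`. -/
def IsJoinFactor {V : Type*} (G : SimpleGraph V) (A Q : Finset V) : Prop :=
  Q ⊆ A ∧ ∀ x ∈ Q, ∀ y ∈ A, y ∉ Q → G.Adj x y

/-- The flag complex on `A` is not the join of two complexes with nonempty vertex sets. -/
def IsJoinIrreducible {V : Type*} (G : SimpleGraph V) (A : Finset V) : Prop :=
  ∀ Q : Finset V, IsJoinFactor G A Q → Q = ∅ ∨ Q = A

end Pool.Agent.H13
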