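import Pool.Agent.H13.FlagMain

namespace Pool.Agent.H13

open Finset

section Fac

variable {V : Type*} {G : SimpleGraph V}

theorem card_maximal_simplex {d : ℕ} {A τ : Finset V} (hA : IsFlagSphere G d A)
    (hτ : τ ∈ simplicesIn G A) (hτm : ∀ y ∈ A, ∃ x ∈ τ, ¬ G.Adj x y) : τ.card = d := by
  have h5 := hA.link hτ
  have h6 : linkOf G A τ = ∅ := by
    rw [eq_empty_iff_forall_notMem]
    intro w hw
    rw [mem_linkOf] at hw
    obtain ⟨x, hx, hx'⟩ := hτm w hw.1
    exact hx' (hw.2 x hx)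
  rw [h6] at h5
  have h7 := h5.2.index_eq_zero
  omega

theorem index_unique {p q : ℕ} {A : Finset V} (hp : IsFlagSphere G p A)
    (hq : IsFlagSphere G q A) : p = q := by
  obtain ⟨τ, hτ, hτm⟩ := exists_maximal_simplex (G := G) A
  rw [← card_maximal_simplex hp hτ hτm, card_maximal_simplex hq hτ hτm]

theorem IsJoinFactor.union_sdiff [DecidableEq V] {A Q : Finset V} (h : IsJoinFactor G A Q) :
    Q ∪ (A \ Q) = A := union_sdiff_of_subset h.1

theorem IsJoinFactor.adj_sdiff [DecidableEq V] {A Q : Finset V} (h : IsJoinFactor G A Q) :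
    ∀ x ∈ Q, ∀ y ∈ A \ Q, G.Adj x y := by
  intro x hx y hy
  rw [mem_sdiff] at hy
  exact h.2 x hx y hy.1 hy.2

theorem IsJoinFactor.index [DecidableEq V] {d q : ℕ} {A Q : Finset V} (h : IsJoinFactor G A Q)
    (hA : IsFlagSphere G d A) (hQ : IsFlagSphere G q Q) :
    q ≤ d ∧ IsFlagSphere G (d - q) (A \ Q) := by
  rw [← h.union_sdiff] at hA
  obtain ⟨p, q', hpq, hp, hq'⟩ := hA.factors h.adj_sdiff
  have := index_unique hp hQ
  refine ⟨by omega, ?_⟩
  have h2 : d - q = q' := by omega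
  rw [h2]; exact hq'

theorem IsJoinFactor.sphere [DecidableEq V] {d : ℕ} {A Q : Finset V} (h : IsJoinFactor G A Q)
    (hA : IsFlagSphere G d A) : ∃ q, IsFlagSphere G q Q := by
  rw [← h.union_sdiff] at hA
  obtain ⟨p, q', hpq, hp, hq'⟩ := hA.factors h.adj_sdiff
  exact ⟨p, hp⟩

/-- Lemma M: each irreducible factor of a vertex link costs at least three vertices for every
missing dimension. -/
theorem card_factor_link [DecidableEq V] : ∀ (N k : ℕ) (d q : ℕ) (A R : Finset V) (v : V),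
    A.card = N → A.card - R.card = k → IsFlagSphere G d A → Irr G A → v ∈ A →
    IsJoinFactor G (linkIn G A v) R → Irr G R → R.Nonempty → IsFlagSphere G q R →
    R.card + 3 * d ≤ A.card + 3 * q := by
  classical
  intro N
  induction N using Nat.strong_induction_on with
  | _ N ihN =>
  intro k
  induction k using Nat.strong_induction_on with
  | _ k ihk =>
  intro d q A R v hN hk hA hirr hv hfac hRirr hRne hq
  have hq1 : 1 ≤ q := hq.pos hRne
  have hd1 : 1 ≤ d := hA.pos ⟨v, hv⟩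
  obtain ⟨e, rfl⟩ : ∃ e, d = e + 1 := ⟨d - 1, by omega⟩
  have hL := hA.link_vertex hv
  obtain ⟨hqe, hR'⟩ := hfac.index hL hq
  have hRA : R ⊆ A := hfac.1.trans (linkIn_subset _ _)
  by_cases hR0 : linkIn G A v \ R = ∅
  · rw [hR0] at hR'
    have h0 := hR'.index_eq_zero
    have h1 := two_le_far_of_irr hA (by omega) hirr hv
    have h2 := card_split (G := G) A hv
    have h3 : linkIn G A v = R := Finset.Subset.antisymm (sdiff_eq_empty_iff_subset.1 hR0) hfac.1
    rw [h3] at h2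
    omega
  · have hq2 : 1 ≤ e - q := hR'.pos (Finset.nonempty_iff_ne_empty.2 hR0)
    obtain ⟨τ, hτ, hτm⟩ := exists_maximal_simplex (G := G) R
    have hτc := card_maximal_simplex hq hτ hτm
    rw [mem_simplicesIn] at hτ
    have hW := hA.link (s := τ) (by rw [mem_simplicesIn]; exact ⟨hτ.1.trans hRA, hτ.2⟩)
    set W := linkOf G A τ with hWdef
    set W' := W.filter (fun a => ∀ x ∈ R, G.Adj x a ∧ IsJoinFactor G (linkIn G A a) R) with hW'def
    have hmem : ∀ a, a ∈ W' ↔ a ∈ W ∧ ∀ x ∈ R, G.Adj x a ∧ IsJoinFactor G (linkIn G A a) R := by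
      intro a; rw [hW'def, mem_filter]
    have hvW : v ∈ W' := by
      rw [hmem, hWdef, mem_linkOf]
      refine ⟨⟨hv, fun x hx => ?_⟩, fun x hx => ⟨?_, hfac⟩⟩
      · exact ((mem_linkIn.1 (hfac.1 (hτ.1 hx))).2).symm
      · exact ((mem_linkIn.1 (hfac.1 hx)).2).symm
    obtain ⟨q0, hq0⟩ := hRne
    have hne : W' ≠ W := by
      intro hcl
      have hfin := hA.eq_join hq hW.2 (by omega) hRA (linkOf_subset _ _) (by
        intro x hx y hy
        rw [← hcl, hmem] at hy
        exact (hy.2 x hx).1)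
      rcases hirr R W hfin.symm (by
        intro x hx y hy
        rw [← hcl, hmem] at hy
        exact (hy.2 x hx).1) with h | h
      · rw [h] at hq0; simp at hq0
      · rw [← hcl] at h
        rw [h] at hvW; simp at hvW
    have hex : ∃ a ∈ W', ∃ b ∈ W, G.Adj a b ∧ b ∉ W' := by
      by_contra hcon
      push Not at hcon
      exact hne (eq_of_closed (hW.2.connected (by omega)) (filter_subset _ _) ⟨v, hvW⟩ hcon)
    obtain ⟨a, ha, b, hb, hab, hb'⟩ := hex
    rw [hmem] at ha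
    have haA : a ∈ A := (mem_linkOf.1 ha.1).1
    have hbA : b ∈ A := (mem_linkOf.1 hb).1
    have hbR : b ∉ R := by
      intro hbR
      obtain ⟨x, hx, hx'⟩ := hτm b hbR
      exact hx' ((mem_linkOf.1 hb).2 x hx)
    have hbL : b ∈ linkIn G A a := mem_linkIn.2 ⟨hbA, hab⟩
    have hfa := (ha.2 q0 hq0).2
    have hxb : ∀ x ∈ R, G.Adj x b := fun x hx => hfa.2 x hx b hbL hbR
    have hRb : R ⊆ linkIn G A b := fun x hx => mem_linkIn.2 ⟨hRA hx, (hxb x hx).symm⟩
    obtain ⟨Y, hRY, hYfac, hYirr⟩ := exists_irr_factor hRb hRirr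
    obtain ⟨y, hy⟩ := hYfac.sphere (hA.link_vertex hbA)
    have hRYne : R ≠ Y := by
      intro h
      rw [← h] at hYfac
      exact hb' ((hmem b).2 ⟨hb, fun x hx => ⟨hxb x hx, hYfac⟩⟩)
    have haY : a ∈ Y := by
      by_contra haY
      have haLb : a ∈ linkIn G A b := mem_linkIn.2 ⟨haA, hab.symm⟩
      have hadj : ∀ x ∈ R, ∀ z ∈ Y \ R, G.Adj x z := by
        intro x hx z hz
        rw [mem_sdiff] at hz
        have hza : G.Adj z a := hYfac.2 z hz.1 a haLb haY
        exact hfa.2 x hx z (mem_linkIn.2 ⟨linkIn_subset _ _ (hYfac.1 hz.1), hza.symm⟩) hz.2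
      rcases hYirr R (Y \ R) (union_sdiff_of_subset hRY) hadj with h | h
      · rw [h] at hq0; simp at hq0
      · exact hRYne (Finset.Subset.antisymm hRY (sdiff_eq_empty_iff_subset.1 h))
    have hYA : Y ⊆ A := hYfac.1.trans (linkIn_subset _ _)
    have hbY : b ∉ Y := fun h => G.irrefl (mem_linkIn.1 (hYfac.1 h)).2
    have hYlt : Y.card < A.card := card_lt_card (Finset.ssubset_iff_subset_ne.2
      ⟨hYA, fun h => hbY (h ▸ hbA)⟩)
    have hRlt : R.card < Y.card := card_lt_card (Finset.ssubset_iff_subset_ne.2 ⟨hRY, hRYne⟩)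
    have hfacY : IsJoinFactor G (linkIn G Y a) R := by
      refine ⟨fun x hx => mem_linkIn.2 ⟨hRY hx, ((ha.2 x hx).1).symm⟩, ?_⟩
      intro x hx z hz hzR
      rw [mem_linkIn] at hz
      exact hfa.2 x hx z (mem_linkIn.2 ⟨hYA hz.1, hz.2⟩) hzR
    have h1 := ihN Y.card (by omega) _ y q Y R a rfl rfl hy hYirr haY hfacY hRirr ⟨q0, hq0⟩ hq
    have h2 := ihk (A.card - Y.card) (by omega) (e + 1) y A Y b hN rfl hA hirr hbA hYfac hYirr
      ⟨a, haY⟩ hy
    omega

theorem card_factor_edge [DecidableEq V] {d q : ℕ} {A R e : Finset V} (hA : IsFlagSphere G d A)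
    (hirr : Irr G A) (he : e ∈ simplicesIn G A) (hec : e.card = 2)
    (hfac : IsJoinFactor G (linkOf G A e) R) (hRirr : Irr G R) (hRne : R.Nonempty)
    (hq : IsFlagSphere G q R) : R.card + 3 * d ≤ A.card + 3 * q := by
  obtain ⟨a, b, hab, rfl⟩ := card_eq_two.1 hec
  rw [mem_simplicesIn] at he
  have haA : a ∈ A := he.1 (by simp)
  have hbA : b ∈ A := he.1 (by simp)
  have hadj : G.Adj a b := he.2 (by simp) (by simp) hab
  have hbL : b ∈ linkIn G A a := mem_linkIn.2 ⟨hbA, hadj⟩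
  have hd1 : 1 ≤ d := hA.pos ⟨a, haA⟩
  obtain ⟨d', rfl⟩ : ∃ d', d = d' + 1 := ⟨d - 1, by omega⟩
  obtain ⟨Y, hbY, hYfac, hYirr⟩ := exists_irr_factor (G := G) (A := linkIn G A a) (Q := {b})
    (by simpa using hbL) (irr_singleton b)
  have hbY' : b ∈ Y := hbY (by simp)
  obtain ⟨y, hy⟩ := hYfac.sphere (hA.link_vertex haA)
  have hYA := hYfac.1
  have hcn : ∀ w, w ∈ linkOf G A {a, b} ↔ w ∈ linkIn G A a ∧ G.Adj b w := by
    intro w
    rw [mem_linkOf, mem_linkIn]
    simp only [mem_insert, mem_singleton, forall_eq_or_imp, forall_eq]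
    tauto
  have hM := card_factor_link (G := G)
  by_cases hcase : R ∩ Y = ∅
  · -- `R` is a factor of the link of `a`
    have hRf : IsJoinFactor G (linkIn G A a) R := by
      refine ⟨fun x hx => ((hcn x).1 (hfac.1 hx)).1, ?_⟩
      intro x hx z hz hzR
      have hxY : x ∉ Y := fun h => by
        have : x ∈ R ∩ Y := mem_inter.2 ⟨hx, h⟩
        rw [hcase] at this; simp at this
      by_cases hzY : z ∈ Y
      · exact (hYfac.2 z hzY x ((hcn x).1 (hfac.1 hx)).1 hxY).symm
      · have hbz : G.Adj b z := hYfac.2 b hbY' z hz hzY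
        exact hfac.2 x hx z ((hcn z).2 ⟨hz, hbz⟩) hzR
    exact hM _ _ _ _ _ _ _ rfl rfl hA hirr haA hRf hRirr hRne hq
  · have hRY : R ⊆ Y := by
      have h1 : (R ∩ Y) ∪ (R \ Y) = R := by
        rw [union_comm]; exact sdiff_union_inter R Y
      rcases hRirr (R ∩ Y) (R \ Y) h1 (by
        intro x hx z hz
        rw [mem_inter] at hx
        rw [mem_sdiff] at hz
        exact hYfac.2 x hx.2 z ((hcn z).1 (hfac.1 hz.1)).1 hz.2) with h | h
      · exact absurd h hcase
      · exact sdiff_eq_empty_iff_subset.1 h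
    have hRf : IsJoinFactor G (linkIn G Y b) R := by
      refine ⟨fun x hx => mem_linkIn.2 ⟨hRY hx, ((hcn x).1 (hfac.1 hx)).2⟩, ?_⟩
      intro x hx z hz hzR
      rw [mem_linkIn] at hz
      exact hfac.2 x hx z ((hcn z).2 ⟨hYA hz.1, hz.2⟩) hzR
    have h1 := hM _ _ _ _ _ _ _ rfl rfl hy hYirr hbY' hRf hRirr hRne hq
    have h2 := hM _ _ _ _ _ _ _ rfl rfl hA hirr haA hYfac hYirr ⟨b, hbY'⟩ hy
    omega

end Fac

end Pool.Agent.H13
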