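import Pool.Agent.H13.FlagFactor

namespace Pool.Agent.H13

open Finset

section Few

variable {V : Type*} {G : SimpleGraph V}

/-- an irreducible sphere of index four with a vertex `v` whose non-neighbours are exactly a
simplex with four vertices -/
theorem index_four_case [DecidableEq V] {A ρ : Finset V} (hA4 : IsFlagSphere G 4 A)
    (hirr : Irr G A) {v : V} (hv : v ∈ A) (h7 : ρ = farIn G A v) (hρA : ρ ∈ simplicesIn G A)
    (hρc : ρ.card = 4) : 0 ≤ omega G A := by
  have hex2 : ∃ e ⊆ ρ, e.card = 2 ∧ 4 < (linkOf G A e).card := by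
    by_contra hcon
    push Not at hcon
    exact not_irr_of_degree_four hA4 hρA hρc hcon hirr
  obtain ⟨e0, he0, he0c, he0d⟩ := hex2
  rw [omega_recursion (n := 2) hA4 hv, ← h7]
  have hval : ∀ e ∈ simplicesIn G A, e.card = 2 →
      omega G (linkOf G A e) = 1 - (linkOf G A e).card / 4 ∧ 4 ≤ (linkOf G A e).card := by
    intro e he hec
    have h8 := (hA4.link he).2
    rw [hec] at h8
    exact ⟨omega_index_two h8, h8.two_mul_le⟩
  have hρρ : ρ ∈ (simplicesIn G ρ).erase ∅ := by
    rw [mem_erase, mem_simplicesIn]
    refine ⟨?_, Subset.refl ρ, (mem_simplicesIn.1 hρA).2⟩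
    rintro rfl
    simp at hρc
  have he0m : e0 ∈ ((simplicesIn G ρ).erase ∅).erase ρ := by
    rw [mem_erase, mem_erase, mem_simplicesIn]
    refine ⟨?_, ?_, he0, (mem_simplicesIn.1 hρA).2.subset (by exact_mod_cast he0)⟩
    · rintro rfl; omega
    · rintro rfl; simp at he0c
  rw [← Finset.add_sum_erase _ _ hρρ, ← Finset.add_sum_erase _ _ he0m]
  have hρval : omega G (linkOf G A ρ) = 1 := by
    have h8 := (hA4.link hρA).2
    rw [hρc] at h8
    have : linkOf G A ρ = ∅ := h8.eq_empty
    rw [this, omega_empty]
  have he0A : e0 ∈ simplicesIn G A := simplicesIn_subset hρA he0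
  obtain ⟨he0v, _⟩ := hval e0 he0A he0c
  have hrest : ∑ s ∈ (((simplicesIn G ρ).erase ∅).erase ρ).erase e0,
      (1 / 2 : ℚ) ^ s.card * omega G (linkOf G A s) ≤ 0 := by
    apply Finset.sum_nonpos
    intro s hs
    rw [mem_erase, mem_erase, mem_erase, mem_simplicesIn] at hs
    obtain ⟨_, hs1, hs2, hs3, hs4⟩ := hs
    have hsA : s ∈ simplicesIn G A := simplicesIn_subset hρA hs3
    have hlt : s.card < 4 := by
      rw [← hρc]
      exact card_lt_card (Finset.ssubset_iff_subset_ne.2 ⟨hs3, hs1⟩)
    by_cases hs5 : s.card = 2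
    · obtain ⟨h9, h10⟩ := hval s hsA hs5
      rw [h9]
      have h11 : (4 : ℚ) ≤ ((linkOf G A s).card : ℚ) := by exact_mod_cast h10
      have h12 : (0 : ℚ) < (1 / 2) ^ s.card := by positivity
      nlinarith
    · have h9 := (hA4.link hsA).2
      have hpos : 0 < s.card := by
        rw [card_pos]; exact Finset.nonempty_iff_ne_empty.2 hs2
      rw [h9.omega_odd (by rw [Nat.odd_iff]; omega), mul_zero]
  have h13 : (5 : ℚ) ≤ ((linkOf G A e0).card : ℚ) := by exact_mod_cast he0d
  rw [hρval, he0v, hρc, he0c]
  norm_num at hrest ⊢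
  linarith

/-- Theorem E -/
theorem nonneg_of_factors [DecidableEq V] (n : ℕ) (A : Finset V)
    (hA : IsFlagSphere G (2 * n) A)
    (h : ∀ m Q, 2 ≤ m → IsJoinFactor G A Q → IsJoinIrreducible G Q → IsFlagSphere G (2 * m) Q →
      Q.card ≤ max 13 (6 * m) ∨ 0 ≤ (-1) ^ m * omega G Q) : 0 ≤ (-1) ^ n * omega G A := by
  induction A using Finset.strongInduction generalizing n with
  | H A ih =>
    by_cases hirr : Irr G A
    · rcases n with _ | n
      · have : A = ∅ := hA.eq_empty
        subst this
        rw [omega_empty]; norm_num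
      have hself : IsJoinFactor G A A := ⟨Subset.refl A, fun x _ y hy hy' => absurd hy hy'⟩
      by_cases hpos : 0 ≤ (-1) ^ (n + 1) * omega G A
      · exact hpos
      have hself2 : 2 ≤ n + 1 → A.card ≤ max 13 (6 * (n + 1)) := fun hn =>
        (h (n + 1) A hn hself (irr_iff.2 hirr) hA).resolve_right hpos
      by_cases hex : ∃ v ∈ A, ∀ s ∈ simplicesIn G (farIn G A v), s.card ≠ 4
      · obtain ⟨v, hv, h4⟩ := hex
        rw [kappa_edges hA hv h4]
        apply Finset.sum_nonneg
        intro e he
        rw [mem_filter] at he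
        have heA := simplicesIn_mono (farIn_subset A v) he.1
        have h5 := (hA.link heA).2
        rw [he.2, show 2 * (n + 1) - 2 = 2 * n by omega] at h5
        have h6 := card_link_edge hA (by omega) hirr heA he.2
        have h7 : linkOf G A e ⊂ A := by
          rw [Finset.ssubset_iff_subset_ne]
          refine ⟨linkOf_subset _ _, fun h => ?_⟩
          rw [h] at h6
          omega
        have h8 := ih _ h7 n h5 (by
          intro m R hm hRfac hRirr hR
          have hRne : R.Nonempty := by
            obtain ⟨m', rfl⟩ : ∃ m', m = m' + 1 := ⟨m - 1, by omega⟩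
            exact IsFlagSphere.nonempty (d := 2 * m' + 1) hR
          have h9 := card_factor_edge hA hirr heA he.2 hRfac (irr_iff.1 hRirr) hRne hR
          have h10 := (hRfac.index h5 hR).1
          have h11 := hself2 (by omega)
          left
          omega)
        positivity
      · push Not at hex
        obtain ⟨v, hv, hv'⟩ := exists_irr_link hA (by omega) hirr
        obtain ⟨ρ, hρ, hρc⟩ := hex v hv
        have hρA := simplicesIn_mono (farIn_subset A v) hρ
        have h1 := (hA.link hρA).1
        have hn1 : 1 ≤ n := by omega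
        have h2 : IsFlagSphere G (2 * n + 1) (linkIn G A v) :=
          IsFlagSphere.link_vertex (d := 2 * n + 1) hA hv
        have h3 := three_mul_le_of_irr h2 (by omega) hv'
        have h4 := card_split (G := G) A hv
        have h5 : 4 ≤ (farIn G A v).card := by
          rw [← hρc]; exact card_le_card (mem_simplicesIn.1 hρ).1
        have hcard := hself2 (by omega)
        obtain rfl : n = 1 := by omega
        have h7 : ρ = farIn G A v :=
          Finset.eq_of_subset_of_card_le (mem_simplicesIn.1 hρ).1 (by omega)
        have h8 := index_four_case hA hirr hv h7 hρA hρc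
        norm_num
        exact h8
    · unfold Irr at hirr
      push Not at hirr
      obtain ⟨X, Y, hXY, hadj, hX, hY⟩ := hirr
      have hdisj : Disjoint X Y := by
        rw [Finset.disjoint_left]
        intro x hx hy
        exact G.irrefl (hadj x hx x hy)
      subst hXY
      obtain ⟨p, q, hpq, hp, hq⟩ := hA.factors hadj
      have hc : (X ∪ Y).card = X.card + Y.card := card_union_of_disjoint hdisj
      have hXs : X ⊂ X ∪ Y := by
        rw [Finset.ssubset_iff_subset_ne]
        refine ⟨subset_union_left, fun h => ?_⟩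
        have := hY.card_pos
        rw [← h] at hc
        omega
      have hYs : Y ⊂ X ∪ Y := by
        rw [Finset.ssubset_iff_subset_ne]
        refine ⟨subset_union_right, fun h => ?_⟩
        have := hX.card_pos
        rw [← h] at hc
        omega
      rw [omega_join X Y hadj]
      by_cases hpe : Even p
      swap
      · rw [hp.omega_odd (Nat.not_even_iff_odd.1 hpe)]; simp
      by_cases hqe : Even q
      swap
      · rw [hq.omega_odd (Nat.not_even_iff_odd.1 hqe)]; simp
      obtain ⟨p', rfl⟩ := hpe
      obtain ⟨q', rfl⟩ := hqe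
      rw [← two_mul] at hp hq
      have h1 := ih X hXs p' hp (by
        intro m Q hm hQ hQirr hQs
        refine h m Q hm ⟨hQ.1.trans subset_union_left, ?_⟩ hQirr hQs
        intro x hx y hy hyQ
        rw [mem_union] at hy
        rcases hy with hy | hy
        · exact hQ.2 x hx y hy hyQ
        · exact hadj x (hQ.1 hx) y hy)
      have h2 := ih Y hYs q' hq (by
        intro m Q hm hQ hQirr hQs
        refine h m Q hm ⟨hQ.1.trans subset_union_right, ?_⟩ hQirr hQs
        intro x hx y hy hyQ
        rw [mem_union] at hy
        rcases hy with hy | hy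
        · exact (hadj y hy x (hQ.1 hx)).symm
        · exact hQ.2 x hx y hy hyQ)
      obtain rfl : n = p' + q' := by omega
      rw [pow_add]
      have := mul_nonneg h1 h2
      calc (0 : ℚ) ≤ (-1) ^ p' * omega G X * ((-1) ^ q' * omega G Y) := this
        _ = (-1) ^ p' * (-1) ^ q' * (omega G X * omega G Y) := by ring

/-- few vertices -/
theorem nonneg_of_card_le [DecidableEq V] (n : ℕ) (A : Finset V) (hA : IsFlagSphere G (2 * n) A)
    (hcard : A.card ≤ 5 * n + 3) : 0 ≤ (-1) ^ n * omega G A := by
  by_cases h0 : omega G A = 0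
  · rw [h0]; simp
  · apply nonneg_of_factors n A hA
    intro m Q hm hfac _ hQ
    obtain ⟨h1, h2⟩ := hfac.index hA hQ
    have h3 : omega G A = omega G Q * omega G (A \ Q) := by
      rw [← omega_join _ _ hfac.adj_sdiff, hfac.union_sdiff]
    rw [h3] at h0
    have h4 := five_mul_le h2 (right_ne_zero_of_mul h0)
    have h5 : (A \ Q).card = A.card - Q.card := card_sdiff_of_subset hfac.1
    have h6 := card_le_card hfac.1
    left
    omega

end Few

end Pool.Agent.H13
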