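import Pool.Agent.H13.FlagStruct

namespace Pool.Agent.H13

open Finset

section Main

variable {V : Type*} {G : SimpleGraph V}

/-- the recursion at a vertex -/
theorem omega_recursion [DecidableEq V] {n : ℕ} {A : Finset V} (hA : IsFlagSphere G (2 * n) A)
    {v : V} (hv : v ∈ A) :
    omega G A = - ∑ ρ ∈ (simplicesIn G (farIn G A v)).erase ∅,
      (1 / 2 : ℚ) ^ ρ.card * omega G (linkOf G A ρ) := by
  have h1 := omega_sdiff (G := G) A (farIn G A v) (farIn_subset A v)
  rw [sdiff_farIn A hv, omega_eq_chi, chi_cone, ← omega_eq_chi] at h1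
  have h2 : omega G (linkIn G A v) = 0 := by
    obtain ⟨m, hm⟩ : ∃ m, 2 * n = m + 1 := ⟨2 * n - 1, by have := hA.pos ⟨v, hv⟩; omega⟩
    rw [hm] at hA
    exact (hA.link_vertex hv).omega_odd (by rw [Nat.odd_iff]; omega)
  rw [h2, mul_zero] at h1
  rw [← Finset.add_sum_erase _ _ (empty_mem_simplicesIn (farIn G A v))] at h1
  rw [card_empty, pow_zero, one_mul, linkOf_empty] at h1
  linarith

theorem simplicesIn_mono {A B : Finset V} (h : A ⊆ B) {s : Finset V} (hs : s ∈ simplicesIn G A) :
    s ∈ simplicesIn G B := by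
  rw [mem_simplicesIn] at hs ⊢
  exact ⟨hs.1.trans h, hs.2⟩

theorem simplicesIn_subset {A : Finset V} {s t : Finset V} (hs : s ∈ simplicesIn G A)
    (ht : t ⊆ s) : t ∈ simplicesIn G A := by
  rw [mem_simplicesIn] at hs ⊢
  exact ⟨ht.trans hs.1, hs.2.subset (by exact_mod_cast ht)⟩

/-- the recursion when only edges contribute -/
theorem kappa_edges [DecidableEq V] {n : ℕ} {A : Finset V} (hA : IsFlagSphere G (2 * (n + 1)) A)
    {v : V} (hv : v ∈ A) (h4 : ∀ s ∈ simplicesIn G (farIn G A v), s.card ≠ 4) :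
    (-1) ^ (n + 1) * omega G A = ∑ e ∈ (simplicesIn G (farIn G A v)).filter (fun s => s.card = 2),
      (1 / 4 : ℚ) * ((-1) ^ n * omega G (linkOf G A e)) := by
  rw [omega_recursion hA hv, Finset.sum_filter, ← Finset.add_sum_erase _ _
    (empty_mem_simplicesIn (farIn G A v)), card_empty, if_neg (by norm_num), zero_add,
    ← Finset.sum_neg_distrib, Finset.mul_sum]
  apply Finset.sum_congr rfl
  intro s hs
  rw [mem_erase] at hs
  have hsA := simplicesIn_mono (farIn_subset A v) hs.2
  have hlt : s.card < 4 := by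
    by_contra hcon
    obtain ⟨t, ht, htc⟩ := Finset.exists_subset_card_eq (show 4 ≤ s.card by omega)
    exact h4 t (simplicesIn_subset hs.2 ht) htc
  have hpos : 0 < s.card := by
    rw [card_pos]; exact Finset.nonempty_iff_ne_empty.2 hs.1
  by_cases h2 : s.card = 2
  · rw [if_pos h2, h2, pow_succ]
    ring
  · rw [if_neg h2]
    obtain ⟨h5, h6⟩ := hA.link hsA
    have : omega G (linkOf G A s) = 0 := h6.omega_odd (by rw [Nat.odd_iff]; omega)
    rw [this]; simp

/-- Theorem C -/
theorem nonneg_of_local [DecidableEq V] (n : ℕ) (A : Finset V) (hA : IsFlagSphere G (2 * n) A)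
    (h : ∀ τ ∈ simplicesIn G A, Even τ.card → τ.card < 2 * n →
      0 ≤ (-1) ^ ((2 * n - τ.card) / 2) * omega G (linkOf G A τ) ∨
      ∃ v ∈ linkOf G A τ, ∀ s ∈ simplicesIn G (farIn G (linkOf G A τ) v), s.card ≠ 4) :
    0 ≤ (-1) ^ n * omega G A := by
  induction n generalizing A with
  | zero =>
    have : A = ∅ := hA.eq_empty
    subst this
    rw [omega_empty]; norm_num
  | succ n ih =>
    rcases h ∅ (empty_mem_simplicesIn A) (by simp) (by simp) with h1 | ⟨v, hv, h4⟩
    · rw [linkOf_empty, card_empty] at h1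
      have : (2 * (n + 1) - 0) / 2 = n + 1 := by omega
      rw [this] at h1
      exact h1
    · rw [linkOf_empty] at hv h4
      rw [kappa_edges hA hv h4]
      apply Finset.sum_nonneg
      intro e he
      rw [mem_filter] at he
      have heA := simplicesIn_mono (farIn_subset A v) he.1
      have h5 := (hA.link heA).2
      rw [he.2, show 2 * (n + 1) - 2 = 2 * n by omega] at h5
      have h6 := ih _ h5 (by
        intro τ hτ hev hlt
        rw [mem_simplicesIn] at hτ
        have hd := disjoint_of_mem_linkOf hτ.1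
        have hcl : e ∪ τ ∈ simplicesIn G A := by
          rw [mem_simplicesIn] at heA ⊢
          refine ⟨union_subset heA.1 (hτ.1.trans (linkOf_subset _ _)), ?_⟩
          intro x hx y hy hxy
          rw [mem_coe, mem_union] at hx hy
          rcases hx with hx | hx
          · rcases hy with hy | hy
            · exact heA.2 hx hy hxy
            · exact (mem_linkOf.1 (hτ.1 hy)).2 x hx
          · rcases hy with hy | hy
            · exact ((mem_linkOf.1 (hτ.1 hx)).2 y hy).symm
            · exact hτ.2 hx hy hxy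
        have hc : (e ∪ τ).card = τ.card + 2 := by
          rw [card_union_of_disjoint hd, he.2]; ring
        have h7 := h (e ∪ τ) hcl (by rw [hc]; exact hev.add (by decide)) (by omega)
        rw [hc, show 2 * (n + 1) - (τ.card + 2) = 2 * n - τ.card by omega, ← linkOf_linkOf] at h7
        exact h7)
      positivity

theorem omega_index_two [DecidableEq V] {B : Finset V} (hB : IsFlagSphere G 2 B) :
    omega G B = 1 - B.card / 4 := by
  have h1 := hB.chi_neg_one
  unfold chi at h1
  have hle : ∀ s ∈ simplicesIn G B, s.card ≤ 2 := fun s hs => (hB.link hs).1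
  have hone : ∑ s ∈ simplicesIn G B, (if s.card = 1 then (1 : ℚ) else 0) = B.card := by
    rw [← Finset.sum_filter, Finset.sum_const, nsmul_eq_mul, mul_one]
    have : (simplicesIn G B).filter (fun s => s.card = 1) = B.image (fun v => ({v} : Finset V)) := by
      ext s
      rw [mem_filter, mem_image, mem_simplicesIn]
      constructor
      · rintro ⟨⟨h2, h3⟩, h4⟩
        obtain ⟨v, rfl⟩ := card_eq_one.1 h4
        exact ⟨v, h2 (by simp), rfl⟩
      · rintro ⟨v, hv, rfl⟩
        simp [hv]
    rw [this, card_image_of_injective _ (by intro a b hab; simpa using hab)]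
  have hzero : ∑ s ∈ simplicesIn G B, (if s = ∅ then (1 : ℚ) else 0) = 1 := by
    rw [Finset.sum_ite_eq' (simplicesIn G B) ∅]
    simp [empty_mem_simplicesIn]
  rw [omega_eq_chi]
  unfold chi
  have hpt : ∀ s ∈ simplicesIn G B, (-1 / 2 : ℚ) ^ s.card = 1 / 4 * (-1) ^ s.card +
      3 / 4 * (if s = ∅ then (1 : ℚ) else 0) - 1 / 4 * (if s.card = 1 then (1 : ℚ) else 0) := by
    intro s hs
    have h2 := hle s hs
    rcases Nat.lt_or_ge s.card 1 with h3 | h3
    · have h4 : s = ∅ := card_eq_zero.1 (by omega)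
      subst h4
      norm_num
    · have hne : s ≠ ∅ := by
        rintro rfl; simp at h3
      rw [if_neg hne]
      rcases Nat.lt_or_ge s.card 2 with h4 | h4
      · have h5 : s.card = 1 := by omega
        rw [h5]; norm_num
      · have h5 : s.card = 2 := by omega
        rw [h5]; norm_num
  rw [Finset.sum_congr rfl hpt, Finset.sum_sub_distrib, Finset.sum_add_distrib, ← Finset.mul_sum,
    ← Finset.mul_sum, ← Finset.mul_sum, h1, hone, hzero]
  ring

theorem five_mul_le [DecidableEq V] {d : ℕ} {A : Finset V} (hA : IsFlagSphere G d A)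
    (hne : omega G A ≠ 0) : 5 * d ≤ 2 * A.card := by
  induction A using Finset.strongInduction generalizing d with
  | H A ih =>
    by_cases hirr : Irr G A
    · rcases Nat.eq_zero_or_pos d with rfl | hd
      · simp
      · have h1 : d ≠ 1 := by
          rintro rfl
          exact hne (hA.omega_odd (by decide))
        have h2 := three_mul_le_of_irr hA hd hirr
        omega
    · unfold Irr at hirr
      push Not at hirr
      obtain ⟨X, Y, hXY, hadj, hX, hY⟩ := hirr
      have hdisj : Disjoint X Y := by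
        rw [Finset.disjoint_left]
        intro x hx hy
        exact G.irrefl (hadj x hx x hy)
      subst hXY
      obtain ⟨p, q, hpq, hp, hq⟩ := hA.factors hadj
      rw [omega_join X Y hadj] at hne
      have hc : (X ∪ Y).card = X.card + Y.card := card_union_of_disjoint hdisj
      have hXs : X ⊂ X ∪ Y := by
        rw [Finset.ssubset_iff_subset_ne]
        refine ⟨subset_union_left, fun h => ?_⟩
        have := hY.card_pos
        rw [← h] at hc
        omega
      have hYs : Y ⊂ X ∪ Y := by
        rw [Finset.ssubset_iff_subset_ne]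
        refine ⟨subset_union_right, fun h => ?_⟩
        have := hX.card_pos
        rw [← h] at hc
        omega
      have h1 := ih X hXs hp (left_ne_zero_of_mul hne)
      have h2 := ih Y hYs hq (right_ne_zero_of_mul hne)
      omega

/-- in an irreducible sphere the link of an edge misses at least five vertices -/
theorem card_link_edge [DecidableEq V] {d : ℕ} {A : Finset V} (hA : IsFlagSphere G d A)
    (hd : 2 ≤ d) (hirr : Irr G A) {e : Finset V} (he : e ∈ simplicesIn G A) (hec : e.card = 2) :
    (linkOf G A e).card + 5 ≤ A.card := by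
  obtain ⟨a, b, hab, rfl⟩ := card_eq_two.1 hec
  rw [mem_simplicesIn] at he
  have haA : a ∈ A := he.1 (by simp)
  have hbA : b ∈ A := he.1 (by simp)
  have hadj : G.Adj a b := he.2 (by simp) (by simp) hab
  obtain ⟨p, hp, hbp⟩ := hA.exists_far_adj haA (mem_linkIn.2 ⟨hbA, hadj⟩)
  have h1 := two_le_far_of_irr hA hd hirr hbA
  have hpb : p ∉ farIn G A b := fun h => (mem_farIn.1 h).2.2 hbp
  have hsub : insert a (insert b (insert p (farIn G A b))) ∪ linkOf G A {a, b} ⊆ A := by
    intro w hw
    rw [mem_union, mem_insert, mem_insert, mem_insert] at hw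
    rcases hw with (rfl | rfl | rfl | hw) | hw
    · exact haA
    · exact hbA
    · exact (mem_farIn.1 hp).1
    · exact (mem_farIn.1 hw).1
    · exact linkOf_subset _ _ hw
  have hdisj : Disjoint (insert a (insert b (insert p (farIn G A b)))) (linkOf G A {a, b}) := by
    rw [Finset.disjoint_left]
    intro w hw hw'
    rw [mem_linkOf] at hw'
    have hwa := hw'.2 a (by simp)
    have hwb := hw'.2 b (by simp)
    rw [mem_insert, mem_insert, mem_insert] at hw
    rcases hw with rfl | rfl | rfl | hw
    · exact G.irrefl hwa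
    · exact G.irrefl hwb
    · exact (mem_farIn.1 hp).2.2 hwa
    · exact (mem_farIn.1 hw).2.2 hwb
  have hcard := card_le_card hsub
  rw [card_union_of_disjoint hdisj] at hcard
  have h2 : b ∉ insert p (farIn G A b) := by
    rw [mem_insert, not_or]
    exact ⟨fun h => by subst h; exact G.irrefl hbp, fun h => (mem_farIn.1 h).2.1 rfl⟩
  have h3 : a ∉ insert b (insert p (farIn G A b)) := by
    rw [mem_insert, mem_insert, not_or, not_or]
    exact ⟨hab, fun h => (mem_farIn.1 hp).2.1 h.symm, fun h => (mem_farIn.1 h).2.2 hadj.symm⟩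
  rw [card_insert_of_notMem h3, card_insert_of_notMem h2, card_insert_of_notMem hpb] at hcard
  omega

/-- The opposite vertex of `x` in the facet `ρ`. -/
theorem exists_opposite [DecidableEq V] {A ρ : Finset V} (hA : IsFlagSphere G 4 A)
    (hρ : ρ ∈ simplicesIn G A) (hc : ρ.card = 4) {x : V} (hx : x ∈ ρ) :
    ∃ x', linkOf G A (ρ.erase x) = {x, x'} ∧ x ≠ x' ∧ ¬ G.Adj x x' := by
  have h1 := hA.link (simplicesIn_subset hρ (erase_subset x ρ))
  have hce : (ρ.erase x).card = 3 := by rw [card_erase_of_mem hx, hc]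
  rw [hce] at h1
  have h2 : IsFlagSphere G 1 (linkOf G A (ρ.erase x)) := h1.2
  have h3 := card_of_index_one h2
  rw [mem_simplicesIn] at hρ
  have hxc : x ∈ linkOf G A (ρ.erase x) := by
    rw [mem_linkOf]
    refine ⟨hρ.1 hx, fun y hy => ?_⟩
    rw [mem_erase] at hy
    exact hρ.2 hy.2 hx hy.1
  obtain ⟨x', hx'⟩ : ∃ x', (linkOf G A (ρ.erase x)).erase x = {x'} := by
    apply card_eq_one.1
    rw [card_erase_of_mem hxc, h3]
  have hmem : x' ∈ (linkOf G A (ρ.erase x)).erase x := by rw [hx']; simp
  rw [mem_erase] at hmem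
  refine ⟨x', ?_, hmem.1.symm, ?_⟩
  · rw [← insert_erase hxc, hx']
  · intro hadj
    have h4 := (h2.link_vertex hxc).eq_empty
    have h5 : x' ∈ linkIn G (linkOf G A (ρ.erase x)) x := mem_linkIn.2 ⟨hmem.2, hadj⟩
    rw [h4] at h5
    simp at h5

/-- a sphere of index four with a facet all of whose edges have degree four is not irreducible -/
theorem not_irr_of_degree_four [DecidableEq V] {A ρ : Finset V} (hA : IsFlagSphere G 4 A)
    (hρ : ρ ∈ simplicesIn G A) (hc : ρ.card = 4)
    (hdeg : ∀ e ⊆ ρ, e.card = 2 → (linkOf G A e).card ≤ 4) : ¬ Irr G A := by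
  intro hirr
  have hρ' := mem_simplicesIn.1 hρ
  have hopp : ∀ x : V, ∃ x', x ∈ ρ → linkOf G A (ρ.erase x) = {x, x'} ∧ x ≠ x' ∧ ¬ G.Adj x x' := by
    intro x
    by_cases hx : x ∈ ρ
    · obtain ⟨x', hx'⟩ := exists_opposite hA hρ hc hx
      exact ⟨x', fun _ => hx'⟩
    · exact ⟨x, fun h => absurd h hx⟩
  choose f hf using hopp
  have hfmem : ∀ x ∈ ρ, f x ∈ linkOf G A (ρ.erase x) := by
    intro x hx
    rw [(hf x hx).1]; simp
  have hfA : ∀ x ∈ ρ, f x ∈ A := fun x hx => (mem_linkOf.1 (hfmem x hx)).1
  have hfadj : ∀ x ∈ ρ, ∀ y ∈ ρ, x ≠ y → G.Adj y (f x) := by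
    intro x hx y hy hxy
    exact (mem_linkOf.1 (hfmem x hx)).2 y (mem_erase.2 ⟨hxy.symm, hy⟩)
  have hfρ : ∀ x ∈ ρ, f x ∉ ρ := by
    intro x hx h
    exact G.irrefl (hfadj x hx (f x) h (hf x hx).2.1)
  have key : ∀ x ∈ ρ, ∀ y ∈ ρ, x ≠ y → linkOf G A ((ρ.erase x).erase y) = {x, y, f x, f y} ∧
      G.Adj (f x) (f y) := by
    intro x hx y hy hxy
    have hyx : y ∈ ρ.erase x := mem_erase.2 ⟨hxy.symm, hy⟩
    have hsub : (ρ.erase x).erase y ⊆ ρ := (erase_subset _ _).trans (erase_subset _ _)
    have hcard : ((ρ.erase x).erase y).card = 2 := by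
      rw [card_erase_of_mem hyx, card_erase_of_mem hx, hc]
    have hB := (hA.link (simplicesIn_subset hρ hsub)).2
    rw [hcard] at hB
    have hB4 := hdeg _ hsub hcard
    have hne1 : x ≠ f x := (hf x hx).2.1
    have hne2 : y ≠ f y := (hf y hy).2.1
    have hne3 : x ≠ f y := fun h => hfρ y hy (h ▸ hx)
    have hne4 : y ≠ f x := fun h => hfρ x hx (h ▸ hy)
    have hne5 : f x ≠ f y := by
      intro h
      have h1 := hfadj x hx y hy hxy
      rw [h] at h1
      exact (hf y hy).2.2 h1
    have hsubB : ({x, y, f x, f y} : Finset V) ⊆ linkOf G A ((ρ.erase x).erase y) := by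
      intro w hw
      have hmem : ∀ z ∈ (ρ.erase x).erase y, z ∈ ρ ∧ z ≠ x ∧ z ≠ y := by
        intro z hz
        rw [mem_erase, mem_erase] at hz
        exact ⟨hz.2.2, hz.2.1, hz.1⟩
      rw [mem_insert, mem_insert, mem_insert, mem_singleton] at hw
      rw [mem_linkOf]
      rcases hw with rfl | rfl | rfl | rfl
      · exact ⟨hρ'.1 hx, fun z hz => hρ'.2 (hmem z hz).1 hx (hmem z hz).2.1⟩
      · exact ⟨hρ'.1 hy, fun z hz => hρ'.2 (hmem z hz).1 hy (hmem z hz).2.2⟩
      · exact ⟨hfA x hx, fun z hz => hfadj x hx z (hmem z hz).1 (hmem z hz).2.1.symm⟩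
      · exact ⟨hfA y hy, fun z hz => hfadj y hy z (hmem z hz).1 (hmem z hz).2.2.symm⟩
    have hcard4 : ({x, y, f x, f y} : Finset V).card = 4 := by
      rw [card_insert_of_notMem, card_insert_of_notMem, card_insert_of_notMem, card_singleton]
      · simpa using hne5
      · simp only [mem_insert, mem_singleton, not_or]; exact ⟨hne4, hne2⟩
      · simp only [mem_insert, mem_singleton, not_or]; exact ⟨hxy, hne1, hne3⟩
    have heq : ({x, y, f x, f y} : Finset V) = linkOf G A ((ρ.erase x).erase y) :=
      Finset.eq_of_subset_of_card_le hsubB (by rw [hcard4]; exact hB4)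
    refine ⟨heq.symm, ?_⟩
    have hfyB : f y ∈ linkOf G A ((ρ.erase x).erase y) := by rw [← heq]; simp
    have hL : IsFlagSphere G 1 (linkIn G (linkOf G A ((ρ.erase x).erase y)) (f y)) :=
      IsFlagSphere.link_vertex (d := 1) hB hfyB
    have hLc := card_of_index_one hL
    by_contra hnadj
    have hLs : linkIn G (linkOf G A ((ρ.erase x).erase y)) (f y) ⊆ {x} := by
      intro w hw
      rw [mem_linkIn, ← heq, mem_insert, mem_insert, mem_insert, mem_singleton] at hw
      rcases hw.1 with rfl | rfl | rfl | rfl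
      · simp
      · exact absurd hw.2.symm (hf _ hy).2.2
      · exact absurd hw.2.symm hnadj
      · exact absurd hw.2 G.irrefl
    have := card_le_card hLs
    rw [hLc, card_singleton] at this
    omega
  obtain ⟨a, ha⟩ : ρ.Nonempty := by rw [← card_pos, hc]; norm_num
  have hcea : (ρ.erase a).card = 3 := by rw [card_erase_of_mem ha, hc]
  obtain ⟨b, hb⟩ : (ρ.erase a).Nonempty := by rw [← card_pos, hcea]; norm_num
  have hceb : ((ρ.erase a).erase b).card = 2 := by rw [card_erase_of_mem hb, hcea]
  obtain ⟨c, d, hcd, hcde⟩ := card_eq_two.1 hceb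
  have hbρ : b ∈ ρ := mem_of_mem_erase hb
  have hab : a ≠ b := (ne_of_mem_erase hb).symm
  have hcm : c ∈ (ρ.erase a).erase b := by rw [hcde]; simp
  have hdm : d ∈ (ρ.erase a).erase b := by rw [hcde]; simp
  have hcρ : c ∈ ρ := mem_of_mem_erase (mem_of_mem_erase hcm)
  have hdρ : d ∈ ρ := mem_of_mem_erase (mem_of_mem_erase hdm)
  have hbc : b ≠ c := (ne_of_mem_erase hcm).symm
  have hbd : b ≠ d := (ne_of_mem_erase hdm).symm
  have hac : a ≠ c := (ne_of_mem_erase (mem_of_mem_erase hcm)).symm
  have had : a ≠ d := (ne_of_mem_erase (mem_of_mem_erase hdm)).symm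
  have hρeq : ρ = {a, b, c, d} := by
    rw [← insert_erase ha, ← insert_erase hb, hcde]
  have hcdab : (ρ.erase c).erase d = {a, b} := by
    rw [hρeq]
    ext w
    simp only [mem_erase, mem_insert, mem_singleton]
    constructor
    · rintro ⟨h1, h2, h3 | h3 | h3 | h3⟩
      · exact Or.inl h3
      · exact Or.inr h3
      · exact absurd h3 h2
      · exact absurd h3 h1
    · rintro (h | h)
      · subst h; exact ⟨had, hac, Or.inl rfl⟩
      · subst h; exact ⟨hbd, hbc, Or.inr (Or.inl rfl)⟩
  have hlkab := (key c hcρ d hdρ hcd).1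
  rw [hcdab] at hlkab
  have hopsp : ∀ x ∈ ρ, IsFlagSphere G 1 {x, f x} := by
    intro x hx
    have h1 := hA.link (simplicesIn_subset hρ (erase_subset x ρ))
    have hce : (ρ.erase x).card = 3 := by rw [card_erase_of_mem hx, hc]
    rw [hce, (hf x hx).1] at h1
    exact h1.2
  have hNa : IsFlagSphere G 3 (linkIn G A a) := IsFlagSphere.link_vertex (d := 3) hA (hρ'.1 ha)
  have hY : IsFlagSphere G 2 (linkOf G A {a, b}) := by
    have h1 := hA.link (s := {a, b}) (simplicesIn_subset hρ (by
      intro w hw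
      rw [mem_insert, mem_singleton] at hw
      rcases hw with rfl | rfl
      · exact ha
      · exact hbρ))
    rw [card_pair hab] at h1
    exact h1.2
  have hadj1 : ∀ x ∈ ({b, f b} : Finset V), ∀ y ∈ linkOf G A {a, b}, G.Adj x y := by
    intro x hx y hy
    rw [mem_insert, mem_singleton] at hx
    rcases hx with rfl | rfl
    · exact (mem_linkOf.1 hy).2 x (by simp)
    · rw [hlkab, mem_insert, mem_insert, mem_insert, mem_singleton] at hy
      rcases hy with rfl | rfl | rfl | rfl
      · exact (hfadj b hbρ y hcρ hbc).symm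
      · exact (hfadj b hbρ y hdρ hbd).symm
      · exact (key b hbρ c hcρ hbc).2
      · exact (key b hbρ d hdρ hbd).2
  have hN := hNa.eq_join (hopsp b hbρ) hY (by norm_num) (by
      intro w hw
      rw [mem_insert, mem_singleton] at hw
      rw [mem_linkIn]
      rcases hw with rfl | rfl
      · exact ⟨hρ'.1 hbρ, hρ'.2 ha hbρ hab⟩
      · exact ⟨hfA b hbρ, hfadj b hbρ a ha hab.symm⟩) (by
      intro w hw
      rw [mem_linkOf] at hw
      rw [mem_linkIn]
      exact ⟨hw.1, hw.2 a (by simp)⟩) hadj1
  have hadj2 : ∀ x ∈ ({a, f a} : Finset V), ∀ y ∈ linkIn G A a, G.Adj x y := by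
    intro x hx y hy
    rw [mem_insert, mem_singleton] at hx
    rcases hx with rfl | rfl
    · exact (mem_linkIn.1 hy).2
    · rw [hN, hlkab, mem_union, mem_insert, mem_insert, mem_insert, mem_insert, mem_singleton,
        mem_singleton] at hy
      rcases hy with (rfl | rfl) | (rfl | rfl | rfl | rfl)
      · exact (hfadj a ha y hbρ hab).symm
      · exact (key a ha b hbρ hab).2
      · exact (hfadj a ha y hcρ hac).symm
      · exact (hfadj a ha y hdρ had).symm
      · exact (key a ha c hcρ hac).2
      · exact (key a ha d hdρ had).2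
  have hfin := hA.eq_join (hopsp a ha) hNa (by norm_num) (by
      intro w hw
      rw [mem_insert, mem_singleton] at hw
      rcases hw with rfl | rfl
      · exact hρ'.1 ha
      · exact hfA a ha) (linkIn_subset _ _) hadj2
  rcases hirr _ _ hfin.symm hadj2 with h | h
  · simp at h
  · have hb' : b ∈ linkIn G A a := mem_linkIn.2 ⟨hρ'.1 hbρ, hρ'.2 ha hbρ hab⟩
    rw [h] at hb'
    simp at hb'

end Main

end Pool.Agent.H13
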