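import Pool.Agent.H13.FlagCore

namespace Pool.Agent.H13

open Finset

section Struct

variable {V : Type*} {G : SimpleGraph V}

theorem mem_farIn {A : Finset V} {v w : V} : w ∈ farIn G A v ↔ w ∈ A ∧ w ≠ v ∧ ¬ G.Adj v w := by
  classical
  unfold farIn
  simp

theorem farIn_subset (A : Finset V) (v : V) : farIn G A v ⊆ A := fun _ h => (mem_farIn.1 h).1

/-- generating function of the simplices -/
noncomputable def chi (G : SimpleGraph V) (t : ℚ) (A : Finset V) : ℚ :=
  ∑ s ∈ simplicesIn G A, t ^ s.card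

theorem omega_eq_chi (A : Finset V) : omega G A = chi G (-1 / 2) A := by
  unfold omega chi
  apply Finset.sum_congr rfl
  intro s _
  rw [div_pow]

theorem simplicesIn_empty : simplicesIn G (∅ : Finset V) = {∅} := by
  ext s
  rw [mem_simplicesIn, subset_empty, mem_singleton]
  constructor
  · exact fun h => h.1
  · rintro rfl; simp

theorem chi_empty (t : ℚ) : chi G t (∅ : Finset V) = 1 := by
  unfold chi
  rw [simplicesIn_empty]
  simp

theorem empty_mem_simplicesIn (A : Finset V) : ∅ ∈ simplicesIn G A := by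
  rw [mem_simplicesIn]; simp

theorem linkIn_insert_self [DecidableEq V] (A : Finset V) (v : V) :
    linkIn G (insert v A) v = linkIn G A v := by
  ext w
  rw [mem_linkIn, mem_linkIn, mem_insert]
  constructor
  · rintro ⟨h1 | h1, h2⟩
    · subst h1; exact absurd h2 G.irrefl
    · exact ⟨h1, h2⟩
  · rintro ⟨h1, h2⟩; exact ⟨Or.inr h1, h2⟩

theorem chi_insert [DecidableEq V] (t : ℚ) (A : Finset V) {v : V} (hv : v ∉ A) :
    chi G t (insert v A) = chi G t A + t * chi G t (linkIn G A v) := by
  unfold chi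
  have h1 : simplicesIn G (insert v A) = simplicesIn G A ∪
      (simplicesIn G (linkIn G A v)).image (insert v) := by
    ext s
    rw [mem_union, mem_image, mem_simplicesIn, mem_simplicesIn]
    constructor
    · rintro ⟨h1, h2⟩
      by_cases hvs : v ∈ s
      · right
        refine ⟨s.erase v, ?_, insert_erase hvs⟩
        rw [mem_simplicesIn]
        refine ⟨?_, h2.subset (by exact_mod_cast erase_subset v s)⟩
        intro w hw
        rw [mem_erase] at hw
        rw [mem_linkIn]
        have hw' := h1 hw.2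
        rw [mem_insert] at hw'
        exact ⟨hw'.resolve_left hw.1, h2 hvs hw.2 (Ne.symm hw.1)⟩
      · left
        refine ⟨fun w hw => ?_, h2⟩
        have hw' := h1 hw
        rw [mem_insert] at hw'
        rcases hw' with rfl | hw'
        · exact absurd hw hvs
        · exact hw'
    · rintro (⟨h1, h2⟩ | ⟨r, hr, rfl⟩)
      · exact ⟨h1.trans (subset_insert v A), h2⟩
      · rw [mem_simplicesIn] at hr
        refine ⟨insert_subset_insert v (hr.1.trans (linkIn_subset _ _)), ?_⟩
        rw [coe_insert, SimpleGraph.isClique_insert]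
        exact ⟨hr.2, fun b hb _ => (mem_linkIn.1 (hr.1 hb)).2⟩
  have hnot : ∀ r ∈ simplicesIn G (linkIn G A v), v ∉ r := by
    intro r hr hvr
    rw [mem_simplicesIn] at hr
    exact hv ((linkIn_subset _ _) (hr.1 hvr))
  rw [h1, Finset.sum_union, Finset.sum_image, Finset.mul_sum]
  · congr 1
    apply Finset.sum_congr rfl
    intro r hr
    rw [card_insert_of_notMem (hnot r hr), pow_succ]
    ring
  · intro r hr r' hr' h
    have h2 := congrArg (fun s => s.erase v) h
    simpa [erase_insert (hnot r hr), erase_insert (hnot r' hr')] using h2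
  · rw [Finset.disjoint_left]
    intro s hs hs'
    rw [mem_image] at hs'
    obtain ⟨r, _, rfl⟩ := hs'
    rw [mem_simplicesIn] at hs
    exact hv (hs.1 (mem_insert_self v r))

/-- a cone -/
theorem chi_cone [DecidableEq V] (t : ℚ) (A : Finset V) (v : V) :
    chi G t (insert v (linkIn G A v)) = (1 + t) * chi G t (linkIn G A v) := by
  have hv : v ∉ linkIn G A v := fun h => G.irrefl (mem_linkIn.1 h).2
  rw [chi_insert t _ hv]
  have : linkIn G (linkIn G A v) v = linkIn G A v := by
    ext w
    rw [mem_linkIn, mem_linkIn]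
    tauto
  rw [this]
  ring

/-- join of two complexes -/
theorem chi_join [DecidableEq V] (t : ℚ) (X Y : Finset V)
    (h : ∀ x ∈ X, ∀ y ∈ Y, G.Adj x y) :
    chi G t (X ∪ Y) = chi G t X * chi G t Y := by
  induction Y using Finset.strongInduction with
  | H Y ih =>
    rcases Y.eq_empty_or_nonempty with rfl | ⟨v, hv⟩
    · rw [union_empty, chi_empty, mul_one]
    · have h1 : insert v (Y.erase v) = Y := insert_erase hv
      have hvX : v ∉ X := fun hx => G.irrefl (h v hx v hv)
      have h2 : X ∪ Y = insert v (X ∪ Y.erase v) := by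
        rw [← union_insert, h1]
      have hv2 : v ∉ X ∪ Y.erase v := by
        rw [mem_union, not_or]
        exact ⟨hvX, notMem_erase v Y⟩
      have h3 : linkIn G (X ∪ Y.erase v) v = X ∪ linkIn G (Y.erase v) v := by
        ext w
        rw [mem_linkIn, mem_union, mem_union, mem_linkIn]
        constructor
        · rintro ⟨h4 | h4, h5⟩
          · exact Or.inl h4
          · exact Or.inr ⟨h4, h5⟩
        · rintro (h4 | h4)
          · exact ⟨Or.inl h4, (h w h4 v hv).symm⟩
          · exact ⟨Or.inr h4.1, h4.2⟩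
      have hlt : Y.erase v ⊂ Y := erase_ssubset hv
      have hlt2 : linkIn G (Y.erase v) v ⊂ Y := (linkIn_subset _ _).trans_ssubset hlt
      rw [h2, chi_insert t _ hv2, h3, ih _ hlt (fun x hx y hy => h x hx y (hlt.1 hy)),
        ih _ hlt2 (fun x hx y hy => h x hx y (hlt2.1 hy))]
      conv_rhs => rw [← h1, chi_insert t _ (notMem_erase v Y)]
      ring

theorem IsFlagSphere.chi_neg_one {d : ℕ} {A : Finset V} (h : IsFlagSphere G d A) :
    chi G (-1) A = (-1) ^ d := by
  have h5 := h.euler
  have := congrArg (Int.cast : ℤ → ℚ) h5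
  push_cast at this
  exact this

theorem IsFlagSphere.nonempty {d : ℕ} {A : Finset V} (h : IsFlagSphere G (d + 1) A) :
    A.Nonempty := h.1

theorem IsFlagSphere.link_vertex {d : ℕ} {A : Finset V} (h : IsFlagSphere G (d + 1) A) {v : V}
    (hv : v ∈ A) : IsFlagSphere G d (linkIn G A v) := h.2.1 v hv

theorem IsFlagSphere.eq_empty {A : Finset V} (h : IsFlagSphere G 0 A) : A = ∅ := h

theorem IsFlagSphere.pos {d : ℕ} {A : Finset V} (h : IsFlagSphere G d A) (hA : A.Nonempty) :
    1 ≤ d := by
  rcases d with _ | d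
  · rw [h.eq_empty] at hA; simp at hA
  · omega

theorem IsFlagSphere.index_eq_zero {d : ℕ} (h : IsFlagSphere G d (∅ : Finset V)) : d = 0 := by
  rcases d with _ | d
  · rfl
  · exact absurd h.nonempty (by simp)

theorem split_vertex [DecidableEq V] (A : Finset V) {v : V} (hv : v ∈ A) :
    A = insert v (linkIn G A v) ∪ farIn G A v := by
  ext w
  rw [mem_union, mem_insert, mem_linkIn, mem_farIn]
  constructor
  · intro hw
    by_cases h1 : w = v
    · exact Or.inl (Or.inl h1)
    · by_cases h2 : G.Adj v w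
      · exact Or.inl (Or.inr ⟨hw, h2⟩)
      · exact Or.inr ⟨hw, h1, h2⟩
  · rintro ((rfl | h) | h)
    · exact hv
    · exact h.1
    · exact h.1

theorem sdiff_farIn [DecidableEq V] (A : Finset V) {v : V} (hv : v ∈ A) :
    A \ farIn G A v = insert v (linkIn G A v) := by
  ext w
  rw [mem_sdiff, mem_insert, mem_linkIn, mem_farIn]
  constructor
  · rintro ⟨h1, h2⟩
    by_cases h3 : w = v
    · exact Or.inl h3
    · right
      refine ⟨h1, ?_⟩
      by_contra h4
      exact h2 ⟨h1, h3, h4⟩
  · rintro (rfl | h)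
    · exact ⟨hv, fun h => h.2.1 rfl⟩
    · exact ⟨h.1, fun h' => h'.2.2 h.2⟩

theorem card_split (A : Finset V) {v : V} (hv : v ∈ A) :
    A.card = 1 + (linkIn G A v).card + (farIn G A v).card := by
  classical
  conv_lhs => rw [split_vertex (G := G) A hv]
  rw [card_union_of_disjoint, card_insert_of_notMem]
  · ring
  · exact fun h => G.irrefl (mem_linkIn.1 h).2
  · rw [Finset.disjoint_left]
    intro w hw hw'
    rw [mem_insert, mem_linkIn] at hw
    rw [mem_farIn] at hw'
    rcases hw with h | h
    · exact hw'.2.1 h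
    · exact hw'.2.2 h.2

/-- L2: no vertex is adjacent to all the others -/
theorem IsFlagSphere.farIn_nonempty {d : ℕ} {A : Finset V} (h : IsFlagSphere G d A) {v : V}
    (hv : v ∈ A) : (farIn G A v).Nonempty := by
  classical
  rw [Finset.nonempty_iff_ne_empty]
  intro he
  have h1 := split_vertex (G := G) A hv
  rw [he, union_empty] at h1
  have h2 := h.chi_neg_one
  rw [h1, chi_cone] at h2
  have : ((-1 : ℚ)) ^ d ≠ 0 := by positivity
  apply this
  rw [← h2]; ring

/-- L3 -/
theorem IsFlagSphere.exists_far_adj {d : ℕ} {A : Finset V} (h : IsFlagSphere G d A) {v x : V}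
    (hv : v ∈ A) (hx : x ∈ linkIn G A v) : ∃ u ∈ farIn G A v, G.Adj x u := by
  rcases d with _ | d
  · rw [h.eq_empty] at hv; simp at hv
  · rw [mem_linkIn] at hx
    have h1 := h.link_vertex hx.1
    have h2 : v ∈ linkIn G A x := by
      rw [mem_linkIn]; exact ⟨hv, hx.2.symm⟩
    obtain ⟨u, hu⟩ := h1.farIn_nonempty h2
    rw [mem_farIn, mem_linkIn] at hu
    exact ⟨u, mem_farIn.2 ⟨hu.1.1, hu.2⟩, hu.1.2⟩

theorem IsFlagSphere.two_mul_le {d : ℕ} {A : Finset V} (h : IsFlagSphere G d A) :
    2 * d ≤ A.card := by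
  induction d generalizing A with
  | zero => simp
  | succ d ih =>
    obtain ⟨v, hv⟩ := h.nonempty
    have h1 := ih (h.link_vertex hv)
    have h2 := card_split (G := G) A hv
    have h3 := (h.farIn_nonempty hv).card_pos
    omega

theorem eq_of_closed {A B : Finset V} (hconn : (G.induce (A : Set V)).Connected) (hBA : B ⊆ A)
    (hB : B.Nonempty) (hcl : ∀ b ∈ B, ∀ a ∈ A, G.Adj b a → a ∈ B) : B = A := by
  classical
  apply Finset.Subset.antisymm hBA
  intro a ha
  obtain ⟨b, hb⟩ := hB
  have h1 : (G.induce (A : Set V)).Reachable ⟨b, hBA hb⟩ ⟨a, ha⟩ := hconn.preconnected _ _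
  obtain ⟨p⟩ := h1
  have key : ∀ (x y : (A : Set V)) (q : (G.induce (A : Set V)).Walk x y), (x : V) ∈ B → (y : V) ∈ B := by
    intro x y q
    induction q with
    | nil => exact id
    | cons hadj _ ih =>
      intro hx
      exact ih (hcl _ hx _ (by simp) hadj)
  exact key _ _ p hb

theorem IsFlagSphere.connected {d : ℕ} {A : Finset V} (h : IsFlagSphere G d A) (hd : 2 ≤ d) :
    (G.induce (A : Set V)).Connected := by
  rcases d with _ | d
  · omega
  · exact h.2.2.2 (by omega)

theorem card_of_index_one {A : Finset V} (h : IsFlagSphere G 1 A) : A.card = 2 := by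
  classical
  have h1 := h.euler
  have h2 : simplicesIn G A = insert ∅ (A.image (fun v => ({v} : Finset V))) := by
    ext s
    rw [mem_insert, mem_image]
    constructor
    · intro hs
      have h3 := (h.link hs).1
      rcases Nat.lt_or_ge s.card 1 with h4 | h4
      · left
        rw [← card_eq_zero]; omega
      · right
        obtain ⟨v, hv⟩ := card_eq_one.1 (le_antisymm h3 h4)
        rw [mem_simplicesIn] at hs
        refine ⟨v, hs.1 (by rw [hv]; simp), hv.symm⟩
    · rintro (rfl | ⟨v, hv, rfl⟩)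
      · exact empty_mem_simplicesIn A
      · rw [mem_simplicesIn]
        simp [hv]
  rw [h2, Finset.sum_insert (by simp), Finset.sum_image (by intro a _ b _ hab; simpa using hab)] at h1
  simp at h1
  omega

/-- L1 -/
theorem IsFlagSphere.eq_of_subset {d : ℕ} {A B : Finset V} (hA : IsFlagSphere G d A)
    (hB : IsFlagSphere G d B) (hBA : B ⊆ A) : B = A := by
  induction d generalizing A B with
  | zero => rw [hA.eq_empty, hB.eq_empty]
  | succ d ih =>
    rcases Nat.eq_zero_or_pos d with rfl | hd
    · exact Finset.eq_of_subset_of_card_le hBA (by rw [card_of_index_one hA, card_of_index_one hB])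
    · apply eq_of_closed (hA.connected (by omega)) hBA hB.nonempty
      intro b hb a ha hab
      have h1 := ih (hA.link_vertex (hBA hb)) (hB.link_vertex hb) (by
        intro w hw
        rw [mem_linkIn] at hw ⊢
        exact ⟨hBA hw.1, hw.2⟩)
      have h2 : a ∈ linkIn G A b := mem_linkIn.2 ⟨ha, hab⟩
      rw [← h1] at h2
      exact (mem_linkIn.1 h2).1

/-- J: a sphere which contains the join of two spheres with the right indices is the join -/
theorem IsFlagSphere.eq_join [DecidableEq V] {d p q : ℕ} {A X Y : Finset V}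
    (hA : IsFlagSphere G d A)
    (hX : IsFlagSphere G p X) (hY : IsFlagSphere G q Y) (hpq : p + q = d) (hXA : X ⊆ A)
    (hYA : Y ⊆ A) (hadj : ∀ x ∈ X, ∀ y ∈ Y, G.Adj x y) : A = X ∪ Y := by
  induction d generalizing A X Y p q with
  | zero =>
    obtain rfl : p = 0 := by omega
    obtain rfl : q = 0 := by omega
    rw [hA.eq_empty, hX.eq_empty, hY.eq_empty]; simp
  | succ d ih =>
    rcases p with _ | p
    · rw [hX.eq_empty, empty_union]
      have : q = d + 1 := by omega
      subst this
      exact (hA.eq_of_subset hY hYA).symm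
    rcases q with _ | q
    · rw [hY.eq_empty, union_empty]
      have : p + 1 = d + 1 := by omega
      rw [this] at hX
      exact (hA.eq_of_subset hX hXA).symm
    have key : ∀ b ∈ X ∪ Y, ∀ a ∈ A, G.Adj b a → a ∈ X ∪ Y := by
      intro b hb a ha hab
      rw [mem_union] at hb
      rcases hb with hb | hb
      · have h1 := ih (hA.link_vertex (hXA hb)) (hX.link_vertex hb) hY (by omega)
          (by
            intro w hw
            rw [mem_linkIn] at hw ⊢
            exact ⟨hXA hw.1, hw.2⟩)
          (by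
            intro w hw
            rw [mem_linkIn]
            exact ⟨hYA hw, hadj b hb w hw⟩)
          (by
            intro x hx y hy
            exact hadj x (linkIn_subset _ _ hx) y hy)
        have h2 : a ∈ linkIn G A b := mem_linkIn.2 ⟨ha, hab⟩
        rw [h1, mem_union] at h2
        rw [mem_union]
        rcases h2 with h2 | h2
        · exact Or.inl (linkIn_subset _ _ h2)
        · exact Or.inr h2
      · have h1 := ih (hA.link_vertex (hYA hb)) hX (hY.link_vertex hb) (by omega)
          (by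
            intro w hw
            rw [mem_linkIn]
            exact ⟨hXA hw, (hadj w hw b hb).symm⟩)
          (by
            intro w hw
            rw [mem_linkIn] at hw ⊢
            exact ⟨hYA hw.1, hw.2⟩)
          (by
            intro x hx y hy
            exact hadj x hx y (linkIn_subset _ _ hy))
        have h2 : a ∈ linkIn G A b := mem_linkIn.2 ⟨ha, hab⟩
        rw [h1, mem_union] at h2
        rw [mem_union]
        rcases h2 with h2 | h2
        · exact Or.inl h2
        · exact Or.inr (linkIn_subset _ _ h2)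
    exact (eq_of_closed (hA.connected (by omega)) (union_subset hXA hYA)
      (hX.nonempty.mono subset_union_left) key).symm

/-- a maximal simplex -/
theorem exists_maximal_simplex (Y : Finset V) :
    ∃ s ∈ simplicesIn G Y, ∀ y ∈ Y, ∃ x ∈ s, ¬ G.Adj x y := by
  classical
  obtain ⟨s, hs, hmax⟩ := Finset.exists_max_image (simplicesIn G Y) (fun s => s.card)
    ⟨∅, empty_mem_simplicesIn Y⟩
  refine ⟨s, hs, fun y hy => ?_⟩
  by_contra hcon
  push Not at hcon
  have hys : y ∉ s := fun h => G.irrefl (hcon y h)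
  have h1 : insert y s ∈ simplicesIn G Y := by
    rw [mem_simplicesIn] at hs ⊢
    refine ⟨insert_subset hy hs.1, ?_⟩
    rw [coe_insert, SimpleGraph.isClique_insert]
    exact ⟨hs.2, fun b hb _ => (hcon b hb).symm⟩
  have h2 := hmax _ h1
  simp only [card_insert_of_notMem hys] at h2
  omega

/-- the factors of a join are spheres -/
theorem IsFlagSphere.factors [DecidableEq V] {d : ℕ} {X Y : Finset V}
    (h : IsFlagSphere G d (X ∪ Y)) (hadj : ∀ x ∈ X, ∀ y ∈ Y, G.Adj x y) :
    ∃ p q, p + q = d ∧ IsFlagSphere G p X ∧ IsFlagSphere G q Y := by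
  obtain ⟨ρ, hρ, hρm⟩ := exists_maximal_simplex (G := G) Y
  obtain ⟨σ, hσ, hσm⟩ := exists_maximal_simplex (G := G) X
  rw [mem_simplicesIn] at hρ hσ
  have h1 : linkOf G (X ∪ Y) ρ = X := by
    ext w
    rw [mem_linkOf, mem_union]
    constructor
    · rintro ⟨h1 | h1, h2⟩
      · exact h1
      · obtain ⟨x, hx, hx'⟩ := hρm w h1
        exact absurd (h2 x hx) hx'
    · intro hw
      exact ⟨Or.inl hw, fun x hx => (hadj w hw x (hρ.1 hx)).symm⟩
  have h2 : linkOf G (X ∪ Y) σ = Y := by
    ext w
    rw [mem_linkOf, mem_union]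
    constructor
    · rintro ⟨h1 | h1, h2⟩
      · obtain ⟨x, hx, hx'⟩ := hσm w h1
        exact absurd (h2 x hx) hx'
      · exact h1
    · intro hw
      exact ⟨Or.inr hw, fun x hx => (hadj x (hσ.1 hx) w hw)⟩
  have h3 := h.link (s := ρ) (by
    rw [mem_simplicesIn]; exact ⟨hρ.1.trans subset_union_right, hρ.2⟩)
  have h4 := h.link (s := σ) (by
    rw [mem_simplicesIn]; exact ⟨hσ.1.trans subset_union_left, hσ.2⟩)
  rw [h1] at h3
  rw [h2] at h4
  have h5 := h3.2.link (s := σ) (by rw [mem_simplicesIn]; exact hσ)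
  have h6 : linkOf G X σ = ∅ := by
    rw [eq_empty_iff_forall_notMem]
    intro w hw
    rw [mem_linkOf] at hw
    obtain ⟨x, hx, hx'⟩ := hσm w hw.1
    exact hx' (hw.2 x hx)
  rw [h6] at h5
  have h7 := h5.2.index_eq_zero
  refine ⟨d - ρ.card, ρ.card, by omega, h3.2, ?_⟩
  have h8 : d - σ.card = ρ.card := by omega
  rw [← h8]
  exact h4.2

/-- irreducible: not the join of two nonempty complexes -/
def Irr [DecidableEq V] (G : SimpleGraph V) (A : Finset V) : Prop :=
  ∀ X Y : Finset V, X ∪ Y = A → (∀ x ∈ X, ∀ y ∈ Y, G.Adj x y) → X = ∅ ∨ Y = ∅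

theorem irr_iff [DecidableEq V] {A : Finset V} : IsJoinIrreducible G A ↔ Irr G A := by
  constructor
  · intro h X Y hXY hadj
    have hX : IsJoinFactor G A X := by
      refine ⟨by rw [← hXY]; exact subset_union_left, fun x hx y hy hyX => ?_⟩
      rw [← hXY, mem_union] at hy
      exact hadj x hx y (hy.resolve_left hyX)
    rcases h X hX with h1 | h1
    · exact Or.inl h1
    · right
      rw [eq_empty_iff_forall_notMem]
      intro y hy
      have hyX : y ∈ X := by rw [h1, ← hXY]; exact mem_union_right _ hy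
      exact G.irrefl (hadj y hyX y hy)
  · intro h Q hQ
    rcases h Q (A \ Q) (union_sdiff_of_subset hQ.1) (fun x hx y hy => by
      rw [mem_sdiff] at hy
      exact hQ.2 x hx y hy.1 hy.2) with h1 | h1
    · exact Or.inl h1
    · exact Or.inr (Finset.Subset.antisymm hQ.1 (sdiff_eq_empty_iff_subset.1 h1))

theorem exists_irr_factor [DecidableEq V] {A Q : Finset V} (hQA : Q ⊆ A) (hQ : Irr G Q) : ∃ Y, Q ⊆ Y ∧ IsJoinFactor G A Y ∧ Irr G Y := by
  classical
  obtain ⟨Y, hY, hmin⟩ := Finset.exists_min_image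
    (A.powerset.filter (fun Y => Q ⊆ Y ∧ IsJoinFactor G A Y)) (fun Y => Y.card)
    ⟨A, by
      rw [mem_filter, mem_powerset]
      exact ⟨Subset.refl A, hQA, Subset.refl A, fun x _ y hy hy' => absurd hy hy'⟩⟩
  rw [mem_filter, mem_powerset] at hY
  refine ⟨Y, hY.2.1, hY.2.2, ?_⟩
  have key : ∀ X Z : Finset V, X ∪ Z = Y → (∀ x ∈ X, ∀ z ∈ Z, G.Adj x z) → Q ⊆ X → Z = ∅ := by
    intro X Z hXZ hadj hQX
    have hXY : X ⊆ Y := by rw [← hXZ]; exact subset_union_left
    have h1 : X ∈ A.powerset.filter (fun Y => Q ⊆ Y ∧ IsJoinFactor G A Y) := by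
      rw [mem_filter, mem_powerset]
      refine ⟨hXY.trans hY.1, hQX, hXY.trans hY.1, fun x hx y hy hyX => ?_⟩
      by_cases hyY : y ∈ Y
      · rw [← hXZ, mem_union] at hyY
        exact hadj x hx y (hyY.resolve_left hyX)
      · exact hY.2.2.2 x (hXY hx) y hy hyY
    have h2 := hmin X h1
    have h3 : X = Y := Finset.eq_of_subset_of_card_le hXY h2
    rw [eq_empty_iff_forall_notMem]
    intro z hz
    have hzY : z ∈ X := by rw [h3, ← hXZ]; exact mem_union_right _ hz
    exact G.irrefl (hadj z hzY z hz)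
  intro X Z hXZ hadj
  have h1 : (Q ∩ X) ∪ (Q ∩ Z) = Q := by
    rw [← inter_union_distrib_left, hXZ]
    exact inter_eq_left.2 hY.2.1
  rcases hQ (Q ∩ X) (Q ∩ Z) h1 (fun x hx y hy => hadj x (mem_of_mem_inter_right hx) y
    (mem_of_mem_inter_right hy)) with h2 | h2
  · left
    have hQZ : Q ⊆ Z := by
      rw [h2, empty_union] at h1
      exact inter_eq_left.1 h1
    exact key Z X (by rw [union_comm]; exact hXZ) (fun x hx z hz => (hadj z hz x hx).symm) hQZ
  · right
    have hQX : Q ⊆ X := by
      rw [h2, union_empty] at h1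
      exact inter_eq_left.1 h1
    exact key X Z hXZ hadj hQX

theorem irr_singleton [DecidableEq V] (v : V) : Irr G ({v} : Finset V) := by
  intro X Y hXY hadj
  by_contra hcon
  rw [not_or] at hcon
  obtain ⟨x, hx⟩ := Finset.nonempty_iff_ne_empty.2 hcon.1
  obtain ⟨y, hy⟩ := Finset.nonempty_iff_ne_empty.2 hcon.2
  have h1 : x ∈ ({v} : Finset V) := by rw [← hXY]; exact mem_union_left _ hx
  have h2 : y ∈ ({v} : Finset V) := by rw [← hXY]; exact mem_union_right _ hy
  rw [mem_singleton] at h1 h2
  subst h1 h2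
  exact G.irrefl (hadj _ hx _ hy)

/-- S2: an irreducible sphere of index at least two has a vertex with an irreducible link -/
theorem exists_irr_link [DecidableEq V] {d : ℕ} {A : Finset V} (hA : IsFlagSphere G d A)
    (hd : 2 ≤ d) (hirr : Irr G A) : ∃ v ∈ A, Irr G (linkIn G A v) := by
  classical
  obtain ⟨e, rfl⟩ : ∃ e, d = e + 1 := ⟨d - 1, by omega⟩
  have hS : ((A ×ˢ A.powerset).filter (fun p => p.2.Nonempty ∧ Irr G p.2 ∧
      IsJoinFactor G (linkIn G A p.1) p.2)).Nonempty := by
    obtain ⟨v, hv⟩ := hA.nonempty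
    obtain ⟨e', rfl⟩ : ∃ e', e = e' + 1 := ⟨e - 1, by omega⟩
    obtain ⟨q, hq⟩ := (hA.link_vertex hv).nonempty
    obtain ⟨Y, h1, h2, h3⟩ := exists_irr_factor (G := G) (A := linkIn G A v) (Q := {q})
      (by simpa using hq) (irr_singleton q)
    refine ⟨(v, Y), ?_⟩
    rw [mem_filter, mem_product, mem_powerset]
    exact ⟨⟨hv, h2.1.trans (linkIn_subset _ _)⟩, ⟨q, h1 (by simp)⟩, h3, h2⟩
  obtain ⟨⟨v, Q⟩, hvQ, hmax⟩ := Finset.exists_max_image _ (fun p => p.2.card) hS
  rw [mem_filter, mem_product, mem_powerset] at hvQ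
  obtain ⟨⟨hv, hQA⟩, hQne, hQirr, hQfac⟩ := hvQ
  simp only at hv hQA hQne hQirr hQfac
  by_cases hR : linkIn G A v \ Q = ∅
  · refine ⟨v, hv, ?_⟩
    have : linkIn G A v = Q := Finset.Subset.antisymm (sdiff_eq_empty_iff_subset.1 hR) hQfac.1
    rw [this]; exact hQirr
  · exfalso
    have hL := hA.link_vertex hv
    have hjoin : linkIn G A v = Q ∪ (linkIn G A v \ Q) := by
      rw [union_sdiff_of_subset hQfac.1]
    have hadj : ∀ x ∈ Q, ∀ y ∈ linkIn G A v \ Q, G.Adj x y := by
      intro x hx y hy
      rw [mem_sdiff] at hy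
      exact hQfac.2 x hx y hy.1 hy.2
    rw [hjoin] at hL
    obtain ⟨p, q, hpq, hp, hq⟩ := hL.factors hadj
    have hq1 : 1 ≤ q := hq.pos (Finset.nonempty_iff_ne_empty.2 hR)
    obtain ⟨τ, hτ, hτm⟩ := exists_maximal_simplex (G := G) Q
    have hτc : τ.card = p := by
      have h5 := hp.link hτ
      have h6 : linkOf G Q τ = ∅ := by
        rw [eq_empty_iff_forall_notMem]
        intro w hw
        rw [mem_linkOf] at hw
        obtain ⟨x, hx, hx'⟩ := hτm w hw.1
        exact hx' (hw.2 x hx)
      rw [h6] at h5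
      have h7 := h5.2.index_eq_zero
      omega
    rw [mem_simplicesIn] at hτ
    have hW := hA.link (s := τ) (by rw [mem_simplicesIn]; exact ⟨hτ.1.trans hQA, hτ.2⟩)
    set W := linkOf G A τ with hWdef
    set W' := W.filter (fun a => ∀ x ∈ Q, G.Adj x a ∧ IsJoinFactor G (linkIn G A a) Q) with hW'def
    have hmem : ∀ a, a ∈ W' ↔ a ∈ W ∧ ∀ x ∈ Q, G.Adj x a ∧ IsJoinFactor G (linkIn G A a) Q := by
      intro a; rw [hW'def, mem_filter]
    have hvW : v ∈ W' := by
      rw [hmem, hWdef, mem_linkOf]
      refine ⟨⟨hv, fun x hx => ?_⟩, fun x hx => ⟨?_, hQfac⟩⟩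
      · exact ((mem_linkIn.1 (hQfac.1 (hτ.1 hx))).2).symm
      · exact ((mem_linkIn.1 (hQfac.1 hx)).2).symm
    obtain ⟨q0, hq0⟩ := hQne
    have hcl : W' = W := by
      apply eq_of_closed (hW.2.connected (by omega)) (filter_subset _ _) ⟨v, hvW⟩
      intro a ha b hb hab
      rw [hmem] at ha ⊢
      refine ⟨hb, ?_⟩
      have hbA : b ∈ A := (mem_linkOf.1 hb).1
      have hbQ : b ∉ Q := by
        intro hbQ
        obtain ⟨x, hx, hx'⟩ := hτm b hbQ
        exact hx' ((mem_linkOf.1 hb).2 x hx)
      have hbL : b ∈ linkIn G A a := mem_linkIn.2 ⟨hbA, hab⟩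
      have hfa := (ha.2 q0 hq0).2
      have hxb : ∀ x ∈ Q, G.Adj x b := fun x hx => hfa.2 x hx b hbL hbQ
      have hQb : Q ⊆ linkIn G A b := fun x hx => mem_linkIn.2 ⟨hQA hx, (hxb x hx).symm⟩
      obtain ⟨Y, h1, h2, h3⟩ := exists_irr_factor hQb hQirr
      have h4 := hmax (b, Y) (by
        rw [mem_filter, mem_product, mem_powerset]
        exact ⟨⟨hbA, h2.1.trans (linkIn_subset _ _)⟩, ⟨q0, h1 hq0⟩, h3, h2⟩)
      simp only at h4
      have h5 : Q = Y := Finset.eq_of_subset_of_card_le h1 h4
      rw [← h5] at h2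
      exact fun x hx => ⟨hxb x hx, h2⟩
    have hfin := hA.eq_join hp hW.2 (by omega) hQA (linkOf_subset _ _) (by
      intro x hx y hy
      rw [← hcl, hmem] at hy
      exact (hy.2 x hx).1)
    rcases hirr Q W hfin.symm (by
      intro x hx y hy
      rw [← hcl, hmem] at hy
      exact (hy.2 x hx).1) with h | h
    · rw [h] at hq0; simp at hq0
    · rw [← hcl] at h
      rw [h] at hvW; simp at hvW

theorem two_le_far_of_irr [DecidableEq V] {d : ℕ} {A : Finset V} (hA : IsFlagSphere G d A)
    (hd : 2 ≤ d) (hirr : Irr G A) {v : V} (hv : v ∈ A) : 2 ≤ (farIn G A v).card := by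
  classical
  by_contra hcon
  have h1 := (hA.farIn_nonempty hv).card_pos
  obtain ⟨u, hu⟩ := card_eq_one.1 (show (farIn G A v).card = 1 by omega)
  have hadj : ∀ x ∈ ({v, u} : Finset V), ∀ y ∈ linkIn G A v, G.Adj x y := by
    intro x hx y hy
    rw [mem_insert, mem_singleton] at hx
    rcases hx with rfl | rfl
    · exact (mem_linkIn.1 hy).2
    · obtain ⟨u', hu', h2⟩ := hA.exists_far_adj hv hy
      rw [hu, mem_singleton] at hu'
      subst hu'
      exact h2.symm
  have huni : ({v, u} : Finset V) ∪ linkIn G A v = A := by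
    conv_rhs => rw [split_vertex (G := G) A hv, hu]
    ext w
    simp only [mem_union, mem_insert, mem_singleton]
    tauto
  rcases hirr _ _ huni hadj with h | h
  · simp at h
  · obtain ⟨e, rfl⟩ : ∃ e, d = e + 2 := ⟨d - 2, by omega⟩
    have := (hA.link_vertex hv).nonempty
    rw [h] at this
    simp at this

theorem three_mul_le_of_irr [DecidableEq V] {d : ℕ} {A : Finset V} (hA : IsFlagSphere G d A)
    (hd : 1 ≤ d) (hirr : Irr G A) : 3 * d ≤ A.card + 1 := by
  induction d generalizing A with
  | zero => omega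
  | succ d ih =>
    rcases Nat.eq_zero_or_pos d with rfl | hd'
    · have := card_of_index_one hA
      omega
    · obtain ⟨v, hv, hv'⟩ := exists_irr_link hA (by omega) hirr
      have h1 := ih (hA.link_vertex hv) hd' hv'
      have h2 := two_le_far_of_irr hA (by omega) hirr hv
      have h3 := card_split (G := G) A hv
      omega

theorem omega_join [DecidableEq V] (X Y : Finset V) (h : ∀ x ∈ X, ∀ y ∈ Y, G.Adj x y) :
    omega G (X ∪ Y) = omega G X * omega G Y := by
  rw [omega_eq_chi, omega_eq_chi, omega_eq_chi, chi_join _ _ _ h]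

end Struct

end Pool.Agent.H13
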