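import Mathlib

/-!
Basic definitions on ordered graphs: ordered containment, ordered Ramsey numbers,
ordered matchings, interval chromatic number.
-/

namespace Pool.Agent.H13

/-- The ordered graph `H` on `Fin a` is contained in the ordered graph `G` on `Fin b`: there is an
order-preserving injection of the vertices which sends edges to edges. -/
def OrderedContains {a b : ℕ} (H : SimpleGraph (Fin a)) (G : SimpleGraph (Fin b)) : Prop :=
  ∃ f : Fin a → Fin b, StrictMono f ∧ ∀ i j, H.Adj i j → G.Adj (f i) (f j)

/-- The ordered Ramsey number `r_<(G, H)`: the least `N` such that for every red/blue colouring of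
the edges of the complete graph on `Fin N` (given by its graph `R` of red edges, the blue edges
being those of the complement `Rᶜ`) there is a red copy of `G` or a blue copy of `H`. -/
noncomputable def orderedRamsey {a b : ℕ} (G : SimpleGraph (Fin a)) (H : SimpleGraph (Fin b)) : ℕ :=
  sInf {N : ℕ | ∀ R : SimpleGraph (Fin N), OrderedContains G R ∨ OrderedContains H Rᶜ}

/-- An ordered matching: every vertex has exactly one neighbour. -/
def IsOrderedMatching {n : ℕ} (M : SimpleGraph (Fin n)) : Prop :=
  ∀ v, ∃! w, M.Adj v w

/-- The vertex order can be cut into `k` consecutive intervals, none of which contains both ends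
of an edge: there is a monotone proper colouring with `k` colours. -/
def IntervalColorable {n : ℕ} (G : SimpleGraph (Fin n)) (k : ℕ) : Prop :=
  ∃ c : Fin n → Fin k, Monotone c ∧ ∀ i j, G.Adj i j → c i ≠ c j

/-- The interval chromatic number `χ_<(G)`. -/
noncomputable def intervalChromaticNumber {n : ℕ} (G : SimpleGraph (Fin n)) : ℕ :=
  sInf {k : ℕ | IntervalColorable G k}

/-- The set of ordered matchings on `n` vertices whose interval chromatic number is `k`. -/
def matchingsWithIntervalChromaticNumber (n k : ℕ) : Set (SimpleGraph (Fin n)) :=
  {M | IsOrderedMatching M ∧ intervalChromaticNumber M = k}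

/-- The property `P` holds for almost every ordered matching with interval chromatic number `k`:
the fraction of the ordered matchings `M` on `n = 2 m` vertices with `χ_<(M) = k` for which
`P n M` holds tends to `1` as `m → ∞`. -/
def AlmostEveryMatching (k : ℕ) (P : (n : ℕ) → SimpleGraph (Fin n) → Prop) : Prop :=
  Filter.Tendsto (fun m : ℕ =>
    (({M ∈ matchingsWithIntervalChromaticNumber (2 * m) k | P (2 * m) M}.ncard : ℕ) : ℝ) /
      ((matchingsWithIntervalChromaticNumber (2 * m) k).ncard : ℝ)) Filter.atTop (nhds 1)

end Pool.Agent.H13
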