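import Pool.Agent.H13.Transversal
import Pool.Agent.H13.OrderedRamseyDefs

namespace Pool.Agent.H13

open Finset

section Core

variable {n N : ℕ}

theorem contains_of_clique {k : ℕ} (H : SimpleGraph (Fin k)) (G : SimpleGraph (Fin N))
    (s : Finset (Fin N)) (hs : k ≤ s.card)
    (hclique : ∀ x ∈ s, ∀ y ∈ s, x ≠ y → G.Adj x y) : OrderedContains H G := by
  refine ⟨fun i => s.orderEmbOfCardLe hs i, ?_, ?_⟩
  · intro i j hij
    exact (s.orderEmbOfCardLe hs).strictMono hij
  · intro i j hij
    apply hclique
    · exact s.orderEmbOfCardLe_mem hs i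
    · exact s.orderEmbOfCardLe_mem hs j
    · intro h
      exact hij.ne ((s.orderEmbOfCardLe hs).injective h)

theorem no_triangle (B : SimpleGraph (Fin N))
    (hT : ¬ OrderedContains (⊤ : SimpleGraph (Fin 3)) B) (x y z : Fin N)
    (hxy : B.Adj x y) (hyz : B.Adj y z) (hxz : B.Adj x z) : False := by
  apply hT
  apply contains_of_clique _ _ {x, y, z}
  · have h1 : x ∉ ({y, z} : Finset (Fin N)) := by
      simp only [mem_insert, mem_singleton, not_or]
      exact ⟨hxy.ne, hxz.ne⟩
    have h2 : y ∉ ({z} : Finset (Fin N)) := by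
      simp only [mem_singleton]
      exact hyz.ne
    rw [card_insert_of_notMem h1, card_insert_of_notMem h2, card_singleton]
  · intro u hu v hv huv
    simp only [mem_insert, mem_singleton] at hu hv
    rcases hu with rfl | rfl | rfl <;> rcases hv with rfl | rfl | rfl <;>
      first
      | exact absurd rfl huv
      | assumption
      | (apply SimpleGraph.Adj.symm; assumption)

theorem red_of_not_blue {R : SimpleGraph (Fin N)} {x y : Fin N} (hne : x ≠ y)
    (h : ¬ Rᶜ.Adj x y) : R.Adj x y := by
  by_contra hR
  exact h ((SimpleGraph.compl_adj R x y).2 ⟨hne, hR⟩)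

open Classical in
/-- every vertex has fewer than `n` blue neighbours -/
theorem blue_degree_lt (M : SimpleGraph (Fin n)) (R : SimpleGraph (Fin N))
    (hM : ¬ OrderedContains M R) (hT : ¬ OrderedContains (⊤ : SimpleGraph (Fin 3)) Rᶜ)
    (q : Fin N) : ((univ : Finset (Fin N)).filter (fun v => Rᶜ.Adj q v)).card < n := by
  by_contra hcon
  push Not at hcon
  apply hM
  apply contains_of_clique _ _ _ hcon
  intro x hx y hy hxy
  simp only [mem_filter, mem_univ, true_and] at hx hy
  apply red_of_not_blue hxy
  intro hB
  exact no_triangle _ hT q x y hx hB hy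

open Classical in
/-- fewer than `n` of the aligned cells contain a blue edge -/
theorem few_nonred (M : SimpleGraph (Fin n))
    (hmatch : ∀ v w w', M.Adj v w → M.Adj v w' → w = w')
    (R : SimpleGraph (Fin N))
    (hM : ¬ OrderedContains M R) (hT : ¬ OrderedContains (⊤ : SimpleGraph (Fin 3)) Rᶜ)
    (L T : ℕ) :
    ((range T).filter (fun t => ∃ x y : Fin N, x.val / L = t ∧ y.val / L = t ∧
      Rᶜ.Adj x y)).card < n := by
  by_contra hcon
  push Not at hcon
  set s := (range T).filter (fun t => ∃ x y : Fin N, x.val / L = t ∧ y.val / L = t ∧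
      Rᶜ.Adj x y) with hs
  set e := s.orderEmbOfCardLe hcon with he
  have hmem : ∀ i, e i ∈ s := fun i => s.orderEmbOfCardLe_mem hcon i
  have hex : ∀ i : Fin n, ∃ x y : Fin N, x.val / L = e i ∧ y.val / L = e i ∧ Rᶜ.Adj x y := by
    intro i
    have := hmem i
    rw [hs, mem_filter] at this
    exact this.2
  choose x y hx hy hB using hex
  -- for every i, j there is a choice for the position of `i` not blue to `x j`
  have hchoice : ∀ i j : Fin n, ∃ u : Fin N, u.val / L = e i ∧ ¬ Rᶜ.Adj u (x j) := by
    intro i j
    by_cases h : Rᶜ.Adj (x i) (x j)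
    · refine ⟨y i, hy i, ?_⟩
      intro h'
      exact no_triangle _ hT (x i) (y i) (x j) (hB i) h' h
    · exact ⟨x i, hx i, h⟩
  choose u hu huB using hchoice
  apply hM
  -- the position of `i`
  let f : Fin n → Fin N := fun i =>
    if h : ∃ j, i < j ∧ M.Adj i j then u i h.choose else x i
  have hf : ∀ i, (f i).val / L = e i := by
    intro i
    simp only [f]
    split_ifs with h
    · exact hu i _
    · exact hx i
  have hmono : StrictMono f := by
    intro i j hij
    have h1 : e i < e j := e.strictMono hij
    rw [← hf i, ← hf j] at h1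
    by_contra hcon
    push Not at hcon
    have : (f j).val / L ≤ (f i).val / L := Nat.div_le_div_right hcon
    omega
  refine ⟨f, hmono, ?_⟩
  have key : ∀ i j, i < j → M.Adj i j → R.Adj (f i) (f j) := by
    intro i j hij hadj
    apply red_of_not_blue (hmono hij).ne
    have h1 : ∃ j, i < j ∧ M.Adj i j := ⟨j, hij, hadj⟩
    have h2 : h1.choose = j := hmatch i _ _ h1.choose_spec.2 hadj
    have h3 : ¬ ∃ l, j < l ∧ M.Adj j l := by
      rintro ⟨l, hl, hadj'⟩
      have := hmatch j _ _ hadj' hadj.symm
      omega
    have h4 : f i = u i j := by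
      simp only [f]
      rw [dif_pos h1, h2]
    have h5 : f j = x j := by
      simp only [f]
      rw [dif_neg h3]
    rw [h4, h5]
    exact huB i j
  intro i j hadj
  rcases lt_trichotomy i j with h | h | h
  · exact key i j h hadj
  · subst h; exact absurd rfl hadj.ne
  · exact (key j i h hadj.symm).symm

end Core


section Main

variable {n N : ℕ}

open Classical in
/-- number of edges of `M` with the first end in group `b` and the second end in group `c`, where
the groups are the sets of vertices with the same quotient by `r`. -/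
noncomputable def groupEdges (M : SimpleGraph (Fin n)) (r b c : ℕ) : ℕ :=
  ((univ : Finset (Fin n × Fin n)).filter
    (fun p => p.1.val / r = b ∧ p.2.val / r = c ∧ M.Adj p.1 p.2)).card

open Classical in
/-- The deterministic core: if between any two groups of `r` consecutive vertices the ordered
matching `M` has at most `μ` edges, then `r_<(M, K_3) ≤ 2 r (n + m w)` as soon as `8 μ n ≤ w r`
and `n ≤ m r`. -/
theorem core (M : SimpleGraph (Fin n))
    (hmatch : ∀ v w w', M.Adj v w → M.Adj v w' → w = w')
    (r m w μ : ℕ) (hr : 0 < r) (hw : 0 < w) (hm : n ≤ m * r)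
    (hμ : ∀ b c, b ≠ c → groupEdges M r b c ≤ μ)
    (hwr : 8 * μ * n ≤ w * r)
    (R : SimpleGraph (Fin N)) (hN : 2 * r * (n + m * w) ≤ N) :
    OrderedContains M R ∨ OrderedContains (⊤ : SimpleGraph (Fin 3)) Rᶜ := by
  by_contra hcon
  push Not at hcon
  obtain ⟨hM, hT⟩ := hcon
  set L := 2 * r with hL
  have hLpos : 0 < L := by omega
  set T := n + m * w with hTdef
  -- the red cells
  set S := (range T).filter (fun t => ¬ ∃ x y : Fin N, x.val / L = t ∧ y.val / L = t ∧
      Rᶜ.Adj x y) with hS
  have hScard : m * w ≤ S.card := by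
    have h1 := few_nonred M hmatch R hM hT L T
    have h2 := Finset.card_filter_add_card_filter_not (s := range T)
      (fun t => ∃ x y : Fin N, x.val / L = t ∧ y.val / L = t ∧ Rᶜ.Adj x y)
    rw [card_range] at h2
    rw [← hS] at h2
    omega
  set e := S.orderEmbOfCardLe hScard with he
  have hemem : ∀ i, e i ∈ S := fun i => S.orderEmbOfCardLe_mem hScard i
  have helt : ∀ i, e i < T := by
    intro i
    have := hemem i
    rw [hS, mem_filter, mem_range] at this
    exact this.1
  have hered : ∀ i, ∀ x y : Fin N, x.val / L = e i → y.val / L = e i → ¬ Rᶜ.Adj x y := by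
    intro i x y hx hy hB
    have := hemem i
    rw [hS, mem_filter] at this
    exact this.2 ⟨x, y, hx, hy, hB⟩
  -- positions
  have hPlt : ∀ (b : Fin m) (x : Fin w × Fin r) (t : Fin r),
      e (finProdFinEquiv (b, x.1)) * L + x.2.val + t.val < N := by
    intro b x t
    have h1 := helt (finProdFinEquiv (b, x.1))
    have h2 : (e (finProdFinEquiv (b, x.1)) + 1) * L ≤ T * L := Nat.mul_le_mul_right _ h1
    have h3 := x.2.isLt
    have h4 := t.isLt
    have h5 : T * L ≤ N := by rw [mul_comm]; exact hN
    rw [Nat.add_mul, one_mul] at h2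
    omega
  let P : Fin m → Fin w × Fin r → Fin r → Fin N := fun b x t =>
    ⟨e (finProdFinEquiv (b, x.1)) * L + x.2.val + t.val, hPlt b x t⟩
  have hPdiv : ∀ b x t, (P b x t).val / L = e (finProdFinEquiv (b, x.1)) := by
    intro b x t
    simp only [P]
    have h3 := x.2.isLt
    have h4 := t.isLt
    rw [add_assoc, mul_comm, Nat.mul_add_div hLpos, Nat.div_eq_of_lt (by omega), add_zero]
  have hPmod : ∀ b x t, (P b x t).val % L = x.2.val + t.val := by
    intro b x t
    simp only [P]
    have h3 := x.2.isLt
    have h4 := t.isLt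
    rw [add_assoc, mul_comm, Nat.mul_add_mod, Nat.mod_eq_of_lt (by omega)]
  have hPinj : ∀ b t, Function.Injective (fun x => P b x t) := by
    intro b t x y hxy
    have h1 := hPdiv b x t
    have h2 := hPdiv b y t
    have h3 := hPmod b x t
    have h4 := hPmod b y t
    simp only at hxy
    rw [hxy] at h1 h3
    have h5 := e.injective (h1.symm.trans h2)
    have h6 := finProdFinEquiv.injective h5
    have h7 : x.1 = y.1 := congrArg Prod.snd h6
    have h8 : x.2 = y.2 := by
      apply Fin.ext
      omega
    exact Prod.ext h7 h8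
  -- groups
  have hgrp : ∀ i : Fin n, i.val / r < m := by
    intro i
    rw [Nat.div_lt_iff_lt_mul hr]
    exact lt_of_lt_of_le i.isLt hm
  let grp : Fin n → Fin m := fun i => ⟨i.val / r, hgrp i⟩
  let idx : Fin n → Fin r := fun i => ⟨i.val % r, Nat.mod_lt _ hr⟩
  -- windows
  let W : Fin m → Finset (Fin N) := fun b =>
    (univ : Finset (Fin N)).filter (fun v => ∃ a : Fin w, v.val / L = e (finProdFinEquiv (b, a)))
  have hWcard : ∀ b, (W b).card ≤ w * L := by
    intro b
    have h1 : (W b).card ≤
        (((univ : Finset (Fin w)).image (fun a => e (finProdFinEquiv (b, a)))) ×ˢ range L).card := by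
      apply Finset.card_le_card_of_injOn (fun v : Fin N => (v.val / L, v.val % L))
      · intro v hv
        simp only [W, coe_filter, mem_univ, true_and, Set.mem_ofPred_eq] at hv
        obtain ⟨a, ha⟩ := hv
        simp only [coe_product, Set.mem_prod, mem_coe, mem_image, mem_univ, true_and, mem_range]
        exact ⟨⟨a, ha.symm⟩, Nat.mod_lt _ hLpos⟩
      · intro u _ v _ huv
        simp only [Prod.mk.injEq] at huv
        apply Fin.ext
        rw [← Nat.div_add_mod u.val L, ← Nat.div_add_mod v.val L, huv.1, huv.2]
    rw [card_product, card_range] at h1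
    refine h1.trans (Nat.mul_le_mul_right _ ?_)
    exact (card_image_le).trans (by simp)
  have hPW : ∀ b x t, P b x t ∈ W b := by
    intro b x t
    simp only [W, mem_filter, mem_univ, true_and]
    exact ⟨x.1, hPdiv b x t⟩
  have hWdisj : ∀ b c, b ≠ c → Disjoint (W b) (W c) := by
    intro b c hbc
    rw [Finset.disjoint_left]
    intro v hv hv'
    simp only [W, mem_filter, mem_univ, true_and] at hv hv'
    obtain ⟨a, ha⟩ := hv
    obtain ⟨a', ha'⟩ := hv'
    have h5 := e.injective (ha.symm.trans ha')
    have h6 := finProdFinEquiv.injective h5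
    exact hbc (congrArg Prod.fst h6)
  -- blue edges between windows
  let E : Fin m → Fin m → Finset (Fin N × Fin N) := fun b c =>
    (univ : Finset (Fin N × Fin N)).filter
      (fun p => p.1 ∈ W b ∧ p.2 ∈ W c ∧ Rᶜ.Adj p.1 p.2)
  have hEsum : ∀ b, ∑ c ∈ univ.erase b, (E b c).card ≤ (w * L) * n := by
    intro b
    have hdisj : ∀ c ∈ (univ.erase b : Finset (Fin m)), ∀ d ∈ (univ.erase b : Finset (Fin m)),
        c ≠ d → Disjoint (E b c) (E b d) := by
      intro c _ d _ hcd
      rw [Finset.disjoint_left]
      intro p hp hp'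
      simp only [E, mem_filter, mem_univ, true_and] at hp hp'
      exact (Finset.disjoint_left.1 (hWdisj c d hcd)) hp.2.1 hp'.2.1
    rw [← Finset.card_biUnion hdisj]
    have hsub : (univ.erase b).biUnion (fun c => E b c) ⊆
        (W b).biUnion (fun u => ((univ : Finset (Fin N)).filter (fun v => Rᶜ.Adj u v)).image
          (fun v => (u, v))) := by
      intro p hp
      simp only [mem_biUnion, E, mem_filter, mem_univ, true_and] at hp
      obtain ⟨c, _, h1, _, h3⟩ := hp
      simp only [mem_biUnion, mem_image, mem_filter, mem_univ, true_and]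
      exact ⟨p.1, h1, p.2, h3, rfl⟩
    refine (card_le_card hsub).trans ?_
    refine (card_biUnion_le_card_mul _ _ n ?_).trans (Nat.mul_le_mul_right _ (hWcard b))
    intro u _
    exact card_image_le.trans (blue_degree_lt M R hM hT u).le
  -- the conflicts
  let C : Fin m → Fin w × Fin r → Fin m → Fin w × Fin r → Prop := fun b x c y =>
    ∃ i j : Fin n, grp i = b ∧ grp j = c ∧ M.Adj i j ∧
      Rᶜ.Adj (P b x (idx i)) (P c y (idx j))
  have hCsymm : ∀ b x c y, C b x c y → C c y b x := by
    rintro b x c y ⟨i, j, h1, h2, h3, h4⟩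
    exact ⟨j, i, h2, h1, h3.symm, h4.symm⟩
  have hconf : ∀ b c, b ≠ c → numConf C b c ≤ μ * (E b c).card := by
    intro b c hbc
    have heq : numConf C b c = ((univ : Finset ((Fin w × Fin r) × (Fin w × Fin r))).filter
        (fun p => C b p.1 c p.2)).card := by
      unfold numConf
      congr
    rw [heq]
    have hsub : ((univ : Finset ((Fin w × Fin r) × (Fin w × Fin r))).filter
        (fun p => C b p.1 c p.2)) ⊆
        ((univ : Finset (Fin n × Fin n)).filter
          (fun p => p.1.val / r = b ∧ p.2.val / r = c ∧ M.Adj p.1 p.2)).biUnion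
        (fun q => (univ : Finset ((Fin w × Fin r) × (Fin w × Fin r))).filter
          (fun p => Rᶜ.Adj (P b p.1 (idx q.1)) (P c p.2 (idx q.2)))) := by
      intro p hp
      simp only [mem_filter, mem_univ, true_and, C] at hp
      obtain ⟨i, j, h1, h2, h3, h4⟩ := hp
      simp only [mem_biUnion, mem_filter, mem_univ, true_and]
      exact ⟨(i, j), ⟨congrArg Fin.val h1, congrArg Fin.val h2, h3⟩, h4⟩
    refine (card_le_card hsub).trans ?_
    refine (card_biUnion_le_card_mul _ _ (E b c).card ?_).trans (Nat.mul_le_mul_right _ ?_)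
    · intro q _
      apply Finset.card_le_card_of_injOn
        (fun p : (Fin w × Fin r) × (Fin w × Fin r) => (P b p.1 (idx q.1), P c p.2 (idx q.2)))
      · intro p hp
        simp only [coe_filter, mem_univ, true_and, Set.mem_ofPred_eq] at hp
        simp only [E, coe_filter, mem_univ, true_and, Set.mem_ofPred_eq]
        exact ⟨hPW _ _ _, hPW _ _ _, hp⟩
      · intro p _ p' _ hpp
        simp only [Prod.mk.injEq] at hpp
        exact Prod.ext (hPinj _ _ hpp.1) (hPinj _ _ hpp.2)
    · exact hμ b c (fun h => hbc (Fin.ext h))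
  have : Nonempty (Fin w × Fin r) := ⟨(⟨0, hw⟩, ⟨0, hr⟩)⟩
  obtain ⟨x, hx⟩ := exists_transversal C hCsymm (by
    intro b
    have h1 : ∑ c ∈ univ.erase b, numConf C b c ≤ μ * ((w * L) * n) := by
      calc ∑ c ∈ univ.erase b, numConf C b c ≤ ∑ c ∈ univ.erase b, μ * (E b c).card := by
            apply Finset.sum_le_sum
            intro c hc
            exact hconf b c (fun h => (mem_erase.1 hc).1 h.symm)
        _ = μ * ∑ c ∈ univ.erase b, (E b c).card := by rw [Finset.mul_sum]
        _ ≤ _ := Nat.mul_le_mul_left _ (hEsum b)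
    rw [Fintype.card_prod, Fintype.card_fin, Fintype.card_fin]
    calc 4 * ∑ c ∈ univ.erase b, numConf C b c ≤ 4 * (μ * ((w * L) * n)) :=
          Nat.mul_le_mul_left _ h1
      _ = (8 * μ * n) * (w * r) := by rw [hL]; ring
      _ ≤ (w * r) * (w * r) := Nat.mul_le_mul_right _ hwr
      _ = (w * r)^2 := by ring)
  -- the embedding
  apply hM
  let f : Fin n → Fin N := fun i => P (grp i) (x (grp i)) (idx i)
  have hmono : StrictMono f := by
    intro i j hij
    have hle : i.val / r ≤ j.val / r := Nat.div_le_div_right (le_of_lt hij)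
    rcases hle.lt_or_eq with hlt | heq
    · -- different groups
      have h1 : finProdFinEquiv (grp i, (x (grp i)).1) < finProdFinEquiv (grp j, (x (grp j)).1) := by
        rw [Fin.lt_def, finProdFinEquiv_apply_val, finProdFinEquiv_apply_val]
        simp only [grp]
        have h3 := (x ⟨i.val / r, hgrp i⟩).1.isLt
        have h4 : w * (i.val / r + 1) ≤ w * (j.val / r) := Nat.mul_le_mul_left _ hlt
        rw [Nat.mul_add, mul_one] at h4
        omega
      have h2 := e.strictMono h1
      by_contra hcon
      push Not at hcon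
      have h3 : (f j).val / L ≤ (f i).val / L := Nat.div_le_div_right hcon
      simp only [f] at h3
      rw [hPdiv, hPdiv] at h3
      omega
    · have h1 : grp i = grp j := Fin.ext heq
      rw [Fin.lt_def]
      simp only [f]
      rw [h1]
      simp only [P, idx]
      have h2 := Nat.div_add_mod i.val r
      have h3 := Nat.div_add_mod j.val r
      rw [heq] at h2
      have h4 : i.val < j.val := hij
      omega
  refine ⟨f, hmono, ?_⟩
  intro i j hadj
  have hne : f i ≠ f j := fun h => hadj.ne (hmono.injective h)
  apply red_of_not_blue hne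
  by_cases h : grp i = grp j
  · apply hered (finProdFinEquiv (grp j, (x (grp j)).1))
    · simp only [f]
      rw [h]
      exact hPdiv _ _ _
    · simp only [f]
      exact hPdiv _ _ _
  · intro hB
    exact hx (grp i) (grp j) h ⟨i, j, rfl, rfl, hadj, hB⟩

end Main

end Pool.Agent.H13
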