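import Pool.Agent.H13.OrderedRamseyDefs

/-!
The switching argument: in a typical ordered matching with interval chromatic number `k` there are
few edges between two given small sets of vertices.
-/

namespace Pool.Agent.H13

open Finset

section Chain

variable {n : ℕ}

/-- the part of `G` on the vertices `≥ a` has a monotone proper colouring with `k` colours -/
def ColFrom (G : SimpleGraph (Fin n)) (a k : ℕ) : Prop :=
  ∃ c : Fin n → ℕ, Monotone c ∧ (∀ i : Fin n, a ≤ i.val → c i < k) ∧
    ∀ i j : Fin n, a ≤ i.val → a ≤ j.val → G.Adj i j → c i ≠ c j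

theorem exists_witness (G : SimpleGraph (Fin n))
    (hmatch : ∀ v w w', G.Adj v w → G.Adj v w' → w = w') (k : ℕ) :
    ∀ a, ¬ ColFrom G a k → ∃ W : Finset (Fin n), W.card ≤ 2 * k ∧
      (∀ x ∈ W, ∀ y, G.Adj x y → y ∈ W) ∧
      ∀ G' : SimpleGraph (Fin n), (∀ x ∈ W, ∀ y, G.Adj x y → G'.Adj x y) → ¬ ColFrom G' a k := by
  induction k with
  | zero =>
    intro a ha
    refine ⟨∅, by simp, by simp, ?_⟩
    rintro G' _ ⟨c, hc1, hc2, _⟩
    apply ha
    refine ⟨c, hc1, hc2, ?_⟩
    intro i j hi
    exact absurd (hc2 i hi) (by omega)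
  | succ k ih =>
    intro a ha
    -- there is an edge inside
    have hedge : ∃ j : ℕ, ∃ (hj : j < n) (i : Fin n), a ≤ i.val ∧ i.val < j ∧
        G.Adj i ⟨j, hj⟩ := by
      by_contra hno
      apply ha
      refine ⟨fun _ => 0, fun _ _ _ => le_rfl, fun _ _ => Nat.succ_pos k, ?_⟩
      intro i j hi hj hadj
      exfalso
      rcases lt_trichotomy i j with h | h | h
      · exact hno ⟨j.val, j.isLt, i, hi, h, hadj⟩
      · subst h; exact hadj.ne rfl
      · exact hno ⟨i.val, i.isLt, j, hj, h, hadj.symm⟩
    classical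
    set j := Nat.find hedge with hjdef
    obtain ⟨hj, i, hai, hij, hadj⟩ := Nat.find_spec hedge
    have hmin : ∀ j' : ℕ, j' < j → ¬ ∃ (hj : j' < n) (i : Fin n), a ≤ i.val ∧ i.val < j' ∧
        G.Adj i ⟨j', hj⟩ := fun j' hj' => Nat.find_min hedge hj'
    have hnot : ¬ ColFrom G j k := by
      rintro ⟨c, hc1, hc2, hc3⟩
      apply ha
      refine ⟨fun v => if v.val < j then 0 else c v + 1, ?_, ?_, ?_⟩
      · intro u v huv
        simp only
        split_ifs with h1 h2 h2
        · exact le_rfl
        · exact Nat.zero_le _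
        · exfalso
          have : u.val ≤ v.val := huv
          omega
        · exact Nat.add_le_add_right (hc1 huv) 1
      · intro v _
        simp only
        split_ifs with h1
        · exact Nat.succ_pos k
        · exact Nat.succ_lt_succ (hc2 v (by omega))
      · intro u v hu hv huv
        simp only
        split_ifs with h1 h2 h2
        · exfalso
          rcases lt_trichotomy u v with h | h | h
          · exact hmin v.val h2 ⟨v.isLt, u, hu, h, huv⟩
          · subst h; exact huv.ne rfl
          · exact hmin u.val h1 ⟨u.isLt, v, hv, h, huv.symm⟩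
        · omega
        · omega
        · have := hc3 u v (by omega) (by omega) huv
          omega
    obtain ⟨W, hW1, hW2, hW3⟩ := ih j hnot
    set jj : Fin n := ⟨j, hj⟩ with hjj
    refine ⟨insert i (insert jj W), ?_, ?_, ?_⟩
    · calc (insert i (insert jj W)).card ≤ (insert jj W).card + 1 := card_insert_le _ _
        _ ≤ W.card + 1 + 1 := Nat.add_le_add_right (card_insert_le _ _) 1
        _ ≤ 2 * (k + 1) := by omega
    · intro x hx y hxy
      rw [mem_insert, mem_insert] at hx
      rcases hx with rfl | rfl | hx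
      · have := hmatch _ _ _ hxy hadj
        rw [this]
        simp [hjj, hjdef]
      · have := hmatch _ _ _ hxy hadj.symm
        rw [this]
        simp
      · simp [hW2 x hx y hxy]
    · intro G' hG'
      rintro ⟨c, hc1, hc2, hc3⟩
      apply hW3 G' (fun x hx y hxy => hG' x (by simp [hx]) y hxy)
      have hadj' : G'.Adj i jj := hG' i (by simp) jj hadj
      have hji : i.val < jj.val := hij
      have hlt : c i < c jj := by
        have h1 : c i ≤ c jj := hc1 (le_of_lt hji)
        have h2 : c i ≠ c jj := hc3 i jj hai (by omega) hadj'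
        omega
      have hpos : ∀ v : Fin n, j ≤ v.val → 1 ≤ c v := by
        intro v hv
        have h1 : c jj ≤ c v := hc1 hv
        omega
      have haj : a ≤ j := by
        have : jj.val = j := rfl
        omega
      refine ⟨fun v => c v - 1, ?_, ?_, ?_⟩
      · intro u v huv
        exact Nat.sub_le_sub_right (hc1 huv) 1
      · intro v hv
        have h1 := hpos v hv
        have h2 := hc2 v (haj.trans hv)
        simp only
        omega
      · intro u v hu hv huv
        have h1 := hpos u hu
        have h2 := hpos v hv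
        have h3 := hc3 u v (haj.trans hu) (haj.trans hv) huv
        simp only
        omega

theorem colFrom_zero_iff (G : SimpleGraph (Fin n)) (k : ℕ) :
    ColFrom G 0 k ↔ IntervalColorable G k := by
  constructor
  · rintro ⟨c, hc1, hc2, hc3⟩
    refine ⟨fun i => ⟨c i, hc2 i (Nat.zero_le _)⟩, fun i j hij => hc1 hij, ?_⟩
    intro i j hij h
    exact hc3 i j (Nat.zero_le _) (Nat.zero_le _) hij (congrArg Fin.val h)
  · rintro ⟨c, hc1, hc2⟩
    refine ⟨fun i => (c i).val, fun i j hij => hc1 hij, fun i _ => (c i).isLt, ?_⟩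
    intro i j _ _ hij h
    exact hc2 i j hij (Fin.ext h)

theorem IntervalColorable.mono {G : SimpleGraph (Fin n)} {k l : ℕ} (hkl : k ≤ l)
    (h : IntervalColorable G k) : IntervalColorable G l := by
  obtain ⟨c, hc1, hc2⟩ := h
  refine ⟨fun i => Fin.castLE hkl (c i), fun i j hij => ?_, ?_⟩
  · exact hc1 hij
  · intro i j hij h
    exact hc2 i j hij (Fin.castLE_injective hkl h)

theorem intervalColorable_self (G : SimpleGraph (Fin n)) : IntervalColorable G n :=
  ⟨id, monotone_id, fun _ _ h => h.ne⟩

theorem intervalChromaticNumber_eq_iff (G : SimpleGraph (Fin n)) (k : ℕ) :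
    intervalChromaticNumber G = k ↔
      IntervalColorable G k ∧ ∀ l, l < k → ¬ IntervalColorable G l := by
  have hne : {k : ℕ | IntervalColorable G k}.Nonempty := ⟨n, intervalColorable_self G⟩
  constructor
  · rintro rfl
    exact ⟨Nat.sInf_mem hne, fun l hl h => Nat.notMem_of_lt_sInf hl h⟩
  · rintro ⟨h1, h2⟩
    apply le_antisymm
    · exact Nat.sInf_le h1
    · by_contra hlt
      push Not at hlt
      exact h2 _ hlt (Nat.sInf_mem hne)

end Chain


section Switch

variable {n : ℕ}

open Classical in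
/-- number of pairs in `P × Q` adjacent in `M` -/
noncomputable def crossEdges (M : SimpleGraph (Fin n)) (P Q : Finset (Fin n)) : ℕ :=
  ((P ×ˢ Q).filter (fun p => M.Adj p.1 p.2)).card

open Classical in
/-- the matchings in the class with at least `T` edges between `P` and `Q` -/
noncomputable def tailSet (k : ℕ) (P Q : Finset (Fin n)) (T : ℕ) :
    Finset (SimpleGraph (Fin n)) :=
  univ.filter (fun M => M ∈ matchingsWithIntervalChromaticNumber n k ∧ T ≤ crossEdges M P Q)

/-- the switching operation -/
def sw (M : SimpleGraph (Fin n)) (j u : Fin n) : SimpleGraph (Fin n) :=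
  M.comap (Equiv.swap j u)

theorem sw_adj (M : SimpleGraph (Fin n)) (j u x y : Fin n) :
    (sw M j u).Adj x y ↔ M.Adj (Equiv.swap j u x) (Equiv.swap j u y) := by
  simp [sw]

theorem sw_sw (M : SimpleGraph (Fin n)) (j u : Fin n) : sw (sw M j u) j u = M := by
  ext x y
  rw [sw_adj, sw_adj]
  simp

theorem sw_matching {M : SimpleGraph (Fin n)} (hM : IsOrderedMatching M) (j u : Fin n) :
    IsOrderedMatching (sw M j u) := by
  intro v
  obtain ⟨w, hw, huniq⟩ := hM (Equiv.swap j u v)
  refine ⟨Equiv.swap j u w, ?_, ?_⟩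
  · simp only [sw_adj, Equiv.swap_apply_self]
    exact hw
  · intro y hy
    simp only [sw_adj] at hy
    have := huniq _ hy
    rw [← this]
    simp

theorem sw_adj_of_ne {M : SimpleGraph (Fin n)} {j u x y : Fin n} (h1 : x ≠ j) (h2 : x ≠ u)
    (h3 : y ≠ j) (h4 : y ≠ u) : (sw M j u).Adj x y ↔ M.Adj x y := by
  rw [sw_adj, Equiv.swap_apply_of_ne_of_ne h1 h2, Equiv.swap_apply_of_ne_of_ne h3 h4]

theorem matching_unique {M : SimpleGraph (Fin n)} (hM : IsOrderedMatching M) :
    ∀ v w w', M.Adj v w → M.Adj v w' → w = w' := by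
  intro v w w' h h'
  obtain ⟨x, _, huniq⟩ := hM v
  rw [huniq w h, huniq w' h']

theorem sw_proper {M : SimpleGraph (Fin n)} (hM : IsOrderedMatching M) {i j u v : Fin n}
    (hij : M.Adj i j) (huv : M.Adj u v) (hui : u ≠ i) (huj : u ≠ j) {α : Type*} (c : Fin n → α)
    (hc : ∀ x y, M.Adj x y → c x ≠ c y) (h1 : c i ≠ c u) (h2 : c j ≠ c v) :
    ∀ x y, (sw M j u).Adj x y → c x ≠ c y := by
  have hu := matching_unique hM
  have hvj : v ≠ j := by
    rintro rfl
    exact hui (hu _ _ _ huv.symm hij.symm)
  intro x y hxy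
  rw [sw_adj] at hxy
  by_cases hxj : x = j
  · subst hxj
    rw [Equiv.swap_apply_left] at hxy
    have h3 := hu _ _ _ hxy huv
    have h4 : y = v := by
      have : Equiv.swap x u (Equiv.swap x u y) = Equiv.swap x u v := by rw [h3]
      rw [Equiv.swap_apply_self, Equiv.swap_apply_of_ne_of_ne hvj huv.ne'] at this
      exact this
    rw [h4]
    exact h2
  · by_cases hxu : x = u
    · subst hxu
      rw [Equiv.swap_apply_right] at hxy
      have h3 := hu _ _ _ hxy hij.symm
      have h4 : y = i := by
        have : Equiv.swap j x (Equiv.swap j x y) = Equiv.swap j x i := by rw [h3]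
        rw [Equiv.swap_apply_self, Equiv.swap_apply_of_ne_of_ne hij.ne hui.symm] at this
        exact this
      rw [h4]
      exact h1.symm
    · rw [Equiv.swap_apply_of_ne_of_ne hxj hxu] at hxy
      by_cases hyj : y = j
      · subst hyj
        rw [Equiv.swap_apply_left] at hxy
        have h3 := hu _ _ _ hxy.symm huv
        rw [h3]
        exact h2.symm
      · by_cases hyu : y = u
        · subst hyu
          rw [Equiv.swap_apply_right] at hxy
          have h3 := hu _ _ _ hxy.symm hij.symm
          rw [h3]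
          exact h1
        · rw [Equiv.swap_apply_of_ne_of_ne hyj hyu] at hxy
          exact hc x y hxy

open Classical in
/-- the valid switchings of `M` -/
noncomputable def switchings (M : SimpleGraph (Fin n)) (P Q W : Finset (Fin n)) {α : Type*}
    (c : Fin n → α) : Finset (Fin n × Fin n × Fin n × Fin n) :=
  univ.filter (fun q => q.1 ∈ P ∧ q.2.1 ∈ Q ∧ M.Adj q.1 q.2.1 ∧ q.1 ∉ W ∧
    M.Adj q.2.2.1 q.2.2.2 ∧ q.2.2.1 ∉ P ∪ Q ∪ W ∧ q.2.2.2 ∉ P ∪ Q ∪ W ∧
    c q.1 ≠ c q.2.2.1 ∧ c q.2.1 ≠ c q.2.2.2)

open Classical in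
theorem switchings_card {M : SimpleGraph (Fin n)} (hM : IsOrderedMatching M)
    (P Q W : Finset (Fin n)) {α : Type*} (c : Fin n → α)
    (hc : ∀ x y, M.Adj x y → c x ≠ c y) :
    (crossEdges M P Q - W.card) * (n - 2 * (P ∪ Q ∪ W).card) ≤
      2 * (switchings M P Q W c).card := by
  have hu := matching_unique hM
  set Z := P ∪ Q ∪ W with hZ
  set A := (P ×ˢ Q).filter (fun p => M.Adj p.1 p.2 ∧ p.1 ∉ W) with hA
  set D := (univ : Finset (Fin n × Fin n)).filter (fun p => M.Adj p.1 p.2 ∧ p.1 ∉ Z ∧ p.2 ∉ Z)
    with hD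
  have hAcard : crossEdges M P Q - W.card ≤ A.card := by
    rw [Nat.sub_le_iff_le_add]
    have hsub : (P ×ˢ Q).filter (fun p => M.Adj p.1 p.2) ⊆
        A ∪ (P ×ˢ Q).filter (fun p => M.Adj p.1 p.2 ∧ p.1 ∈ W) := by
      intro p hp
      rw [mem_filter] at hp
      rw [mem_union, hA, mem_filter, mem_filter]
      by_cases h : p.1 ∈ W
      · exact Or.inr ⟨hp.1, hp.2, h⟩
      · exact Or.inl ⟨hp.1, hp.2, h⟩
    have h1 : ((P ×ˢ Q).filter (fun p => M.Adj p.1 p.2 ∧ p.1 ∈ W)).card ≤ W.card := by
      apply Finset.card_le_card_of_injOn Prod.fst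
      · intro p hp
        simp only [coe_filter, Set.mem_ofPred_eq] at hp
        exact hp.2.2
      · intro p hp q hq hpq
        simp only [coe_filter, Set.mem_ofPred_eq] at hp hq
        have h2 := hq.2.1
        rw [← hpq] at h2
        exact Prod.ext hpq (hu _ _ _ hp.2.1 h2)
    calc crossEdges M P Q ≤ _ := card_le_card hsub
      _ ≤ A.card + _ := card_union_le _ _
      _ ≤ _ := Nat.add_le_add_left h1 _
  have hDcard : n - 2 * Z.card ≤ D.card := by
    rw [Nat.sub_le_iff_le_add]
    choose p hp hpu using hM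
    have hpinj : Function.Injective p := by
      intro x y hxy
      have h1 := (hp x).symm
      have h2 := (hp y).symm
      rw [hxy] at h1
      exact hu _ _ _ h1 h2
    have hsub : (univ : Finset (Fin n)) ⊆
        univ.filter (fun u => u ∉ Z ∧ p u ∉ Z) ∪ (Z ∪ univ.filter (fun u => p u ∈ Z)) := by
      intro u _
      simp only [mem_union, mem_filter, mem_univ, true_and]
      tauto
    have h1 : (univ.filter (fun u => u ∉ Z ∧ p u ∉ Z)).card ≤ D.card := by
      apply Finset.card_le_card_of_injOn (fun u => (u, p u))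
      · intro u hu'
        simp only [coe_filter, mem_univ, true_and, Set.mem_ofPred_eq] at hu'
        simp only [hD, coe_filter, mem_univ, true_and, Set.mem_ofPred_eq]
        exact ⟨hp u, hu'⟩
      · intro x _ y _ hxy
        exact congrArg Prod.fst hxy
    have h2 : (univ.filter (fun u => p u ∈ Z)).card ≤ Z.card := by
      apply Finset.card_le_card_of_injOn p
      · intro u hu'
        simp only [coe_filter, mem_univ, true_and, Set.mem_ofPred_eq] at hu'
        exact hu'
      · exact hpinj.injOn
    calc n = (univ : Finset (Fin n)).card := by simp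
      _ ≤ _ := card_le_card hsub
      _ ≤ _ := card_union_le _ _
      _ ≤ D.card + (Z.card + Z.card) := by
        refine Nat.add_le_add h1 ((card_union_le _ _).trans (Nat.add_le_add_left h2 _))
      _ = D.card + 2 * Z.card := by ring
  refine (Nat.mul_le_mul hAcard hDcard).trans ?_
  rw [← card_product]
  -- each pair gives a valid switching, in one of the two orders
  have h3 : (A ×ˢ D).card ≤ ((univ : Finset Bool) ×ˢ (switchings M P Q W c)).card := by
    apply Finset.card_le_card_of_injOn
      (fun q : (Fin n × Fin n) × (Fin n × Fin n) =>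
        if c q.1.1 ≠ c q.2.1 ∧ c q.1.2 ≠ c q.2.2 then
          (true, (q.1.1, q.1.2, q.2.1, q.2.2))
        else (false, (q.1.1, q.1.2, q.2.2, q.2.1)))
    · rintro ⟨⟨i, j⟩, ⟨u, v⟩⟩ hq
      simp only [coe_product, Set.mem_prod, hA, hD, coe_filter, mem_univ, true_and,
        Set.mem_ofPred_eq, mem_product] at hq
      obtain ⟨⟨⟨hiP, hjQ⟩, hij, hiW⟩, huv, huZ, hvZ⟩ := hq
      simp only
      split_ifs with h
      · simp only [coe_product, Set.mem_prod, coe_univ, Set.mem_univ, true_and, mem_coe,
          switchings, mem_filter, mem_univ]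
        exact ⟨hiP, hjQ, hij, hiW, huv, huZ, hvZ, h.1, h.2⟩
      · simp only [coe_product, Set.mem_prod, coe_univ, Set.mem_univ, true_and, mem_coe,
          switchings, mem_filter, mem_univ]
        have hcij := hc i j hij
        have hcuv := hc u v huv
        refine ⟨hiP, hjQ, hij, hiW, huv.symm, hvZ, huZ, ?_, ?_⟩
        · intro h4
          apply h
          exact ⟨fun h5 => hcuv (h5.symm.trans h4), fun h5 => hcij (h4.trans h5.symm)⟩
        · intro h4
          apply h
          exact ⟨fun h5 => hcij (h5.trans h4.symm), fun h5 => hcuv (h4.symm.trans h5)⟩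
    · rintro ⟨⟨i, j⟩, ⟨u, v⟩⟩ _ ⟨⟨i', j'⟩, ⟨u', v'⟩⟩ _ heq
      simp only at heq
      split_ifs at heq <;> simp_all
  refine h3.trans ?_
  rw [card_product, card_univ, Fintype.card_bool]

open Classical in
theorem tail_halving (k r T : ℕ) (hk : 1 ≤ k) (P Q : Finset (Fin n)) (hP : P.card ≤ r)
    (hQ : Q.card ≤ r) (hPQ : Disjoint P Q) (hr : r ^ 2 ≤ n) (hn : 8 * r + 8 * k ≤ n)
    (hT : 2 * k + 8 ≤ T) :
    2 * (tailSet k P Q T).card ≤ (tailSet k P Q (T - 1)).card := by
  -- choose the witness sets and the colourings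
  have hex : ∀ M : SimpleGraph (Fin n), M ∈ matchingsWithIntervalChromaticNumber n k →
      ∃ (W : Finset (Fin n)) (c : Fin n → Fin k), W.card ≤ 2 * (k - 1) ∧
      (∀ x ∈ W, ∀ y, M.Adj x y → y ∈ W) ∧
      (∀ G' : SimpleGraph (Fin n), (∀ x ∈ W, ∀ y, M.Adj x y → G'.Adj x y) →
        ¬ IntervalColorable G' (k - 1)) ∧ Monotone c ∧ ∀ x y, M.Adj x y → c x ≠ c y := by
    rintro M ⟨hM1, hM2⟩
    rw [intervalChromaticNumber_eq_iff] at hM2
    obtain ⟨⟨c, hc1, hc2⟩, hno⟩ := hM2
    have h1 : ¬ ColFrom M 0 (k - 1) := by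
      rw [colFrom_zero_iff]
      exact hno (k - 1) (by omega)
    obtain ⟨W, hW1, hW2, hW3⟩ := exists_witness M (matching_unique hM1) (k - 1) 0 h1
    refine ⟨W, c, hW1, hW2, ?_, hc1, hc2⟩
    intro G' hG' hcol
    exact hW3 G' hG' ((colFrom_zero_iff G' _).2 hcol)
  have hne : Nonempty (Fin k) := ⟨⟨0, by omega⟩⟩
  choose! W c hWcard hWclosed hWwit hcmono hcproper using hex
  -- the relation
  let rel : SimpleGraph (Fin n) → SimpleGraph (Fin n) × (Fin n × Fin n) → Prop := fun M t =>
    ∃ u v, (t.2.1, t.2.2, u, v) ∈ switchings M P Q (W M) (c M) ∧ t.1 = sw M t.2.2 u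
  -- facts about a switching
  have hfact : ∀ M ∈ tailSet k P Q T, ∀ i j u v, (i, j, u, v) ∈ switchings M P Q (W M) (c M) →
      sw M j u ∈ tailSet k P Q (T - 1) ∧ (sw M j u).Adj i u := by
    intro M hM i j u v hs
    simp only [tailSet, mem_filter, mem_univ, true_and] at hM
    obtain ⟨hM1, hM2⟩ := hM
    simp only [switchings, mem_filter, mem_univ, true_and, mem_union, not_or] at hs
    obtain ⟨hiP, hjQ, hij, hiW, huv, ⟨⟨huP, huQ⟩, huW⟩, ⟨⟨hvP, hvQ⟩, hvW⟩, hc1, hc2⟩ := hs
    have hmat := hM1.1
    have huniq := matching_unique hmat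
    have hui : u ≠ i := fun h => huP (h ▸ hiP)
    have huj : u ≠ j := fun h => huQ (h ▸ hjQ)
    have hjW : j ∉ W M := fun h => hiW (hWclosed M hM1 j h i hij.symm)
    have hadj : (sw M j u).Adj i u := by
      rw [sw_adj, Equiv.swap_apply_of_ne_of_ne hij.ne hui.symm, Equiv.swap_apply_right]
      exact hij
    refine ⟨?_, hadj⟩
    simp only [tailSet, mem_filter, mem_univ, true_and]
    refine ⟨⟨sw_matching hmat j u, ?_⟩, ?_⟩
    · rw [intervalChromaticNumber_eq_iff]
      refine ⟨⟨c M, hcmono M hM1, sw_proper hmat hij huv hui huj (c M) (hcproper M hM1) hc1 hc2⟩,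
        ?_⟩
      intro l hl hcol
      apply hWwit M hM1 (sw M j u) _ (hcol.mono (by omega : l ≤ k - 1))
      intro x hx y hxy
      have hy := hWclosed M hM1 x hx y hxy
      rw [sw_adj_of_ne]
      · exact hxy
      · exact fun h => hjW (h ▸ hx)
      · exact fun h => huW (h ▸ hx)
      · exact fun h => hjW (h ▸ hy)
      · exact fun h => huW (h ▸ hy)
    · have hsub : (P ×ˢ Q).filter (fun p => M.Adj p.1 p.2) ⊆
          insert (i, j) ((P ×ˢ Q).filter (fun p => (sw M j u).Adj p.1 p.2)) := by
        rintro ⟨x, y⟩ hp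
        simp only [mem_filter, mem_product] at hp
        obtain ⟨⟨hxP, hyQ⟩, hxy⟩ := hp
        simp only [mem_insert, mem_filter, mem_product]
        by_cases h : x = i
        · left
          subst h
          rw [huniq _ _ _ hxy hij]
        · right
          refine ⟨⟨hxP, hyQ⟩, ?_⟩
          rw [sw_adj_of_ne]
          · exact hxy
          · rintro rfl
            exact (Finset.disjoint_left.1 hPQ hxP) hjQ
          · exact fun h => huP (h ▸ hxP)
          · rintro rfl
            exact h (huniq _ _ _ hxy.symm hij.symm)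
          · exact fun h => huQ (h ▸ hyQ)
      have h1 := (card_le_card hsub).trans (card_insert_le _ _)
      unfold crossEdges at hM2 ⊢
      omega
  have h1 : ∀ M ∈ tailSet k P Q T, 2 * n ≤
      (Finset.bipartiteAbove rel (tailSet k P Q (T - 1) ×ˢ (P ×ˢ Q)) M).card := by
    intro M hM
    have hM' := hM
    simp only [tailSet, mem_filter, mem_univ, true_and] at hM'
    obtain ⟨hM1, hM2⟩ := hM'
    have hmat := hM1.1
    have h2 := switchings_card hmat P Q (W M) (c M) (hcproper M hM1)
    have h3 : (switchings M P Q (W M) (c M)).card ≤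
        (Finset.bipartiteAbove rel (tailSet k P Q (T - 1) ×ˢ (P ×ˢ Q)) M).card := by
      apply Finset.card_le_card_of_injOn (fun q => (sw M q.2.1 q.2.2.1, (q.1, q.2.1)))
      · rintro ⟨i, j, u, v⟩ hq
        have hq' : (i, j, u, v) ∈ switchings M P Q (W M) (c M) := hq
        simp only [Finset.bipartiteAbove, coe_filter, Set.mem_ofPred_eq, mem_product]
        obtain ⟨h4, _⟩ := hfact M hM i j u v hq'
        refine ⟨⟨h4, ?_, ?_⟩, u, v, hq', rfl⟩
        · simp only [switchings, mem_filter, mem_univ, true_and] at hq'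
          exact hq'.1
        · simp only [switchings, mem_filter, mem_univ, true_and] at hq'
          exact hq'.2.1
      · rintro ⟨i, j, u, v⟩ hq ⟨i', j', u', v'⟩ hq' heq
        have hq1 : (i, j, u, v) ∈ switchings M P Q (W M) (c M) := hq
        have hq2 : (i', j', u', v') ∈ switchings M P Q (W M) (c M) := hq'
        simp only [Prod.mk.injEq] at heq
        obtain ⟨e1, e2, e3⟩ := heq
        subst e2 e3
        have h5 := (hfact M hM _ _ _ _ hq1).2
        have h6 := (hfact M hM _ _ _ _ hq2).2
        rw [← e1] at h6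
        have h7 := matching_unique (sw_matching hmat j u) _ _ _ h5 h6
        subst h7
        simp only [switchings, mem_filter, mem_univ, true_and] at hq1 hq2
        have h8 := matching_unique hmat _ _ _ hq1.2.2.2.2.1 hq2.2.2.2.2.1
        subst h8
        rfl
    have h4 : (P ∪ Q ∪ W M).card ≤ 2 * r + 2 * k := by
      have e1 := card_union_le (P ∪ Q) (W M)
      have e2 := card_union_le P Q
      have e3 := hWcard M hM1
      omega
    have h5 : 8 * (n - 2 * (2 * r + 2 * k)) ≤
        (crossEdges M P Q - (W M).card) * (n - 2 * (P ∪ Q ∪ W M).card) := by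
      apply Nat.mul_le_mul
      · have e3 := hWcard M hM1
        omega
      · omega
    omega
  have h2 : ∀ t ∈ tailSet k P Q (T - 1) ×ˢ (P ×ˢ Q),
      (Finset.bipartiteBelow rel (tailSet k P Q T) t).card ≤ 1 := by
    rintro ⟨M', i, j⟩ _
    rw [card_le_one]
    intro M1 hM1 M2 hM2
    simp only [Finset.bipartiteBelow, mem_filter, rel] at hM1 hM2
    obtain ⟨hM1, u1, v1, hs1, he1⟩ := hM1
    obtain ⟨hM2, u2, v2, hs2, he2⟩ := hM2
    have h5 := (hfact M1 hM1 _ _ _ _ hs1).2
    have h6 := (hfact M2 hM2 _ _ _ _ hs2).2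
    rw [← he1] at h5
    rw [← he2] at h6
    have hmat : IsOrderedMatching M' := by
      rw [he1]
      simp only [tailSet, mem_filter, mem_univ, true_and] at hM1
      exact sw_matching hM1.1.1 _ _
    have h7 := matching_unique hmat _ _ _ h5 h6
    subst h7
    rw [← sw_sw M1 j u1, ← he1, he2, sw_sw]
  have h3 := Finset.card_mul_le_card_mul rel h1 h2
  rw [mul_one, card_product, card_product] at h3
  have h4 : P.card * Q.card ≤ n := by
    calc P.card * Q.card ≤ r * r := Nat.mul_le_mul hP hQ
      _ = r ^ 2 := by ring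
      _ ≤ n := hr
  have h5 : (tailSet k P Q T).card * (2 * n) ≤ (tailSet k P Q (T - 1)).card * n :=
    h3.trans (Nat.mul_le_mul_left _ h4)
  have hn0 : 0 < n := by omega
  have h6 : (2 * (tailSet k P Q T).card) * n ≤ (tailSet k P Q (T - 1)).card * n := by
    calc _ = (tailSet k P Q T).card * (2 * n) := by ring
      _ ≤ _ := h5
  exact Nat.le_of_mul_le_mul_right h6 hn0

end Switch

end Pool.Agent.H13
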