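import Pool.Agent.H13.OrderedRamseyCore
import Pool.Agent.H13.OrderedRamseySwitch

/-!
Putting everything together: almost every ordered matching with interval chromatic number `k`
has `r_<(M, K_3) = O(n^{3/2} log n)`.
-/

namespace Pool.Agent.H13

open Finset

section Nonempty

/-- partner function of an explicit matching -/
def exPartner (t m v : ℕ) : ℕ :=
  if v < 2 * t then (if v % 2 = 0 then v + 1 else v - 1)
  else if v < m + t then v + (m - t) else v - (m - t)

theorem exPartner_lt {t m v : ℕ} (htm : t + 1 ≤ m) (hv : v < 2 * m) :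
    exPartner t m v < 2 * m := by
  unfold exPartner
  split_ifs <;> omega

theorem exPartner_invol {t m v : ℕ} (htm : t + 1 ≤ m) (hv : v < 2 * m) :
    exPartner t m (exPartner t m v) = v := by
  unfold exPartner
  split_ifs <;> omega

theorem exPartner_ne {t m v : ℕ} (htm : t + 1 ≤ m) (_hv : v < 2 * m) :
    exPartner t m v ≠ v := by
  unfold exPartner
  split_ifs <;> omega

/-- an explicit ordered matching on `2 m` vertices with interval chromatic number `t + 2` -/
def exMatching (t m : ℕ) (htm : t + 1 ≤ m) : SimpleGraph (Fin (2 * m)) where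
  Adj x y := exPartner t m x.val = y.val
  symm := ⟨by
    intro x y h
    rw [← h]
    exact exPartner_invol htm x.isLt⟩
  loopless := ⟨by
    intro x h
    exact exPartner_ne htm x.isLt h⟩

theorem exMatching_mem (t m : ℕ) (htm : t + 1 ≤ m) :
    exMatching t m htm ∈ matchingsWithIntervalChromaticNumber (2 * m) (t + 2) := by
  refine ⟨?_, ?_⟩
  · intro v
    refine ⟨⟨exPartner t m v.val, exPartner_lt htm v.isLt⟩, rfl, ?_⟩
    intro y hy
    exact Fin.ext (Eq.symm hy)
  · rw [intervalChromaticNumber_eq_iff]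
    constructor
    · refine ⟨fun v => ⟨if v.val < 2 * t then (v.val + 1) / 2 else if v.val < m + t then t
        else t + 1, by split_ifs <;> omega⟩, ?_, ?_⟩
      · intro x y hxy
        have h : x.val ≤ y.val := hxy
        simp only [Fin.mk_le_mk]
        split_ifs <;> omega
      · intro x y hxy h
        have h1 : exPartner t m x.val = y.val := hxy
        have hx := x.isLt
        have hy := y.isLt
        simp only [Fin.mk.injEq] at h
        unfold exPartner at h1
        split_ifs at h1 <;> split_ifs at h <;> omega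
    · rintro l hl ⟨c, hc1, hc2⟩
      have key : ∀ a, (ha : a ≤ t) → a ≤ (c ⟨2 * a, by omega⟩).val := by
        intro a
        induction a with
        | zero => intro _; exact Nat.zero_le _
        | succ a ih =>
          intro ha
          have h1 := ih (by omega)
          have h2 : c ⟨2 * a, by omega⟩ ≤ c ⟨2 * a + 1, by omega⟩ := hc1 (by
            simp only [Fin.mk_le_mk]; omega)
          have h3 : c ⟨2 * a, by omega⟩ ≠ c ⟨2 * a + 1, by omega⟩ := hc2 _ _ (by
            change exPartner t m (2 * a) = 2 * a + 1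
            unfold exPartner
            split_ifs <;> omega)
          have h4 : c ⟨2 * a + 1, by omega⟩ ≤ c ⟨2 * (a + 1), by omega⟩ := hc1 (by
            simp only [Fin.mk_le_mk]; omega)
          have h5 := lt_of_le_of_ne h2 h3
          have h6 : (c ⟨2 * a, by omega⟩).val < (c ⟨2 * a + 1, by omega⟩).val := h5
          have h7 : (c ⟨2 * a + 1, by omega⟩).val ≤ (c ⟨2 * (a + 1), by omega⟩).val := h4
          omega
      have h1 := key t le_rfl
      have h2 : c ⟨2 * t, by omega⟩ ≤ c ⟨m + t, by omega⟩ := hc1 (by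
        simp only [Fin.mk_le_mk]; omega)
      have h3 : c ⟨2 * t, by omega⟩ ≠ c ⟨m + t, by omega⟩ := hc2 _ _ (by
        change exPartner t m (2 * t) = m + t
        unfold exPartner
        split_ifs <;> omega)
      have h5 := lt_of_le_of_ne h2 h3
      have h6 : (c ⟨2 * t, by omega⟩).val < (c ⟨m + t, by omega⟩).val := h5
      have h7 := (c ⟨m + t, by omega⟩).isLt
      omega

end Nonempty

section Bad

variable {n : ℕ}

/-- the group of vertices with quotient `b` by `r` -/
def grpSet (n r b : ℕ) : Finset (Fin n) := univ.filter (fun v => v.val / r = b)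

theorem grpSet_card {r : ℕ} (hr : 0 < r) (b : ℕ) : (grpSet n r b).card ≤ r := by
  have h : (grpSet n r b).card ≤ (range r).card := by
    apply Finset.card_le_card_of_injOn (fun v => v.val % r)
    · intro v _
      simp only [coe_range, Set.mem_Iio]
      exact Nat.mod_lt _ hr
    · intro u hu v hv huv
      simp only [grpSet, coe_filter, mem_univ, true_and, Set.mem_ofPred_eq] at hu hv
      simp only at huv
      apply Fin.ext
      rw [← Nat.div_add_mod u.val r, ← Nat.div_add_mod v.val r, hu, hv, huv]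
  rwa [card_range] at h

theorem grpSet_disjoint {r b c : ℕ} (hbc : b ≠ c) : Disjoint (grpSet n r b) (grpSet n r c) := by
  rw [Finset.disjoint_left]
  intro v hv hv'
  simp only [grpSet, mem_filter, mem_univ, true_and] at hv hv'
  exact hbc (hv.symm.trans hv')

theorem groupEdges_eq (M : SimpleGraph (Fin n)) (r b c : ℕ) :
    groupEdges M r b c = crossEdges M (grpSet n r b) (grpSet n r c) := by
  unfold groupEdges crossEdges
  congr 1
  ext p
  simp only [grpSet, mem_filter, mem_univ, true_and, mem_product]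
  tauto

theorem tail_pow (k r : ℕ) (hk : 1 ≤ k) (P Q : Finset (Fin n)) (hP : P.card ≤ r)
    (hQ : Q.card ≤ r) (hPQ : Disjoint P Q) (hr : r ^ 2 ≤ n) (hn : 8 * r + 8 * k ≤ n) (j : ℕ) :
    2 ^ j * (tailSet k P Q (2 * k + 7 + j)).card ≤
      (matchingsWithIntervalChromaticNumber n k).ncard := by
  classical
  induction j with
  | zero =>
    rw [pow_zero, one_mul, Set.ncard_eq_toFinset_card']
    apply card_le_card
    intro M hM
    simp only [tailSet, mem_filter, mem_univ, true_and] at hM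
    rw [Set.mem_toFinset]
    exact hM.1
  | succ j ih =>
    have h := tail_halving k r (2 * k + 7 + (j + 1)) hk P Q hP hQ hPQ hr hn (by omega)
    have h2 : 2 * k + 7 + (j + 1) - 1 = 2 * k + 7 + j := by omega
    rw [h2] at h
    calc 2 ^ (j + 1) * (tailSet k P Q (2 * k + 7 + (j + 1))).card
        = 2 ^ j * (2 * (tailSet k P Q (2 * k + 7 + (j + 1))).card) := by ring
      _ ≤ 2 ^ j * (tailSet k P Q (2 * k + 7 + j)).card := Nat.mul_le_mul_left _ h
      _ ≤ _ := ih

/-- The matchings in the class having two groups joined by more than `μ` edges. -/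
def badSet (n k r μ : ℕ) : Set (SimpleGraph (Fin n)) :=
  {M | M ∈ matchingsWithIntervalChromaticNumber n k ∧ ∃ b c, b ≠ c ∧ μ < groupEdges M r b c}

theorem groupEdges_zero {M : SimpleGraph (Fin n)} {r b c m : ℕ} (hr : 0 < r) (hm : n ≤ m * r)
    (hbc : m ≤ b ∨ m ≤ c) : groupEdges M r b c = 0 := by
  classical
  unfold groupEdges
  rw [card_eq_zero, filter_eq_empty_iff]
  rintro ⟨x, y⟩ _ ⟨h1, h2, _⟩
  simp only at h1 h2
  have hx : x.val / r < m := by
    rw [Nat.div_lt_iff_lt_mul hr]; exact lt_of_lt_of_le x.isLt hm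
  have hy : y.val / r < m := by
    rw [Nat.div_lt_iff_lt_mul hr]; exact lt_of_lt_of_le y.isLt hm
  omega

theorem badSet_card (k r m j : ℕ) (hk : 1 ≤ k) (hr0 : 0 < r) (hr : r ^ 2 ≤ n)
    (hn : 8 * r + 8 * k ≤ n) (hm : n ≤ m * r) :
    2 ^ j * (badSet n k r (2 * k + 6 + j)).ncard ≤
      m ^ 2 * (matchingsWithIntervalChromaticNumber n k).ncard := by
  classical
  rw [Set.ncard_eq_toFinset_card' (badSet n k r (2 * k + 6 + j))]
  have hsub : (badSet n k r (2 * k + 6 + j)).toFinset ⊆
      ((range m ×ˢ range m).filter (fun p => p.1 ≠ p.2)).biUnion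
        (fun p => tailSet k (grpSet n r p.1) (grpSet n r p.2) (2 * k + 7 + j)) := by
    intro M hM
    rw [Set.mem_toFinset] at hM
    obtain ⟨h1, b, c, hbc, h2⟩ := hM
    simp only [mem_biUnion, mem_filter, mem_product, mem_range, tailSet, mem_univ, true_and]
    refine ⟨(b, c), ⟨⟨?_, ?_⟩, hbc⟩, h1, ?_⟩
    · by_contra hb
      push Not at hb
      rw [groupEdges_zero hr0 hm (Or.inl hb)] at h2
      omega
    · by_contra hc
      push Not at hc
      rw [groupEdges_zero hr0 hm (Or.inr hc)] at h2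
      omega
    · rw [← groupEdges_eq]
      change 2 * k + 7 + j ≤ groupEdges M r b c
      omega
  have h1 := (card_le_card hsub).trans card_biUnion_le
  calc 2 ^ j * ((badSet n k r (2 * k + 6 + j)).toFinset).card
      ≤ 2 ^ j * ∑ p ∈ (range m ×ˢ range m).filter (fun p => p.1 ≠ p.2),
        (tailSet k (grpSet n r p.1) (grpSet n r p.2) (2 * k + 7 + j)).card :=
        Nat.mul_le_mul_left _ h1
    _ = ∑ p ∈ (range m ×ˢ range m).filter (fun p => p.1 ≠ p.2),
        2 ^ j * (tailSet k (grpSet n r p.1) (grpSet n r p.2) (2 * k + 7 + j)).card := by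
        rw [mul_sum]
    _ ≤ ∑ p ∈ (range m ×ˢ range m).filter (fun p => p.1 ≠ p.2),
        (matchingsWithIntervalChromaticNumber n k).ncard := by
        apply sum_le_sum
        intro p hp
        rw [mem_filter] at hp
        exact tail_pow k r hk _ _ (grpSet_card hr0 _) (grpSet_card hr0 _)
          (grpSet_disjoint hp.2) hr hn j
    _ = ((range m ×ˢ range m).filter (fun p => p.1 ≠ p.2)).card *
        (matchingsWithIntervalChromaticNumber n k).ncard := by
        rw [sum_const, smul_eq_mul]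
    _ ≤ m ^ 2 * (matchingsWithIntervalChromaticNumber n k).ncard := by
        apply Nat.mul_le_mul_right
        calc _ ≤ (range m ×ˢ range m).card := card_filter_le _ _
          _ = m ^ 2 := by rw [card_product, card_range, sq]

/-- the deterministic bound, for the matchings outside the bad set -/
theorem ramsey_le_of_not_bad (M : SimpleGraph (Fin n)) (k r m w μ : ℕ)
    (hM : M ∈ matchingsWithIntervalChromaticNumber n k) (hr : 0 < r) (hw : 0 < w)
    (hm : n ≤ m * r) (hwr : 8 * μ * n ≤ w * r) (hbad : M ∉ badSet n k r μ) :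
    orderedRamsey M (⊤ : SimpleGraph (Fin 3)) ≤ 2 * r * (n + m * w) := by
  apply Nat.sInf_le
  intro R
  apply core M (matching_unique hM.1) r m w μ hr hw hm _ hwr R le_rfl
  intro b c hbc
  by_contra hcon
  push Not at hcon
  exact hbad ⟨hM, b, c, hbc, hcon⟩

end Bad

section Asymptotics

/-- The explicit bound, in natural numbers. -/
theorem bound_nat (n k : ℕ) (hr16 : 17 ≤ Nat.sqrt n) :
    2 * Nat.sqrt n * (n + (n / Nat.sqrt n + 1) *
      (8 * (2 * k + 6 + 2 * (Nat.log 2 n + 1)) * n / Nat.sqrt n + 1)) ≤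
      42 * (2 * k + 8 + 2 * Nat.log 2 n) * (Nat.sqrt n * n) := by
  set r := Nat.sqrt n with hr
  set μ := 2 * k + 6 + 2 * (Nat.log 2 n + 1) with hμ
  have hμ' : 2 * k + 8 + 2 * Nat.log 2 n = μ := by omega
  rw [hμ']
  have hr0 : 0 < r := by omega
  have hμ1 : 1 ≤ μ := by omega
  have h1 : n ≤ r * (r + 2) := by
    have := Nat.lt_succ_sqrt n
    rw [← hr, Nat.succ_eq_add_one] at this
    nlinarith
  have h2 : n / r ≤ r + 2 := Nat.div_le_of_le_mul h1
  have h3 : 8 * μ * n / r ≤ 8 * μ * (r + 2) := by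
    apply Nat.div_le_of_le_mul
    calc 8 * μ * n ≤ 8 * μ * (r * (r + 2)) := Nat.mul_le_mul_left _ h1
      _ = r * (8 * μ * (r + 2)) := by ring
  have h4 : 8 * μ * n / r + 1 ≤ 10 * μ * r := by nlinarith
  have h5 : n / r + 1 ≤ 2 * r := by omega
  have h6 : r * r ≤ n := Nat.sqrt_le n
  calc 2 * r * (n + (n / r + 1) * (8 * μ * n / r + 1))
      ≤ 2 * r * (n + (2 * r) * (10 * μ * r)) := by
        apply Nat.mul_le_mul_left
        apply Nat.add_le_add_left
        exact Nat.mul_le_mul h5 h4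
    _ = 2 * r * (n + 20 * μ * (r * r)) := by ring
    _ ≤ 2 * r * (n + 20 * μ * n) := by
        apply Nat.mul_le_mul_left
        apply Nat.add_le_add_left
        exact Nat.mul_le_mul_left _ h6
    _ = (2 + 40 * μ) * (r * n) := by ring
    _ ≤ 42 * μ * (r * n) := by
        apply Nat.mul_le_mul_right
        omega

/-- The explicit bound, in real numbers. -/
theorem bound_real (n k : ℕ) (hn : 3 ≤ n) :
    ((42 * (2 * k + 8 + 2 * Nat.log 2 n) * (Nat.sqrt n * n) : ℕ) : ℝ) ≤
      42 * (2 * k + 11) * ((n : ℝ) ^ (3 / 2 : ℝ) * Real.log n) := by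
  have hn0 : (0 : ℝ) < n := by
    have : 0 < n := by omega
    exact_mod_cast this
  have hlog1 : 1 ≤ Real.log n := by
    rw [← Real.log_exp 1]
    apply Real.log_le_log (Real.exp_pos 1)
    have h1 : Real.exp 1 < 2.7182818286 := Real.exp_one_lt_d9
    have h2 : (3 : ℝ) ≤ n := by exact_mod_cast hn
    linarith
  have hlog2 : (Nat.log 2 n : ℝ) ≤ 3 / 2 * Real.log n := by
    have h1 : (Nat.log 2 n : ℝ) ≤ Real.logb 2 n := Real.natLog_le_logb n 2
    have h2 : Real.logb 2 n = Real.log n / Real.log 2 := rfl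
    have h3 : 0.6931471803 < Real.log 2 := Real.log_two_gt_d9
    rw [h2] at h1
    refine h1.trans ?_
    rw [div_le_iff₀ (by linarith)]
    nlinarith
  have hsqrt : (Nat.sqrt n : ℝ) ≤ (n : ℝ) ^ (1 / 2 : ℝ) := by
    rw [← Real.sqrt_eq_rpow]
    exact Real.nat_sqrt_le_real_sqrt
  have hpow : (n : ℝ) ^ (3 / 2 : ℝ) = (n : ℝ) ^ (1 / 2 : ℝ) * n := by
    rw [show (3 / 2 : ℝ) = 1 / 2 + 1 by norm_num, Real.rpow_add hn0, Real.rpow_one]
  push_cast
  rw [hpow]
  have hk : (0 : ℝ) ≤ k := Nat.cast_nonneg k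
  have h1 : (2 * (k : ℝ) + 8 + 2 * Nat.log 2 n) ≤ (2 * k + 11) * Real.log n := by nlinarith
  have h2 : (Nat.sqrt n : ℝ) * n ≤ (n : ℝ) ^ (1 / 2 : ℝ) * n :=
    mul_le_mul_of_nonneg_right hsqrt hn0.le
  have h3 : (0 : ℝ) ≤ (Nat.sqrt n : ℝ) * n := by positivity
  have h4 : (0 : ℝ) ≤ (2 * k + 11) * Real.log n := by positivity
  calc 42 * (2 * (k : ℝ) + 8 + 2 * Nat.log 2 n) * (Nat.sqrt n * n)
      = 42 * ((2 * (k : ℝ) + 8 + 2 * Nat.log 2 n) * (Nat.sqrt n * n)) := by ring
    _ ≤ 42 * (((2 * k + 11) * Real.log n) * ((n : ℝ) ^ (1 / 2 : ℝ) * n)) := by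
        apply mul_le_mul_of_nonneg_left _ (by norm_num)
        exact mul_le_mul h1 h2 h3 h4
    _ = _ := by ring

/-- the fraction of bad matchings is at most `4 / n` -/
theorem bad_fraction (n k : ℕ) (hk : 1 ≤ k) (hr17 : 17 ≤ Nat.sqrt n) (hnk : 16 * k ≤ n) :
    n * (badSet n k (Nat.sqrt n) (2 * k + 6 + 2 * (Nat.log 2 n + 1))).ncard ≤
      4 * (matchingsWithIntervalChromaticNumber n k).ncard := by
  set r := Nat.sqrt n with hr
  have hr0 : 0 < r := by omega
  have h6 : r * r ≤ n := Nat.sqrt_le n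
  have h1 : n ≤ r * (r + 2) := by
    have := Nat.lt_succ_sqrt n
    rw [← hr, Nat.succ_eq_add_one] at this
    nlinarith
  have h2 : n / r ≤ r + 2 := Nat.div_le_of_le_mul h1
  have hm : n ≤ (n / r + 1) * r := by
    have := Nat.div_add_mod n r
    have h3 := Nat.mod_lt n hr0
    nlinarith
  have h7 := badSet_card (n := n) k r (n / r + 1) (2 * (Nat.log 2 n + 1)) hk hr0
    (by rw [sq]; exact h6) (by nlinarith) hm
  have h8 : n ^ 2 ≤ 2 ^ (2 * (Nat.log 2 n + 1)) := by
    have h9 : n < 2 ^ (Nat.log 2 n + 1) := Nat.lt_pow_succ_log_self (by norm_num) n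
    calc n ^ 2 ≤ (2 ^ (Nat.log 2 n + 1)) ^ 2 := Nat.pow_le_pow_left h9.le 2
      _ = _ := by rw [← pow_mul, mul_comm]
  have h10 : (n / r + 1) ^ 2 ≤ 4 * n := by
    have : n / r + 1 ≤ 2 * r := by omega
    calc (n / r + 1) ^ 2 ≤ (2 * r) ^ 2 := Nat.pow_le_pow_left this 2
      _ = 4 * (r * r) := by ring
      _ ≤ 4 * n := Nat.mul_le_mul_left _ h6
  have hn0 : 0 < n := by nlinarith
  have h11 : n * (n * (badSet n k r (2 * k + 6 + 2 * (Nat.log 2 n + 1))).ncard) ≤
      n * (4 * (matchingsWithIntervalChromaticNumber n k).ncard) := by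
    calc n * (n * (badSet n k r (2 * k + 6 + 2 * (Nat.log 2 n + 1))).ncard)
        = n ^ 2 * (badSet n k r (2 * k + 6 + 2 * (Nat.log 2 n + 1))).ncard := by ring
      _ ≤ 2 ^ (2 * (Nat.log 2 n + 1)) *
          (badSet n k r (2 * k + 6 + 2 * (Nat.log 2 n + 1))).ncard :=
          Nat.mul_le_mul_right _ h8
      _ ≤ (n / r + 1) ^ 2 * (matchingsWithIntervalChromaticNumber n k).ncard := h7
      _ ≤ (4 * n) * (matchingsWithIntervalChromaticNumber n k).ncard :=
          Nat.mul_le_mul_right _ h10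
      _ = _ := by ring
  exact Nat.le_of_mul_le_mul_left h11 hn0

/-- outside the bad set the bound holds -/
theorem bound_of_not_bad (n k : ℕ) (hr17 : 17 ≤ Nat.sqrt n)
    (M : SimpleGraph (Fin n)) (hM : M ∈ matchingsWithIntervalChromaticNumber n k)
    (hbad : M ∉ badSet n k (Nat.sqrt n) (2 * k + 6 + 2 * (Nat.log 2 n + 1))) :
    (orderedRamsey M (⊤ : SimpleGraph (Fin 3)) : ℝ) ≤
      42 * (2 * k + 11) * ((n : ℝ) ^ (3 / 2 : ℝ) * Real.log n) := by
  set r := Nat.sqrt n with hr
  have hr0 : 0 < r := by omega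
  have h6 : r * r ≤ n := Nat.sqrt_le n
  have hn3 : 3 ≤ n := by nlinarith
  refine le_trans ?_ (bound_real n k hn3)
  have hm : n ≤ (n / r + 1) * r := by
    have := Nat.div_add_mod n r
    have h3 := Nat.mod_lt n hr0
    nlinarith
  have hw : 8 * (2 * k + 6 + 2 * (Nat.log 2 n + 1)) * n ≤
      (8 * (2 * k + 6 + 2 * (Nat.log 2 n + 1)) * n / r + 1) * r := by
    have := Nat.div_add_mod (8 * (2 * k + 6 + 2 * (Nat.log 2 n + 1)) * n) r
    have h3 := Nat.mod_lt (8 * (2 * k + 6 + 2 * (Nat.log 2 n + 1)) * n) hr0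
    nlinarith
  have h1 := ramsey_le_of_not_bad M k r (n / r + 1)
    (8 * (2 * k + 6 + 2 * (Nat.log 2 n + 1)) * n / r + 1)
    (2 * k + 6 + 2 * (Nat.log 2 n + 1)) hM hr0 (Nat.succ_pos _) hm hw hbad
  exact_mod_cast h1.trans (bound_nat n k hr17)

theorem almostEvery_of_bad (k : ℕ) (hk : 2 ≤ k) (P : (n : ℕ) → SimpleGraph (Fin n) → Prop)
    (bad : (n : ℕ) → Set (SimpleGraph (Fin n)))
    (h1 : ∀ᶠ n : ℕ in Filter.atTop,
      n * (bad n).ncard ≤ 4 * (matchingsWithIntervalChromaticNumber n k).ncard)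
    (h2 : ∀ᶠ n : ℕ in Filter.atTop, ∀ M ∈ matchingsWithIntervalChromaticNumber n k,
      M ∉ bad n → P n M) :
    AlmostEveryMatching k P := by
  unfold AlmostEveryMatching
  have htend : Filter.Tendsto (fun m : ℕ => 2 * m) Filter.atTop Filter.atTop :=
    Filter.tendsto_id.const_mul_atTop' (by norm_num : 0 < 2)
  have h1' := htend.eventually h1
  have h2' := htend.eventually h2
  have hlim : Filter.Tendsto (fun m : ℕ => 1 - 4 / ((2 * m : ℕ) : ℝ)) Filter.atTop (nhds 1) := by
    have h3 : Filter.Tendsto (fun m : ℕ => (4 : ℝ) / ((2 * m : ℕ) : ℝ)) Filter.atTop (nhds 0) :=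
      (tendsto_const_div_atTop_nhds_zero_nat 4).comp htend
    have h4 := h3.const_sub 1
    simpa using h4
  refine tendsto_of_tendsto_of_tendsto_of_le_of_le' hlim tendsto_const_nhds ?_ ?_
  · filter_upwards [h1', h2', Filter.eventually_ge_atTop k] with m hm1 hm2 hmk
    set n := 2 * m with hn
    set A := matchingsWithIntervalChromaticNumber n k with hA
    have hApos : 0 < A.ncard := by
      rw [Set.ncard_pos]
      obtain ⟨t, rfl⟩ : ∃ t, k = t + 2 := ⟨k - 2, by omega⟩
      exact ⟨_, exMatching_mem t m (by omega)⟩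
    have hn0 : 0 < n := by omega
    have hsub : A ⊆ {M ∈ A | P n M} ∪ bad n := by
      intro M hM
      by_cases hb : M ∈ bad n
      · exact Or.inr hb
      · exact Or.inl ⟨hM, hm2 M hM hb⟩
    have hcard : A.ncard ≤ {M ∈ A | P n M}.ncard + (bad n).ncard :=
      (Set.ncard_le_ncard hsub).trans (Set.ncard_union_le _ _)
    have hcard' : (A.ncard : ℝ) ≤ {M ∈ A | P n M}.ncard + (bad n).ncard := by exact_mod_cast hcard
    have hbad' : (n : ℝ) * (bad n).ncard ≤ 4 * A.ncard := by exact_mod_cast hm1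
    have hApos' : (0 : ℝ) < A.ncard := by exact_mod_cast hApos
    have hn0' : (0 : ℝ) < n := by exact_mod_cast hn0
    rw [le_div_iff₀ hApos']
    have h5 : ((bad n).ncard : ℝ) ≤ 4 / n * A.ncard := by
      rw [div_mul_eq_mul_div, le_div_iff₀ hn0']
      linarith
    have h6 : (1 - 4 / (n : ℝ)) * A.ncard = A.ncard - 4 / n * A.ncard := by ring
    rw [h6]
    linarith
  · filter_upwards with m
    apply div_le_one_of_le₀
    · exact Nat.cast_le.2 (Set.ncard_le_ncard (Set.sep_subset _ _))
    · positivity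

/-- **Main theorem.** For every `k ≥ 2` there is a constant `C` such that almost every ordered
matching `M` on `n` vertices with `χ_<(M) = k` satisfies `r_<(M, K_3) ≤ C n^{3/2} log n`. -/
theorem main_log (k : ℕ) (hk : 2 ≤ k) :
    ∃ C : ℝ, 0 < C ∧ AlmostEveryMatching k (fun n M =>
      (orderedRamsey M (⊤ : SimpleGraph (Fin 3)) : ℝ) ≤
        C * ((n : ℝ) ^ (3 / 2 : ℝ) * Real.log n)) := by
  refine ⟨42 * (2 * k + 11), by positivity, ?_⟩
  apply almostEvery_of_bad k hk _
    (fun n => badSet n k (Nat.sqrt n) (2 * k + 6 + 2 * (Nat.log 2 n + 1)))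
  · filter_upwards [Filter.eventually_ge_atTop (17 * 17), Filter.eventually_ge_atTop (16 * k)]
      with n hn1 hn2
    exact bad_fraction n k (by omega) (Nat.le_sqrt.2 hn1) hn2
  · filter_upwards [Filter.eventually_ge_atTop (17 * 17)] with n hn1 M hM hbad
    exact bound_of_not_bad n k (Nat.le_sqrt.2 hn1) M hM hbad

theorem AlmostEveryMatching.mono {k : ℕ} {P Q : (n : ℕ) → SimpleGraph (Fin n) → Prop}
    (hP : AlmostEveryMatching k P)
    (h : ∀ᶠ n : ℕ in Filter.atTop, ∀ M, P n M → Q n M) : AlmostEveryMatching k Q := by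
  unfold AlmostEveryMatching at hP ⊢
  have htend : Filter.Tendsto (fun m : ℕ => 2 * m) Filter.atTop Filter.atTop :=
    Filter.tendsto_id.const_mul_atTop' (by norm_num : 0 < 2)
  have h' := htend.eventually h
  refine tendsto_of_tendsto_of_tendsto_of_le_of_le' hP tendsto_const_nhds ?_ ?_
  · filter_upwards [h'] with m hm
    apply div_le_div_of_nonneg_right _ (by positivity)
    have hsub : {M ∈ matchingsWithIntervalChromaticNumber (2 * m) k | P (2 * m) M} ⊆
        {M ∈ matchingsWithIntervalChromaticNumber (2 * m) k | Q (2 * m) M} :=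
      fun M hM => ⟨hM.1, hm M hM.2⟩
    exact Nat.cast_le.2 (Set.ncard_le_ncard hsub)
  · filter_upwards with m
    apply div_le_one_of_le₀
    · exact Nat.cast_le.2 (Set.ncard_le_ncard (Set.sep_subset _ _))
    · positivity

theorem main_rpow (k : ℕ) (hk : 2 ≤ k) (ε : ℝ) (hε : ε < 1 / 2) :
    ∃ C : ℝ, 0 < C ∧ AlmostEveryMatching k (fun n M =>
      (orderedRamsey M (⊤ : SimpleGraph (Fin 3)) : ℝ) ≤ C * (n : ℝ) ^ (2 - ε)) := by
  obtain ⟨C, hC, hmain⟩ := main_log k hk
  refine ⟨C, hC, hmain.mono ?_⟩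
  have hs : 0 < 1 / 2 - ε := by linarith
  have h1 := (isLittleO_log_rpow_atTop hs).bound (show (0 : ℝ) < 1 by norm_num)
  have h2 := tendsto_natCast_atTop_atTop (R := ℝ) |>.eventually h1
  filter_upwards [h2, Filter.eventually_ge_atTop 1] with n hn hn1 M hM
  have hn0 : (0 : ℝ) < n := by exact_mod_cast hn1
  refine hM.trans ?_
  apply mul_le_mul_of_nonneg_left _ hC.le
  have h3 : Real.log n ≤ (n : ℝ) ^ (1 / 2 - ε) := by
    rw [one_mul, Real.norm_eq_abs, Real.norm_eq_abs] at hn
    refine (le_abs_self _).trans (hn.trans ?_)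
    rw [abs_of_nonneg (by positivity)]
  calc (n : ℝ) ^ (3 / 2 : ℝ) * Real.log n ≤ (n : ℝ) ^ (3 / 2 : ℝ) * (n : ℝ) ^ (1 / 2 - ε) := by
        apply mul_le_mul_of_nonneg_left h3 (by positivity)
    _ = (n : ℝ) ^ (2 - ε) := by
        rw [← Real.rpow_add hn0]
        congr 1
        ring

end Asymptotics

section Sanity

/-- Sanity check: the set whose least element defines `r_<(M, K_3)` is not empty, and it is
upward closed, so `orderedRamsey M K_3` is the true ordered Ramsey number. -/
theorem orderedRamsey_spec {n : ℕ} (M : SimpleGraph (Fin n)) (hM : IsOrderedMatching M)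
    (N : ℕ) (hN : orderedRamsey M (⊤ : SimpleGraph (Fin 3)) ≤ N) (R : SimpleGraph (Fin N)) :
    OrderedContains M R ∨ OrderedContains (⊤ : SimpleGraph (Fin 3)) Rᶜ := by
  classical
  have hne : {N : ℕ | ∀ R : SimpleGraph (Fin N), OrderedContains M R ∨
      OrderedContains (⊤ : SimpleGraph (Fin 3)) Rᶜ}.Nonempty := by
    refine ⟨2 * 1 * (n + n * (8 * 1 * n + 1)), fun R => ?_⟩
    apply core M (matching_unique hM) 1 n (8 * 1 * n + 1) 1 one_pos (Nat.succ_pos _) (by omega) _
      (by omega) R le_rfl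
    intro b c _
    unfold groupEdges
    rw [card_le_one]
    rintro ⟨x, y⟩ h1 ⟨x', y'⟩ h2
    simp only [mem_filter, mem_univ, true_and, Nat.div_one] at h1 h2
    have h3 : x = x' := Fin.ext (h1.1.trans h2.1.symm)
    have h4 : y = y' := Fin.ext (h1.2.1.trans h2.2.1.symm)
    rw [h3, h4]
  have hmem : ∀ R : SimpleGraph (Fin (orderedRamsey M (⊤ : SimpleGraph (Fin 3)))),
      OrderedContains M R ∨ OrderedContains (⊤ : SimpleGraph (Fin 3)) Rᶜ := Nat.sInf_mem hne
  -- restrict the colouring to the first vertices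
  have hN' : orderedRamsey M (⊤ : SimpleGraph (Fin 3)) ≤ N := hN
  have h := hmem (R.comap (Fin.castLE hN'))
  have key : ∀ {a : ℕ} (H : SimpleGraph (Fin a)) (G : SimpleGraph (Fin N)),
      OrderedContains H (G.comap (Fin.castLE hN')) → OrderedContains H G := by
    rintro a H G ⟨f, hf, hadj⟩
    exact ⟨fun i => Fin.castLE hN' (f i), fun i j hij => hf hij, fun i j hij => hadj i j hij⟩
  rcases h with h | h
  · exact Or.inl (key M R h)
  · right
    apply key
    obtain ⟨f, hf, hadj⟩ := h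
    refine ⟨f, hf, fun i j hij => ?_⟩
    have h1 := hadj i j hij
    rw [SimpleGraph.compl_adj] at h1
    rw [SimpleGraph.comap_adj, SimpleGraph.compl_adj]
    exact ⟨fun h2 => h1.1 (Fin.castLE_injective hN' h2), h1.2⟩

end Sanity

end Pool.Agent.H13
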