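import Mathlib

/-!
# Strong Nine Dragon Tree decompositions by eliminating vertices with at most two neighbours

Instances are pairs `(E, q)`: a graph `E` of plain edges and a symmetric weight `q`, the number
of parallel paths of length two.  A solution consists of two forests and of an assignment of the
units of `q`.
-/

namespace Pool.Agent.H13.Sndt

open SimpleGraph Finset
open scoped Classical

variable {V : Type*}

theorem reach_map {W : Type*} {G : SimpleGraph V} {H : SimpleGraph W} (f : V → W)
    (h : ∀ a b, G.Adj a b → H.Reachable (f a) (f b)) {a b : V} (hab : G.Reachable a b) :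
    H.Reachable (f a) (f b) := by
  rw [SimpleGraph.reachable_iff_reflTransGen] at hab
  induction hab with
  | refl => exact Reachable.refl _
  | tail _ h2 ih => exact ih.trans (h _ _ h2)

/-- `v` has no neighbour. -/
def Isol (G : SimpleGraph V) (v : V) : Prop := ∀ w, ¬ G.Adj v w

theorem Isol.not_reach {G : SimpleGraph V} {v w : V} (h : Isol G v) (hw : w ≠ v) :
    ¬ G.Reachable v w := by
  intro hr
  rw [reachable_iff_reflTransGen] at hr
  rcases Relation.ReflTransGen.cases_head hr with h1 | ⟨c, hc, _⟩
  · exact hw h1.symm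
  · exact h _ hc

theorem Isol.not_reach' {G : SimpleGraph V} {v w : V} (h : Isol G v) (hw : w ≠ v) :
    ¬ G.Reachable w v := fun hr => h.not_reach hw hr.symm

theorem adj_edge {a b x y : V} : (edge x y).Adj a b ↔
    ((a = x ∧ b = y) ∨ (a = y ∧ b = x)) ∧ a ≠ b := by
  rw [edge_adj]

/-- Adding a leaf. -/
theorem leaf_acyclic {G : SimpleGraph V} {v x : V} (h : Isol G v) (hx : x ≠ v)
    (hG : G.IsAcyclic) : (G ⊔ edge v x).IsAcyclic :=
  IsAcyclic.sup_edge_of_not_reachable (h.not_reach hx) hG

theorem leaf_reach {G : SimpleGraph V} {v x : V} (h : Isol G v) (hx : x ≠ v) {c d : V}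
    (hcd : (G ⊔ edge v x).Reachable c d) :
    G.Reachable (if c = v then x else c) (if d = v then x else d) := by
  refine reach_map (fun a => if a = v then x else a) ?_ hcd
  intro a b hab
  rcases hab with hab | hab
  · have ha : a ≠ v := fun e => h b (e ▸ hab)
    have hb : b ≠ v := fun e => h a (e ▸ hab.symm)
    simp only [ha, hb, if_false]
    exact hab.reachable
  · rw [adj_edge] at hab
    rcases hab with ⟨⟨rfl, rfl⟩ | ⟨rfl, rfl⟩, _⟩
    · simp [hx]
    · simp [hx]

/-- Adding a vertex with two neighbours in different components. -/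
theorem two_leaf_acyclic {G : SimpleGraph V} {v x y : V} (h : Isol G v) (hx : x ≠ v) (hy : y ≠ v)
    (hxy : ¬ G.Reachable x y) (hG : G.IsAcyclic) : (G ⊔ edge v x ⊔ edge v y).IsAcyclic := by
  apply IsAcyclic.sup_edge_of_not_reachable _ (leaf_acyclic h hx hG)
  intro hr
  have := leaf_reach h hx hr
  simp only [if_true, hy, if_false] at this
  exact hxy this

/-- Deleting an edge of a forest separates its ends. -/
theorem del_not_reach {G : SimpleGraph V} {x y : V} (hG : G.IsAcyclic) (h : G.Adj x y) :
    ¬ (G.deleteEdges {s(x, y)}).Reachable x y := by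
  have := isAcyclic_iff_forall_adj_isBridge.1 hG h
  exact isBridge_iff.1 this

theorem del_acyclic {G : SimpleGraph V} {x y : V} (hG : G.IsAcyclic) :
    (G.deleteEdges {s(x, y)}).IsAcyclic := hG.anti (deleteEdges_le _)

theorem del_adj {G : SimpleGraph V} {x y a b : V} : (G.deleteEdges {s(x, y)}).Adj a b ↔
    G.Adj a b ∧ ¬ ((a = x ∧ b = y) ∨ (a = y ∧ b = x)) := by
  rw [deleteEdges_adj, Set.mem_singleton_iff, Sym2.eq_iff]

variable [Fintype V]

/-- The component of `u`. -/
noncomputable def cmp (B : SimpleGraph V) (u : V) : Finset V :=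
  univ.filter (fun w => B.Reachable u w)

@[simp] theorem mem_cmp {B : SimpleGraph V} {u w : V} : w ∈ cmp B u ↔ B.Reachable u w := by
  simp [cmp]

/-- Solutions of the instance `(E, q)` with an additional weight `ε` on the vertices. -/
structure Sol (D : ℕ) (E : SimpleGraph V) (q : V → V → ℕ) (ε : V → ℕ)
    (A B : SimpleGraph V) (l : V → V → ℕ) : Prop where
  acA : A.IsAcyclic
  acB : B.IsAcyclic
  cov : ∀ a b, E.Adj a b → (A.Adj a b ↔ ¬ B.Adj a b)
  sub : ∀ a b, B.Adj a b → E.Adj a b
  ld : ∀ a b, a ≠ b → l a b + l b a + (if A.Adj a b ∧ ¬ E.Adj a b then 1 else 0) = q a b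
  diag : ∀ a, l a a = 0
  wt : ∀ u, ∑ w ∈ cmp B u, (1 + (∑ z, l w z) + ε w) < D

/-- The instance `(E, q)` is solvable. -/
def Solv (D : ℕ) (E : SimpleGraph V) (q : V → V → ℕ) : Prop :=
  ∃ A B l, Sol D E q (fun _ => 0) A B l

/-- `(E0, q0)` is the instance `(E, q)` with the vertex `v` made isolated. -/
structure Drop (E E0 : SimpleGraph V) (q q0 : V → V → ℕ) (v : V) : Prop where
  adj : ∀ a b, E0.Adj a b ↔ E.Adj a b ∧ a ≠ v ∧ b ≠ v
  q1 : ∀ a b, a ≠ v → b ≠ v → q0 a b = q a b
  q2 : ∀ b, q0 v b = 0
  q3 : ∀ b, q0 b v = 0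
  sym : ∀ a b, q a b = q b a

section Step

variable {D : ℕ} {E E0 : SimpleGraph V} {q q0 : V → V → ℕ} {v : V} {ε : V → ℕ}
  {A B A' B' : SimpleGraph V} {l : V → V → ℕ}

theorem Sol.isolA (h : Sol D E0 q0 ε A B l) (hd : Drop E E0 q q0 v) : Isol A v := by
  intro w hw
  have h1 := h.ld v w hw.ne
  rw [hd.q2, if_pos ⟨hw, fun h => ((hd.adj _ _).1 h).2.1 rfl⟩] at h1
  omega

theorem Sol.isolB (h : Sol D E0 q0 ε A B l) (hd : Drop E E0 q q0 v) : Isol B v := by
  intro w hw
  exact ((hd.adj _ _).1 (h.sub _ _ hw)).2.1 rfl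

theorem Sol.lv (h : Sol D E0 q0 ε A B l) (hd : Drop E E0 q q0 v) (w : V) : l v w = 0 := by
  by_cases hw : w = v
  · rw [hw]; exact h.diag v
  · have h1 := h.ld v w (Ne.symm hw)
    rw [hd.q2] at h1
    omega

theorem Sol.lv' (h : Sol D E0 q0 ε A B l) (hd : Drop E E0 q q0 v) (w : V) : l w v = 0 := by
  by_cases hw : w = v
  · rw [hw]; exact h.diag v
  · have h1 := h.ld v w (Ne.symm hw)
    rw [hd.q2] at h1
    omega

/-- New loads. -/
noncomputable def nl (v : V) (r s : V → ℕ) (l : V → V → ℕ) (a b : V) : ℕ :=
  if a = v then (if b = v then 0 else r b) else if b = v then s a else l a b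

theorem nl_sum_v {r s : V → ℕ} (hr : r v = 0) : ∑ z, nl v r s l v z = ∑ z, r z := by
  apply Finset.sum_congr rfl
  intro z _
  unfold nl
  by_cases hz : z = v
  · simp [hz, hr]
  · simp [hz]

theorem nl_sum_ne {r s : V → ℕ} {w : V} (hw : w ≠ v) (hl : l w v = 0) :
    ∑ z, nl v r s l w z = ∑ z, l w z + s w := by
  have h1 : ∀ z, nl v r s l w z = l w z + (if z = v then s w else 0) := by
    intro z
    unfold nl
    by_cases hz : z = v
    · subst hz; simp [hw, hl]
    · simp [hw, hz]
  rw [Finset.sum_congr rfl (fun z _ => h1 z), Finset.sum_add_distrib]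
  simp

theorem nl_ld (h : Sol D E0 q0 ε A B l) (hd : Drop E E0 q q0 v) {r s : V → ℕ} {t : V → Prop}
    (hA' : ∀ a b, A'.Adj a b ↔ A.Adj a b ∨ (a = v ∧ t b) ∨ (b = v ∧ t a)) 
    (hrs : ∀ z, z ≠ v → r z + s z + (if t z ∧ ¬ E.Adj v z then 1 else 0) = q v z)
    (a b : V) (hab : a ≠ b) :
    nl v r s l a b + nl v r s l b a + (if A'.Adj a b ∧ ¬ E.Adj a b then 1 else 0) = q a b := by
  have hiA := h.isolA hd
  unfold nl
  by_cases ha : a = v
  · subst ha
    have hb : b ≠ a := Ne.symm hab
    have h1 : A'.Adj a b ↔ t b := by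
      rw [hA']
      constructor
      · rintro (h1 | h1 | h1)
        · exact absurd h1 (hiA _)
        · exact h1.2
        · exact absurd h1.1 hb
      · intro h1; exact Or.inr (Or.inl ⟨rfl, h1⟩)
    simp only [if_true, hb, if_false, h1]
    exact hrs b hb
  · by_cases hb : b = v
    · subst hb
      have h1 : A'.Adj a b ↔ t a := by
        rw [hA']
        constructor
        · rintro (h1 | h1 | h1)
          · exact absurd h1.symm (hiA _)
          · exact absurd h1.1 ha
          · exact h1.2
        · intro h1; exact Or.inr (Or.inr ⟨rfl, h1⟩)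
      simp only [ha, if_false, if_true, h1]
      have h2 := hrs a ha
      rw [hd.sym a b, E.adj_comm a b]
      omega
    · have h1 : A'.Adj a b ↔ A.Adj a b := by
        rw [hA']
        constructor
        · rintro (h1 | h1 | h1)
          · exact h1
          · exact absurd h1.1 ha
          · exact absurd h1.1 hb
        · intro h1; exact Or.inl h1
      have h2 : E0.Adj a b ↔ E.Adj a b := by
        rw [hd.adj]; exact ⟨fun h => h.1, fun h => ⟨h, ha, hb⟩⟩
      simp only [ha, hb, if_false, h1]
      have h3 := h.ld a b hab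
      rw [hd.q1 a b ha hb] at h3
      simp only [h2] at h3
      exact h3

/-- Adding `v` without an edge of the second forest. -/
theorem step1 (h : Sol D E0 q0 ε A B l) (hd : Drop E E0 q q0 v) {r s : V → ℕ} {t : V → Prop}
    (hA'a : A'.IsAcyclic)
    (hA' : ∀ a b, A'.Adj a b ↔ A.Adj a b ∨ (a = v ∧ t b) ∨ (b = v ∧ t a))
    (hr : r v = 0)
    (hrs : ∀ z, z ≠ v → r z + s z + (if t z ∧ ¬ E.Adj v z then 1 else 0) = q v z)
    (hE : ∀ z, E.Adj v z → t z) (hs : ∀ z, z ≠ v → s z ≤ ε z) (hw : 1 + ∑ z, r z < D) :
    Solv D E q := by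
  have hiA := h.isolA hd
  have hiB := h.isolB hd
  refine ⟨A', B, nl v r s l, hA'a, h.acB, ?_, ?_, nl_ld h hd hA' hrs, ?_, ?_⟩
  · intro a b hab
    by_cases ha : a = v
    · subst ha
      refine ⟨fun _ => hiB _, fun _ => (hA' _ _).2 (Or.inr (Or.inl ⟨rfl, hE _ hab⟩))⟩
    · by_cases hb : b = v
      · subst hb
        refine ⟨fun _ h1 => hiB _ h1.symm, fun _ => (hA' _ _).2 (Or.inr (Or.inr ⟨rfl, hE _ hab.symm⟩))⟩
      · rw [← h.cov a b ((hd.adj a b).2 ⟨hab, ha, hb⟩), hA']
        constructor
        · rintro (h1 | h1 | h1)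
          · exact h1
          · exact absurd h1.1 ha
          · exact absurd h1.1 hb
        · intro h1; exact Or.inl h1
  · intro a b hab
    exact ((hd.adj a b).1 (h.sub a b hab)).1
  · intro a
    unfold nl
    by_cases ha : a = v
    · simp [ha]
    · simp [ha, h.diag a]
  · intro u
    by_cases hu : u = v
    · subst hu
      have h1 : cmp B u = {u} := by
        ext w
        simp only [mem_cmp, mem_singleton]
        constructor
        · intro h1
          by_contra h2
          exact hiB.not_reach h2 h1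
        · rintro rfl; exact Reachable.refl _
      rw [h1, sum_singleton, nl_sum_v hr]
      omega
    · refine lt_of_le_of_lt ?_ (h.wt u)
      apply Finset.sum_le_sum
      intro w hw
      have hwv : w ≠ v := by
        rintro rfl
        exact hiB.not_reach' hu (mem_cmp.1 hw)
      rw [nl_sum_ne hwv (h.lv' hd w)]
      have := hs w hwv
      omega

/-- Adding `v` with an edge `v x` of the second forest. -/
theorem step2 (h : Sol D E0 q0 ε A B l) (hd : Drop E E0 q q0 v) {r s : V → ℕ} {t : V → Prop}
    {x : V} (hA'a : A'.IsAcyclic)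
    (hA' : ∀ a b, A'.Adj a b ↔ A.Adj a b ∨ (a = v ∧ t b) ∨ (b = v ∧ t a))
    (hr : r v = 0)
    (hrs : ∀ z, z ≠ v → r z + s z + (if t z ∧ ¬ E.Adj v z then 1 else 0) = q v z)
    (hvx : E.Adj v x) (htx : ¬ t x)
    (hE : ∀ z, E.Adj v z → z ≠ x → t z) (hs : ∀ z, z ≠ v → z ≠ x → s z ≤ ε z)
    (hw : s x + (1 + ∑ z, r z) ≤ ε x) :
    Solv D E q := by
  have hiA := h.isolA hd
  have hiB := h.isolB hd
  have hxv : x ≠ v := hvx.ne'
  have hB : ∀ a b, (B ⊔ edge v x).Adj a b ↔ B.Adj a b ∨ (a = v ∧ b = x) ∨ (a = x ∧ b = v) := by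
    intro a b
    rw [sup_adj, adj_edge]
    constructor
    · rintro (h1 | ⟨h1, _⟩)
      · exact Or.inl h1
      · exact Or.inr h1
    · rintro (h1 | h1 | h1)
      · exact Or.inl h1
      · refine Or.inr ⟨Or.inl h1, ?_⟩
        rw [h1.1, h1.2]; exact hxv.symm
      · refine Or.inr ⟨Or.inr h1, ?_⟩
        rw [h1.1, h1.2]; exact hxv
  refine ⟨A', B ⊔ edge v x, nl v r s l, hA'a, leaf_acyclic hiB hxv h.acB, ?_, ?_,
    nl_ld h hd hA' hrs, ?_, ?_⟩
  · intro a b hab
    rw [hB, hA']
    by_cases ha : a = v
    · subst ha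
      have hb : b ≠ a := hab.ne'
      constructor
      · rintro (h1 | h1 | h1)
        · exact absurd h1 (hiA _)
        · rintro (h2 | h2 | h2)
          · exact hiB _ h2
          · rw [h2.2] at h1; exact htx h1.2
          · exact hb h2.2
        · exact absurd h1.1 hb
      · intro h1
        refine Or.inr (Or.inl ⟨rfl, hE b hab ?_⟩)
        rintro rfl
        exact h1 (Or.inr (Or.inl ⟨rfl, rfl⟩))
    · by_cases hb : b = v
      · subst hb
        constructor
        · rintro (h1 | h1 | h1)
          · exact absurd h1.symm (hiA _)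
          · exact absurd h1.1 ha
          · rintro (h2 | h2 | h2)
            · exact hiB _ h2.symm
            · exact ha h2.1
            · rw [h2.1] at h1; exact htx h1.2
        · intro h1
          refine Or.inr (Or.inr ⟨rfl, hE a hab.symm ?_⟩)
          rintro rfl
          exact h1 (Or.inr (Or.inr ⟨rfl, rfl⟩))
      · have h3 := h.cov a b ((hd.adj a b).2 ⟨hab, ha, hb⟩)
        constructor
        · rintro (h1 | h1 | h1)
          · rintro (h2 | h2 | h2)
            · exact (h3.1 h1) h2
            · exact ha h2.1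
            · exact hb h2.2
          · exact absurd h1.1 ha
          · exact absurd h1.1 hb
        · intro h1
          exact Or.inl (h3.2 (fun h2 => h1 (Or.inl h2)))
  · intro a b hab
    rw [hB] at hab
    rcases hab with h1 | ⟨rfl, rfl⟩ | ⟨rfl, rfl⟩
    · exact ((hd.adj a b).1 (h.sub a b h1)).1
    · exact hvx
    · exact hvx.symm
  · intro a
    unfold nl
    by_cases ha : a = v
    · simp [ha]
    · simp [ha, h.diag a]
  · -- weights
    have key : ∀ u, u ≠ v → ∑ w ∈ cmp (B ⊔ edge v x) u,
        (1 + (∑ z, nl v r s l w z) + 0) < D := by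
      intro u hu
      by_cases hux : B.Reachable u x
      · have h1 : cmp (B ⊔ edge v x) u = insert v (cmp B u) := by
          ext w
          simp only [mem_cmp, mem_insert]
          constructor
          · intro h1
            by_cases hwv : w = v
            · exact Or.inl hwv
            · right
              have := leaf_reach hiB hxv h1
              simpa [hu, hwv] using this
          · rintro (rfl | h1)
            · refine (hux.mono le_sup_left).trans ?_
              apply Adj.reachable
              exact (hB _ _).2 (Or.inr (Or.inr ⟨rfl, rfl⟩))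
            · exact h1.mono le_sup_left
        have hvn : v ∉ cmp B u := by
          simp only [mem_cmp]
          exact hiB.not_reach' hu
        have hxm : x ∈ cmp B u := by
          simp only [mem_cmp]
          exact hux
        rw [h1, sum_insert hvn, nl_sum_v hr]
        have h2 := h.wt u
        rw [← Finset.add_sum_erase _ _ hxm] at h2 ⊢
        have h3 : ∑ w ∈ (cmp B u).erase x,
            (1 + (∑ z, nl v r s l w z) + 0) ≤
            ∑ w ∈ (cmp B u).erase x, (1 + (∑ z, l w z) + ε w) := by
          apply Finset.sum_le_sum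
          intro w hwm
          have hwx : w ≠ x := (mem_erase.1 hwm).1
          have hwv : w ≠ v := by
            rintro rfl
            exact hvn (mem_erase.1 hwm).2
          rw [nl_sum_ne hwv (h.lv' hd w)]
          have := hs w hwv hwx
          omega
        rw [nl_sum_ne hxv (h.lv' hd x)]
        omega
      · have h1 : cmp (B ⊔ edge v x) u = cmp B u := by
          ext w
          simp only [mem_cmp]
          constructor
          · intro h1
            have h2 := leaf_reach hiB hxv h1
            by_cases hwv : w = v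
            · simp only [hu, if_false, hwv, if_true] at h2
              exact absurd h2 hux
            · simpa [hu, hwv] using h2
          · intro h1; exact h1.mono le_sup_left
        rw [h1]
        refine lt_of_le_of_lt ?_ (h.wt u)
        apply Finset.sum_le_sum
        intro w hwm
        have hwv : w ≠ v := by
          rintro rfl
          exact hiB.not_reach' hu (mem_cmp.1 hwm)
        have hwx : w ≠ x := by
          rintro rfl
          exact hux (mem_cmp.1 hwm)
        rw [nl_sum_ne hwv (h.lv' hd w)]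
        have := hs w hwv hwx
        omega
    intro u
    by_cases hu : u = v
    · have h2 : (B ⊔ edge v x).Reachable v x := by
        apply Adj.reachable
        exact (hB _ _).2 (Or.inr (Or.inl ⟨rfl, rfl⟩))
      have h1 : cmp (B ⊔ edge v x) u = cmp (B ⊔ edge v x) x := by
        ext w
        simp only [mem_cmp, hu]
        exact ⟨fun h3 => h2.symm.trans h3, fun h3 => h2.trans h3⟩
      rw [h1]
      exact key x hxv
    · exact key u hu

end Step

end Pool.Agent.H13.Sndt
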