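import Pool.Agent.H13.SndtMain

namespace Pool.Agent.H13.Sndt

open SimpleGraph Finset
open scoped Classical

variable {V : Type*}

/-- A graph in which every vertex has at most one smaller neighbour is a forest. -/
theorem acyclic_of_ord {G : SimpleGraph V} (ord : V → ℕ) (hinj : Function.Injective ord)
    (h : ∀ v a b, G.Adj v a → G.Adj v b → ord a < ord v → ord b < ord v → a = b) :
    G.IsAcyclic := by
  intro v c hc
  obtain ⟨w, hw, hmax⟩ := Finset.exists_max_image c.support.toFinset ord
    ⟨v, by simp⟩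
  rw [List.mem_toFinset] at hw
  have hc' := hc.rotate hw
  have h1 : (c.rotate w hw).snd ∈ (c.rotate w hw).support := Walk.getVert_mem_support _ _
  have h2 : (c.rotate w hw).penultimate ∈ (c.rotate w hw).support := Walk.getVert_mem_support _ _
  have h3 := (c.rotate w hw).adj_snd hc'.not_nil
  have h4 := (c.rotate w hw).adj_penultimate hc'.not_nil
  have h5 : ∀ z, z ∈ (c.rotate w hw).support → ord z ≤ ord w := by
    intro z hz
    apply hmax
    rw [List.mem_toFinset]
    rwa [Walk.mem_support_rotate_iff] at hz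
  apply hc'.snd_ne_penultimate
  refine h w _ _ h3 h4.symm ?_ ?_
  · exact lt_of_le_of_ne (h5 _ h1) (fun e => h3.ne (hinj e).symm)
  · exact lt_of_le_of_ne (h5 _ h2) (fun e => h4.ne (hinj e))

/-- Two forests suffice for a graph in which every vertex has at most two smaller neighbours. -/
theorem two_forests [Finite V] {G : SimpleGraph V} (ord : V → ℕ) (hinj : Function.Injective ord)
    (h : ∀ v, {u | G.Adj u v ∧ ord u < ord v}.ncard ≤ 2) :
    ∃ A B : SimpleGraph V, A.IsAcyclic ∧ B.IsAcyclic ∧
      (∀ a b, G.Adj a b ↔ (A.Adj a b ∨ B.Adj a b)) ∧ (∀ a b, A.Adj a b → ¬ B.Adj a b) := by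
  have hp : ∀ v, ∃ p : V, ∀ a b, G.Adj v a → G.Adj v b → ord a < ord v → ord b < ord v →
      a ≠ p → b ≠ p → a = b := by
    intro v
    by_cases hne : ∃ p, G.Adj p v ∧ ord p < ord v
    · obtain ⟨p, hp⟩ := hne
      refine ⟨p, ?_⟩
      intro a b ha hb h1 h2 h3 h4
      by_contra hab
      have hsub : ({p, a, b} : Set V) ⊆ {u | G.Adj u v ∧ ord u < ord v} := by
        rintro z (rfl | rfl | rfl)
        · exact hp
        · exact ⟨ha.symm, h1⟩
        · exact ⟨hb.symm, h2⟩
      have h5 := Set.ncard_le_ncard hsub (Set.toFinite _)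
      have h6 : ({p, a, b} : Set V).ncard = 3 :=
        Set.ncard_eq_three.2 ⟨p, a, b, h3.symm, h4.symm, hab, rfl⟩
      have := h v
      omega
    · refine ⟨v, ?_⟩
      intro a b ha _ h1 _ _ _
      exact absurd ⟨a, ha.symm, h1⟩ hne
  choose p hp using hp
  let A : SimpleGraph V :=
    { Adj := fun a b => G.Adj a b ∧ ((ord a < ord b ∧ a = p b) ∨ (ord b < ord a ∧ b = p a))
      symm := ⟨fun a b h => ⟨h.1.symm, h.2.symm⟩⟩
      loopless := ⟨fun a h => h.1.ne rfl⟩ }
  let B : SimpleGraph V :=
    { Adj := fun a b => G.Adj a b ∧ ¬ ((ord a < ord b ∧ a = p b) ∨ (ord b < ord a ∧ b = p a))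
      symm := ⟨fun a b h => ⟨h.1.symm, fun h' => h.2 h'.symm⟩⟩
      loopless := ⟨fun a h => h.1.ne rfl⟩ }
  refine ⟨A, B, ?_, ?_, ?_, ?_⟩
  · apply acyclic_of_ord ord hinj
    intro v a b ha hb h1 h2
    rcases ha.2 with h3 | h3
    · omega
    · rcases hb.2 with h4 | h4
      · omega
      · rw [h3.2, h4.2]
  · apply acyclic_of_ord ord hinj
    intro v a b ha hb h1 h2
    refine hp v a b ha.1 hb.1 h1 h2 ?_ ?_
    · intro e
      exact ha.2 (Or.inr ⟨h1, e⟩)
    · intro e
      exact hb.2 (Or.inr ⟨h2, e⟩)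
  · intro a b
    constructor
    · intro hab
      by_cases hc : (ord a < ord b ∧ a = p b) ∨ (ord b < ord a ∧ b = p a)
      · exact Or.inl ⟨hab, hc⟩
      · exact Or.inr ⟨hab, hc⟩
    · rintro (hab | hab)
      · exact hab.1
      · exact hab.1
  · intro a b h1 h2
    exact h2.2 h1.2

variable [Fintype V]

/-- The double sum of the adjacency indicator over a vertex set is twice the number of edges. -/
theorem sum_adj_eq (G : SimpleGraph V) (S : Finset V) :
    ∑ a ∈ S, ∑ b ∈ S, (if G.Adj a b then 1 else 0) =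
      2 * (((⊤ : G.Subgraph).induce (S : Set V)).edgeSet.ncard) := by
  let G' : SimpleGraph V :=
    { Adj := fun a b => G.Adj a b ∧ a ∈ S ∧ b ∈ S
      symm := ⟨fun a b h => ⟨h.1.symm, h.2.2, h.2.1⟩⟩
      loopless := ⟨fun a h => h.1.ne rfl⟩ }
  have h1 : ((⊤ : G.Subgraph).induce (S : Set V)).edgeSet = G'.edgeSet := by
    ext e
    induction e using Sym2.ind with
    | _ a b =>
      rw [Subgraph.mem_edgeSet, mem_edgeSet, Subgraph.induce_adj]
      simp only [Subgraph.top_adj, Finset.mem_coe]
      exact ⟨fun h => ⟨h.2.2, h.1, h.2.1⟩, fun h => ⟨h.2.1, h.2.2, h.1⟩⟩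
  have h2 := G'.sum_degrees_eq_twice_card_edges
  rw [h1, Set.ncard_eq_toFinset_card']
  have h3 : G'.edgeSet.toFinset = G'.edgeFinset := by
    ext e; simp
  rw [h3, ← h2]
  have h4 : ∀ a, G'.degree a = if a ∈ S then ∑ b ∈ S, (if G.Adj a b then 1 else 0) else 0 := by
    intro a
    rw [← G'.card_neighborFinset_eq_degree]
    have h5 : G'.neighborFinset a = if a ∈ S then S.filter (fun b => G.Adj a b) else ∅ := by
      ext b
      rw [mem_neighborFinset]
      by_cases ha : a ∈ S
      · rw [if_pos ha, Finset.mem_filter]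
        exact ⟨fun h => ⟨h.2.2, h.1⟩, fun h => ⟨h.2, ha, h.1⟩⟩
      · rw [if_neg ha]
        simp only [Finset.notMem_empty, iff_false]
        exact fun h => ha h.2.1
    rw [h5]
    by_cases ha : a ∈ S
    · rw [if_pos ha, if_pos ha, Finset.card_filter]
    · rw [if_neg ha, if_neg ha, Finset.card_empty]
  rw [Finset.sum_congr rfl (fun a _ => h4 a), Finset.sum_ite_mem, Finset.univ_inter]

/-- The case of two forests. -/
theorem exists_two {d : ℕ} (hd : 1 ≤ d) (G H : SimpleGraph V) (ord : V → ℕ) (hGH : G ≤ H)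
    (hinj : Function.Injective ord)
    (hcl : ∀ v, H.IsClique {u | H.Adj u v ∧ ord u < ord v} ∧
      {u | H.Adj u v ∧ ord u < ord v}.ncard ≤ 2)
    (hfa : ∀ K : G.Subgraph, 2 ≤ K.verts.ncard →
      (K.edgeSet.ncard : ℚ) / ((K.verts.ncard : ℚ) - 1) ≤ 1 + (d : ℚ) / (1 + d + 1)) :
    ∃ A B : SimpleGraph V, A.IsAcyclic ∧ B.IsAcyclic ∧
      (∀ a b, G.Adj a b ↔ (A.Adj a b ∨ B.Adj a b)) ∧ (∀ a b, A.Adj a b → ¬ B.Adj a b) ∧
      ∀ u, (cmp B u).card ≤ d + 1 := by
  have hs : Solv (d + 2) G (fun _ _ => 0) := by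
    refine main (D := d + 2) (by omega) H ord hinj hcl _ Finset.univ rfl G _ (fun _ _ => rfl) ?_ ?_
    · intro a b h
      rcases h with h | h
      · exact ⟨hGH h, Finset.mem_univ _, Finset.mem_univ _⟩
      · exact absurd rfl h
    · intro S hS
      have h1 : ∑ a ∈ S, ∑ b ∈ S, cst (d + 2) G (fun _ _ => 0) a b =
          (d + 2) * ∑ a ∈ S, ∑ b ∈ S, (if G.Adj a b then 1 else 0) := by
        rw [Finset.mul_sum]
        apply Finset.sum_congr rfl
        intro a _
        rw [Finset.mul_sum]
        apply Finset.sum_congr rfl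
        intro b _
        unfold cst
        split_ifs <;> simp
      rw [h1, sum_adj_eq]
      set m := ((⊤ : G.Subgraph).induce (S : Set V)).edgeSet.ncard with hm
      by_cases hc : 2 ≤ S.card
      · have h2 := hfa ((⊤ : G.Subgraph).induce (S : Set V)) (by
          rw [Subgraph.induce_verts, Set.ncard_coe_finset]; exact hc)
        rw [Subgraph.induce_verts, Set.ncard_coe_finset, ← hm] at h2
        have hc' : (0 : ℚ) < (S.card : ℚ) - 1 := by
          have : (2 : ℚ) ≤ (S.card : ℚ) := by exact_mod_cast hc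
          linarith
        rw [div_le_iff₀ hc'] at h2
        have hd' : (0 : ℚ) < 1 + (d : ℚ) + 1 := by positivity
        have h3 : (m : ℚ) * (d + 2) ≤ (2 * d + 2) * ((S.card : ℚ) - 1) := by
          have h4 : (1 + (d : ℚ) / (1 + d + 1)) * ((S.card : ℚ) - 1) * (d + 2) =
              (2 * d + 2) * ((S.card : ℚ) - 1) := by
            field_simp
            ring
          rw [← h4]
          apply mul_le_mul_of_nonneg_right h2
          positivity
        have h5 : m * (d + 2) + (2 * d + 2) ≤ (2 * d + 2) * S.card := by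
          have : (m : ℚ) * (d + 2) + (2 * d + 2) ≤ (2 * d + 2) * S.card := by linarith
          exact_mod_cast this
        have e : d + 2 - 1 = d + 1 := by omega
        rw [e]
        nlinarith
      · have hc1 : S.card = 1 := by
          have := Finset.card_pos.2 hS
          omega
        rw [Finset.card_eq_one] at hc1
        obtain ⟨s, rfl⟩ := hc1
        have h2 := sum_adj_eq G {s}
        rw [← hm] at h2
        simp only [Finset.sum_singleton, SimpleGraph.irrefl, if_false] at h2
        have hm0 : m = 0 := by omega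
        rw [hm0]
        simp
  obtain ⟨A, B, l, h⟩ := hs
  have hAG : ∀ a b, A.Adj a b → G.Adj a b := by
    intro a b hab
    by_contra hG
    have := h.ld a b hab.ne
    rw [if_pos ⟨hab, hG⟩] at this
    omega
  refine ⟨A, B, h.acA, h.acB, ?_, ?_, ?_⟩
  · intro a b
    constructor
    · intro hab
      by_cases hA : A.Adj a b
      · exact Or.inl hA
      · right
        by_contra hB
        exact hA ((h.cov a b hab).2 hB)
    · rintro (h1 | h1)
      · exact hAG a b h1
      · exact h.sub a b h1
  · intro a b h1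
    exact (h.cov a b (hAG a b h1)).1 h1
  · intro u
    have h1 := h.wt u
    have h2 : (cmp B u).card ≤ ∑ w ∈ cmp B u, (1 + (∑ z, l w z) + 0) := by
      rw [Finset.card_eq_sum_ones]
      apply Finset.sum_le_sum
      intro w _
      omega
    omega

/-- In a forest a component with at most `d + 1` vertices has at most `d` edges. -/
theorem comp_edges {B : SimpleGraph V} {d : ℕ} (hB : B.IsAcyclic)
    (h : ∀ u, (cmp B u).card ≤ d + 1) (c : B.ConnectedComponent) :
    c.toSimpleGraph.edgeSet.ncard ≤ d := by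
  have h1 := (hB.isTree_connectedComponent c).card_edgeFinset
  obtain ⟨u, hu⟩ := c.exists_rep
  have h2 : Fintype.card c = (cmp B u).card := by
    rw [← Set.ncard_coe_finset, ← Nat.card_eq_fintype_card]
    have h3 : (cmp B u : Set V) = c.supp := by
      ext w
      rw [Finset.mem_coe, mem_cmp, ConnectedComponent.mem_supp_iff, ← hu]
      constructor
      · intro h4
        exact (ConnectedComponent.eq.2 h4.symm)
      · intro h4
        exact (ConnectedComponent.eq.1 h4).symm
    rw [h3]
    rfl
  have h4 : c.toSimpleGraph.edgeSet.ncard = #c.toSimpleGraph.edgeFinset := by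
    rw [Set.ncard_eq_toFinset_card']
    congr 1
  rw [h4]
  have := h u
  omega

end Pool.Agent.H13.Sndt
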