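import Pool.Agent.H13.SndtTwo

namespace Pool.Agent.H13.Sndt

open SimpleGraph Finset
open scoped Classical

variable {V : Type*}

theorem dens_mod {K : ℕ} {c c1 : V → V → ℕ} {v x y : V} {δ : ℕ} (hsym : ∀ a b, c a b = c b a)
    (h : ∀ S : Finset V, S.Nonempty → (∑ a ∈ S, ∑ b ∈ S, c a b) + K ≤ K * S.card)
    (h1 : ∀ b, c1 v b = 0) (h2 : ∀ b, c1 b v = 0)
    (h3 : ∀ a b, a ≠ v → b ≠ v →
      c1 a b ≤ c a b + (if (a = x ∧ b = y) ∨ (a = y ∧ b = x) then δ else 0))
    (hδ : δ = 0 ∨ (x ≠ v ∧ y ≠ v ∧ x ≠ y ∧ 2 * δ + K ≤ 2 * (c v x + c v y)))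
    (S : Finset V) (hS : S.Nonempty) : (∑ a ∈ S, ∑ b ∈ S, c1 a b) + K ≤ K * S.card := by
  have e1 : (∑ a ∈ S, ∑ b ∈ S, c1 a b) = ∑ a ∈ S.erase v, ∑ b ∈ S.erase v, c1 a b := by
    have e2 : ∀ a, ∑ b ∈ S, c1 a b = ∑ b ∈ S.erase v, c1 a b := by
      intro a
      exact (Finset.sum_erase S (h2 a)).symm
    rw [Finset.sum_congr rfl (fun a _ => e2 a)]
    refine (Finset.sum_erase S ?_).symm
    exact Finset.sum_eq_zero (fun b _ => h1 b)
  have hcard : 1 ≤ S.card := Finset.card_pos.2 hS
  have hcard' : (S.erase v).card ≤ S.card := Finset.card_le_card (Finset.erase_subset v S)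
  rw [e1]
  set T := S.erase v with hT
  have hvT : v ∉ T := Finset.notMem_erase v S
  have hmono : K * T.card ≤ K * S.card := Nat.mul_le_mul_left K hcard'
  by_cases hTe : T.Nonempty
  · have hle : (∑ a ∈ T, ∑ b ∈ T, c1 a b) ≤ (∑ a ∈ T, ∑ b ∈ T, c a b) +
        ∑ a ∈ T, ∑ b ∈ T, (if (a = x ∧ b = y) ∨ (a = y ∧ b = x) then δ else 0) := by
      rw [← Finset.sum_add_distrib]
      apply Finset.sum_le_sum
      intro a ha
      rw [← Finset.sum_add_distrib]
      apply Finset.sum_le_sum
      intro b hb
      exact h3 a b (fun e => hvT (e ▸ ha)) (fun e => hvT (e ▸ hb))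
    have hTS := h T hTe
    rcases hδ with h0 | ⟨hx, hy, hxy, hδ⟩
    · subst h0
      simp only [ite_self, Finset.sum_const_zero] at hle
      omega
    · by_cases hc : x ∈ T ∧ y ∈ T
      · have hδ2 : ∑ a ∈ T, ∑ b ∈ T, (if (a = x ∧ b = y) ∨ (a = y ∧ b = x) then δ else 0) ≤
            2 * δ := by
          have hs : ∀ p q : V, ∑ a ∈ T, ∑ b ∈ T, (if a = p ∧ b = q then δ else 0) ≤ δ := by
            intro p q
            have : ∀ a, ∑ b ∈ T, (if a = p ∧ b = q then δ else 0) ≤ if a = p then δ else 0 := by
              intro a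
              by_cases ha : a = p
              · subst ha
                simp only [true_and, if_true]
                rw [Finset.sum_ite_eq']
                split_ifs <;> omega
              · simp [ha]
            refine (Finset.sum_le_sum (fun a _ => this a)).trans ?_
            rw [Finset.sum_ite_eq']
            split_ifs <;> omega
          have h5 := hs x y
          have h6 := hs y x
          have h7 : ∑ a ∈ T, ∑ b ∈ T, (if (a = x ∧ b = y) ∨ (a = y ∧ b = x) then δ else 0) ≤
              (∑ a ∈ T, ∑ b ∈ T, (if a = x ∧ b = y then δ else 0)) +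
              ∑ a ∈ T, ∑ b ∈ T, (if a = y ∧ b = x then δ else 0) := by
            rw [← Finset.sum_add_distrib]
            apply Finset.sum_le_sum
            intro a _
            rw [← Finset.sum_add_distrib]
            apply Finset.sum_le_sum
            intro b _
            by_cases p1 : a = x ∧ b = y
            · rw [if_pos (Or.inl p1), if_pos p1]; omega
            · by_cases p2 : a = y ∧ b = x
              · rw [if_pos (Or.inr p2), if_pos p2]; omega
              · rw [if_neg (by tauto)]; omega
          omega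
        have hins := h (insert v T) (Finset.insert_nonempty v T)
        rw [Finset.card_insert_of_notMem hvT, Finset.sum_insert hvT,
          Finset.sum_insert hvT] at hins
        have h8 : ∑ a ∈ T, ∑ b ∈ insert v T, c a b = (∑ a ∈ T, c a v) + ∑ a ∈ T, ∑ b ∈ T, c a b := by
          rw [← Finset.sum_add_distrib]
          apply Finset.sum_congr rfl
          intro a _
          rw [Finset.sum_insert hvT]
        rw [h8] at hins
        have h9 : ∀ f : V → ℕ, f x + f y ≤ ∑ a ∈ T, f a := by
          intro f
          have : ({x, y} : Finset V) ⊆ T := by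
            intro z hz
            simp only [mem_insert, mem_singleton] at hz
            rcases hz with rfl | rfl
            · exact hc.1
            · exact hc.2
          have h10 := Finset.sum_le_sum_of_subset (f := f) this
          rw [Finset.sum_pair hxy] at h10
          exact h10
        have h11 := h9 (fun a => c a v)
        have h12 := h9 (fun b => c v b)
        simp only [hsym _ v] at h11
        have h13 : ∑ a ∈ T, c a v = ∑ a ∈ T, c v a := Finset.sum_congr rfl (fun a _ => hsym a v)
        rw [h13] at hins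
        have h14 : K * (T.card + 1) = K * T.card + K := by ring
        rw [h14] at hins
        omega
      · have hz : ∑ a ∈ T, ∑ b ∈ T, (if (a = x ∧ b = y) ∨ (a = y ∧ b = x) then δ else 0) = 0 := by
          apply Finset.sum_eq_zero
          intro a ha
          apply Finset.sum_eq_zero
          intro b hb
          rw [if_neg]
          rintro (⟨rfl, rfl⟩ | ⟨rfl, rfl⟩)
          · exact hc ⟨ha, hb⟩
          · exact hc ⟨hb, ha⟩
        omega
  · rw [Finset.not_nonempty_iff_eq_empty] at hTe
    rw [hTe]
    simp only [Finset.sum_empty, zero_add]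
    calc K = K * 1 := (Nat.mul_one K).symm
      _ ≤ K * S.card := Nat.mul_le_mul_left K hcard

variable [Fintype V]

theorem base_case {D : ℕ} (hD : 3 ≤ D) {E : SimpleGraph V} {q : V → V → ℕ}
    (hE : ∀ a b, ¬ E.Adj a b) (hq : ∀ a b, q a b = 0) : Solv D E q := by
  refine ⟨⊥, ⊥, fun _ _ => 0, isAcyclic_bot, isAcyclic_bot, ?_, ?_, ?_, ?_, ?_⟩
  · intro a b hab; exact absurd hab (hE a b)
  · intro a b hab; exact absurd hab (by simp)
  · intro a b _
    simp [hq]
  · intro a; rfl
  · intro u
    have h1 : cmp (⊥ : SimpleGraph V) u = {u} := by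
      ext w
      simp only [mem_cmp, mem_singleton, reachable_bot]
      exact eq_comm
    rw [h1, Finset.sum_singleton]
    simp
    omega

theorem main {D : ℕ} (hD : 3 ≤ D) (H : SimpleGraph V) (ord : V → ℕ)
    (hinj : Function.Injective ord)
    (hcl : ∀ v, H.IsClique {u | H.Adj u v ∧ ord u < ord v} ∧
      {u | H.Adj u v ∧ ord u < ord v}.ncard ≤ 2) :
    ∀ n, ∀ R : Finset V, R.card = n → ∀ (E : SimpleGraph V) (q : V → V → ℕ),
      (∀ a b, q a b = q b a) →
      (∀ a b, (E.Adj a b ∨ q a b ≠ 0) → H.Adj a b ∧ a ∈ R ∧ b ∈ R) →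
      (∀ S : Finset V, S.Nonempty → (∑ a ∈ S, ∑ b ∈ S, cst D E q a b) + 4 * (D - 1) ≤
        4 * (D - 1) * S.card) → Solv D E q := by
  intro n
  induction n with
  | zero =>
    intro R hR E q _ hsup _
    rw [Finset.card_eq_zero] at hR
    subst hR
    apply base_case hD
    · intro a b hab
      exact absurd (hsup a b (Or.inl hab)).2.1 (by simp)
    · intro a b
      by_contra hab
      exact absurd (hsup a b (Or.inr hab)).2.1 (by simp)
  | succ n IH =>
    intro R hR E q hsym hsup hdens
    have hRne : R.Nonempty := by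
      rw [← Finset.card_pos]; omega
    obtain ⟨v, hvR, hvmax⟩ := Finset.exists_max_image R ord hRne
    have hR' : (R.erase v).card = n := by
      rw [Finset.card_erase_of_mem hvR]; omega
    have hcsym : ∀ a b, cst D E q a b = cst D E q b a := fun a b => cst_symm hsym a b
    have hcd : ∀ a, cst D E q a a = 0 := by
      intro a
      have h1 : q a a = 0 := by
        by_contra h1
        exact (hsup a a (Or.inr h1)).1.ne rfl
      simp [cst, h1]
    -- the reduced instance
    let E0 : SimpleGraph V :=
      { Adj := fun a b => E.Adj a b ∧ a ≠ v ∧ b ≠ v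
        symm := ⟨fun a b h => ⟨h.1.symm, h.2.2, h.2.1⟩⟩
        loopless := ⟨fun a h => h.1.ne rfl⟩ }
    let q0 : V → V → ℕ := fun a b => if a = v ∨ b = v then 0 else q a b
    have hd : Drop E E0 q q0 v := by
      refine ⟨fun a b => Iff.rfl, ?_, ?_, ?_, hsym⟩
      · intro a b ha hb
        simp [q0, ha, hb]
      · intro b; simp [q0]
      · intro b; simp [q0]
    have hq0sym : ∀ a b, q0 a b = q0 b a := by
      intro a b
      by_cases ha : a = v
      · rw [ha, hd.q2, hd.q3]
      · by_cases hb : b = v
        · rw [hb, hd.q2, hd.q3]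
        · rw [hd.q1 a b ha hb, hd.q1 b a hb ha, hsym]
    have hq0le : ∀ a b, q0 a b ≠ 0 → q a b ≠ 0 ∧ a ≠ v ∧ b ≠ v := by
      intro a b h
      by_cases ha : a = v
      · rw [ha, hd.q2] at h; exact absurd rfl h
      · by_cases hb : b = v
        · rw [hb, hd.q3] at h; exact absurd rfl h
        · rw [hd.q1 a b ha hb] at h; exact ⟨h, ha, hb⟩
    have hsup0 : ∀ a b, (E0.Adj a b ∨ q0 a b ≠ 0) → H.Adj a b ∧ a ∈ R.erase v ∧ b ∈ R.erase v := by
      intro a b h
      rcases h with h | h
      · have h1 := hsup a b (Or.inl h.1)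
        exact ⟨h1.1, Finset.mem_erase.2 ⟨h.2.1, h1.2.1⟩, Finset.mem_erase.2 ⟨h.2.2, h1.2.2⟩⟩
      · have h0 := hq0le a b h
        have h1 := hsup a b (Or.inr h0.1)
        exact ⟨h1.1, Finset.mem_erase.2 ⟨h0.2.1, h1.2.1⟩, Finset.mem_erase.2 ⟨h0.2.2, h1.2.2⟩⟩
    have hE0 : ∀ a b, a ≠ v → b ≠ v → (E0.Adj a b ↔ E.Adj a b) := by
      intro a b ha hb
      exact ⟨fun h => h.1, fun h => ⟨h, ha, hb⟩⟩
    have hE0v : ∀ b, ¬ E0.Adj v b := fun b h => h.2.1 rfl
    have ih0 : Solv D E0 q0 := by
      refine IH _ hR' E0 q0 hq0sym hsup0 ?_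
      refine dens_mod (v := v) (x := v) (y := v) (δ := 0) hcsym hdens ?_ ?_ ?_ (Or.inl rfl)
      · intro b
        simp only [cst, hd.q2, hE0v, if_false]
      · intro b
        have : ¬ E0.Adj b v := fun h => hE0v b h.symm
        simp only [cst, hd.q3, this, if_false]
      · intro a b ha hb
        simp only [cst, hE0 a b ha hb, hd.q1 a b ha hb]
        omega
    -- neighbours
    set N : Finset V := R.filter (fun u => H.Adj u v) with hN
    have hNlt : ∀ u ∈ N, H.Adj u v ∧ ord u < ord v := by
      intro u hu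
      rw [hN, Finset.mem_filter] at hu
      refine ⟨hu.2, lt_of_le_of_ne (hvmax u hu.1) ?_⟩
      intro h
      exact hu.2.ne (hinj h)
    have hNcard : N.card ≤ 2 := by
      have h1 : (N : Set V) ⊆ {u | H.Adj u v ∧ ord u < ord v} := fun u hu => hNlt u hu
      have h2 := Set.ncard_le_ncard h1 (Set.toFinite _)
      rw [Set.ncard_coe_finset] at h2
      exact h2.trans (hcl v).2
    have hnb : ∀ z, z ∉ N → ¬ E.Adj v z ∧ q v z = 0 := by
      intro z hz
      constructor
      · intro h
        have h1 := hsup v z (Or.inl h)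
        exact hz (Finset.mem_filter.2 ⟨h1.2.2, h1.1.symm⟩)
      · by_contra h
        have h1 := hsup v z (Or.inr h)
        exact hz (Finset.mem_filter.2 ⟨h1.2.2, h1.1.symm⟩)
    have hpair : ∀ x, x ≠ v → cst D E q v x ≤ 2 * D - 2 := by
      intro x hx
      have h1 := hdens {v, x} (Finset.insert_nonempty _ _)
      rw [Finset.card_pair (Ne.symm hx), Finset.sum_pair (Ne.symm hx),
        Finset.sum_pair (Ne.symm hx), Finset.sum_pair (Ne.symm hx), hcd, hcd, hcsym x v] at h1
      omega
    interval_cases hcN : N.card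
    · rw [Finset.card_eq_zero] at hcN
      refine step_zero hD hd (fun z => hnb z ?_) ih0
      rw [hcN]; simp
    · rw [Finset.card_eq_one] at hcN
      obtain ⟨x, hx⟩ := hcN
      have hxN : x ∈ N := by rw [hx]; simp
      have hxv : x ≠ v := (hNlt x hxN).1.ne
      refine step_one hD hd hxv (fun z hz => hnb z ?_) (hpair x hxv) ih0
      rw [hx]; simpa using hz
    · rw [Finset.card_eq_two] at hcN
      obtain ⟨x, y, hxy, hNxy⟩ := hcN
      have hxN : x ∈ N := by rw [hNxy]; simp
      have hyN : y ∈ N := by rw [hNxy]; simp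
      have hxv : x ≠ v := (hNlt x hxN).1.ne
      have hyv : y ≠ v := (hNlt y hyN).1.ne
      have hH : H.Adj x y := (hcl v).1 (hNlt x hxN) (hNlt y hyN) hxy
      have hxR : x ∈ R.erase v := Finset.mem_erase.2 ⟨hxv, (Finset.mem_filter.1 hxN).1⟩
      have hyR : y ∈ R.erase v := Finset.mem_erase.2 ⟨hyv, (Finset.mem_filter.1 hyN).1⟩
      have htrip : cst D E q v x + cst D E q v y + cst D E q x y ≤ 4 * D - 4 := by
        have h1 := hdens {v, x, y} (Finset.insert_nonempty _ _)
        have hv1 : v ∉ ({x, y} : Finset V) := by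
          simp [Ne.symm hxv, Ne.symm hyv]
        rw [Finset.card_insert_of_notMem hv1, Finset.card_pair hxy, Finset.sum_insert hv1,
          Finset.sum_pair hxy, Finset.sum_insert hv1, Finset.sum_insert hv1,
          Finset.sum_insert hv1, Finset.sum_pair hxy, Finset.sum_pair hxy, Finset.sum_pair hxy,
          hcd, hcd, hcd, hcsym x v, hcsym y v, hcsym y x] at h1
        omega
      have hplus : ∀ j q1, Plus q0 q1 x y j → (∀ a b, q1 a b = q1 b a) ∧
          (∀ a b, q1 a b ≠ 0 → H.Adj a b ∧ a ∈ R.erase v ∧ b ∈ R.erase v) ∧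
          (∀ b, q1 v b = 0) ∧ (∀ b, q1 b v = 0) := by
        intro j q1 hp
        refine ⟨?_, ?_, ?_, ?_⟩
        · intro a b
          by_cases hc : (a = x ∧ b = y) ∨ (a = y ∧ b = x)
          · rcases hc with ⟨rfl, rfl⟩ | ⟨rfl, rfl⟩
            · rw [hp.p1, hp.p2, hp.p4]
            · rw [hp.p1, hp.p2, hp.p4]
          · rw [hp.p3 a b hc, hp.p3 b a (by tauto), hq0sym]
        · intro a b h
          by_cases hc : (a = x ∧ b = y) ∨ (a = y ∧ b = x)
          · rcases hc with ⟨rfl, rfl⟩ | ⟨rfl, rfl⟩
            · exact ⟨hH, hxR, hyR⟩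
            · exact ⟨hH.symm, hyR, hxR⟩
          · rw [hp.p3 a b hc] at h
            exact hsup0 a b (Or.inr h)
        · intro b
          rw [hp.p3 v b (by tauto), hd.q2]
        · intro b
          rw [hp.p3 b v (by tauto), hd.q3]
      have hple : ∀ j q1, Plus q0 q1 x y j → ∀ a b, a ≠ v → b ≠ v →
          2 * q1 a b = 2 * q a b + (if (a = x ∧ b = y) ∨ (a = y ∧ b = x) then 2 * j else 0) := by
        intro j q1 hp a b ha hb
        by_cases hc : (a = x ∧ b = y) ∨ (a = y ∧ b = x)
        · rw [if_pos hc]
          rcases hc with ⟨rfl, rfl⟩ | ⟨rfl, rfl⟩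
          · rw [hp.p1, hd.q1 _ _ ha hb]; omega
          · rw [hp.p2, hd.q1 _ _ ha hb]; omega
        · rw [if_neg hc, hp.p3 a b hc, hd.q1 _ _ ha hb]; omega
      refine step_two hD hd hxy hxv hyv (fun z h1 h2 => hnb z ?_) (hpair x hxv) (hpair y hyv)
        htrip ih0 ?_ ?_ ?_
      · rw [hNxy]; simp [h1, h2]
      · intro j q1 hj hp
        obtain ⟨g1, g2, g3, g4⟩ := hplus j q1 hp
        refine IH _ hR' E0 q1 g1 ?_ ?_
        · intro a b h
          rcases h with h | h
          · exact hsup0 a b (Or.inl h)
          · exact g2 a b h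
        · refine dens_mod (v := v) (x := x) (y := y) (δ := 2 * j) hcsym hdens ?_ ?_ ?_
            (Or.inr ⟨hxv, hyv, hxy, by omega⟩)
          · intro b
            simp only [cst, g3, hE0v, if_false]
          · intro b
            have : ¬ E0.Adj b v := fun h => hE0v b h.symm
            simp only [cst, g4, this, if_false]
          · intro a b ha hb
            simp only [cst, hE0 a b ha hb]
            rw [hple j q1 hp a b ha hb]
            omega
      · intro j q1 E2 hn hj hp hE2
        obtain ⟨g1, g2, g3, g4⟩ := hplus j q1 hp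
        have hE2v : ∀ b, ¬ E2.Adj v b := by
          intro b h
          rcases (hE2 v b).1 h with h | h | h
          · exact hE0v b h
          · exact hxv h.1.symm
          · exact hyv h.1.symm
        refine IH _ hR' E2 q1 g1 ?_ ?_
        · intro a b h
          rcases h with h | h
          · rcases (hE2 a b).1 h with h | ⟨rfl, rfl⟩ | ⟨rfl, rfl⟩
            · exact hsup0 a b (Or.inl h)
            · exact ⟨hH, hxR, hyR⟩
            · exact ⟨hH.symm, hyR, hxR⟩
          · exact g2 a b h
        · refine dens_mod (v := v) (x := x) (y := y) (δ := D + 2 * j) hcsym hdens ?_ ?_ ?_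
            (Or.inr ⟨hxv, hyv, hxy, by omega⟩)
          · intro b
            simp only [cst, g3, hE2v, if_false]
          · intro b
            have : ¬ E2.Adj b v := fun h => hE2v b h.symm
            simp only [cst, g4, this, if_false]
          · intro a b ha hb
            simp only [cst]
            rw [hple j q1 hp a b ha hb]
            by_cases hc : (a = x ∧ b = y) ∨ (a = y ∧ b = x)
            · rw [if_pos hc, if_pos hc]
              split_ifs <;> omega
            · have h1 : E2.Adj a b ↔ E.Adj a b := by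
                rw [hE2, hE0 a b ha hb]; tauto
              rw [if_neg hc, if_neg hc]
              simp only [h1]
              omega
      · intro j
        refine ⟨fun a b => if (a = x ∧ b = y) ∨ (a = y ∧ b = x) then q0 a b + j else q0 a b,
          ?_, ?_, ?_, ?_⟩
        · simp
        · simp
        · intro a b hab
          rw [if_neg hab]
        · exact hq0sym y x

end Pool.Agent.H13.Sndt
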