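import Pool.Agent.H13.SndtCore

namespace Pool.Agent.H13.Sndt

open SimpleGraph Finset
open scoped Classical

variable {V : Type*}

/-- Weight `α` at `x` and `β` at `y`. -/
noncomputable def ep (x y : V) (α β : ℕ) (w : V) : ℕ :=
  if w = x then α else if w = y then β else 0

theorem ep_zero (x y : V) : ep x y 0 0 = fun _ => 0 := by
  funext w; simp [ep]

theorem ep_swap {x y : V} (hxy : x ≠ y) (α β : ℕ) : ep x y α β = ep y x β α := by
  funext w
  unfold ep
  by_cases hx : w = x
  · subst hx; simp [hxy]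
  · by_cases hy : w = y
    · subst hy; simp [Ne.symm hxy]
    · simp [hx, hy]

/-- Loads modified on the pair `x y`. -/
noncomputable def ml (x y : V) (a' b' : ℕ) (l : V → V → ℕ) (a b : V) : ℕ :=
  if a = x ∧ b = y then a' else if a = y ∧ b = x then b' else l a b

theorem exA {A : SimpleGraph V} {v x y : V} (hi : Isol A v) (hx : x ≠ v) (hy : y ≠ v)
    (hA : A.IsAcyclic) (t1 t2 : Prop) (h : t1 → t2 → ¬ A.Reachable x y) :
    ∃ A' : SimpleGraph V, A'.IsAcyclic ∧ ∀ a b, A'.Adj a b ↔ A.Adj a b ∨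
      (a = v ∧ ((b = x ∧ t1) ∨ (b = y ∧ t2))) ∨ (b = v ∧ ((a = x ∧ t1) ∨ (a = y ∧ t2))) := by
  have key : ∀ z, z ≠ v → ∀ a b, (edge v z).Adj a b ↔ (a = v ∧ b = z) ∨ (b = v ∧ a = z) := by
    intro z hz a b
    rw [adj_edge]
    constructor
    · rintro ⟨h1 | h1, _⟩
      · exact Or.inl h1
      · exact Or.inr ⟨h1.2, h1.1⟩
    · rintro (h1 | h1)
      · refine ⟨Or.inl h1, ?_⟩
        rw [h1.1, h1.2]; exact hz.symm
      · refine ⟨Or.inr ⟨h1.2, h1.1⟩, ?_⟩
        rw [h1.1, h1.2]; exact hz
  by_cases h1 : t1 <;> by_cases h2 : t2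
  · refine ⟨A ⊔ edge v x ⊔ edge v y, two_leaf_acyclic hi hx hy (h h1 h2) hA, ?_⟩
    intro a b
    rw [sup_adj, sup_adj, key x hx, key y hy]
    tauto
  · refine ⟨A ⊔ edge v x, leaf_acyclic hi hx hA, ?_⟩
    intro a b
    rw [sup_adj, key x hx]
    tauto
  · refine ⟨A ⊔ edge v y, leaf_acyclic hi hy hA, ?_⟩
    intro a b
    rw [sup_adj, key y hy]
    tauto
  · refine ⟨A, hA, ?_⟩
    intro a b
    tauto

variable [Fintype V]

theorem ml_sum {x y : V} (hxy : x ≠ y) {a' b' α β : ℕ} {l : V → V → ℕ} (hx : l x y = a' + α)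
    (hy : l y x = b' + β) (w : V) :
    (∑ z, ml x y a' b' l w z) + ep x y α β w = ∑ z, l w z := by
  have h1 : ∀ z, l w z = ml x y a' b' l w z +
      (if w = x then (if z = y then α else 0) else if w = y then (if z = x then β else 0) else 0) := by
    intro z
    unfold ml
    by_cases hwx : w = x
    · subst hwx
      by_cases hz : z = y
      · subst hz; simp [hx]
      · simp [hz, hxy]
    · by_cases hwy : w = y
      · subst hwy
        by_cases hz : z = x
        · subst hz; simp [hy, Ne.symm hxy]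
        · simp [hz, hwx]
      · simp [hwx, hwy]
  rw [Finset.sum_congr rfl (fun z _ => h1 z), Finset.sum_add_distrib]
  congr 1
  unfold ep
  by_cases hwx : w = x
  · simp [hwx]
  · by_cases hwy : w = y
    · subst hwy; simp [hwx]
    · simp [hwx, hwy]

/-- `q1` is `q0` plus `j` on the pair `x y`. -/
structure Plus (q0 q1 : V → V → ℕ) (x y : V) (j : ℕ) : Prop where
  p1 : q1 x y = q0 x y + j
  p2 : q1 y x = q0 y x + j
  p3 : ∀ a b, ¬ ((a = x ∧ b = y) ∨ (a = y ∧ b = x)) → q1 a b = q0 a b
  p4 : q0 y x = q0 x y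

section Base

variable {D : ℕ} {E0 E2 : SimpleGraph V} {q0 q1 : V → V → ℕ} {x y : V} {j : ℕ}
  {A B : SimpleGraph V} {l : V → V → ℕ}

theorem split_loads (n s1 s2 m : ℕ) (h : s1 + s2 = n + m) : ∃ a' b' α β : ℕ,
    a' + b' = n ∧ α + β = m ∧ s1 = a' + α ∧ s2 = b' + β := by
  refine ⟨min s1 n, n - min s1 n, s1 - min s1 n, s2 - (n - min s1 n), ?_, ?_, ?_, ?_⟩ <;> omega

theorem base1 (hxy : x ≠ y) (hp : Plus q0 q1 x y j) (h : Sol D E0 q1 (fun _ => 0) A B l) :
    ∃ α β A' l', Sol D E0 q0 (ep x y α β) A' B l' ∧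
      (α + β = j ∨ (α + β + 1 = j ∧ ¬ A'.Reachable x y)) := by
  have hyx : y ≠ x := Ne.symm hxy
  by_cases ht : A.Adj x y ∧ ¬ E0.Adj x y
  · by_cases hj : j = 0
    · have hq : q1 = q0 := by
        funext a b
        by_cases hab : (a = x ∧ b = y) ∨ (a = y ∧ b = x)
        · rcases hab with ⟨rfl, rfl⟩ | ⟨rfl, rfl⟩
          · rw [hp.p1]; omega
          · rw [hp.p2]; omega
        · exact hp.p3 a b hab
      subst hq
      refine ⟨0, 0, A, l, ?_, Or.inl (by omega)⟩
      rw [ep_zero]
      exact h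
    · have hl := h.ld x y hxy
      rw [if_pos ht, hp.p1] at hl
      obtain ⟨a', b', α, β, e1, e2, e3, e4⟩ := split_loads (q0 x y) (l x y) (l y x) (j - 1) (by omega)
      refine ⟨α, β, A.deleteEdges {s(x, y)}, ml x y a' b' l, ?_, Or.inr ⟨by omega, del_not_reach h.acA ht.1⟩⟩
      refine ⟨del_acyclic h.acA, h.acB, ?_, h.sub, ?_, ?_, ?_⟩
      · intro a b hab
        rw [del_adj, ← h.cov a b hab]
        constructor
        · exact fun h1 => h1.1
        · intro h1
          refine ⟨h1, ?_⟩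
          rintro (⟨rfl, rfl⟩ | ⟨rfl, rfl⟩)
          · exact ht.2 hab
          · exact ht.2 hab.symm
      · intro a b hab
        by_cases hc : (a = x ∧ b = y) ∨ (a = y ∧ b = x)
        · have h1 : ¬ ((A.deleteEdges {s(x, y)}).Adj a b ∧ ¬ E0.Adj a b) := by
            rw [del_adj]; tauto
          rw [if_neg h1]
          rcases hc with ⟨rfl, rfl⟩ | ⟨rfl, rfl⟩
          · simp only [ml, hxy, hyx, and_self, if_true, if_false]
            omega
          · rw [hp.p4]
            simp only [ml, hxy, hyx, and_self, if_true, if_false]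
            omega
        · have h1 := h.ld a b hab
          rw [hp.p3 a b hc] at h1
          rw [← h1]
          have h2 : (A.deleteEdges {s(x, y)}).Adj a b ↔ A.Adj a b := by
            rw [del_adj]; tauto
          have h3 : ml x y a' b' l a b = l a b := by
            unfold ml
            rw [if_neg (fun h => hc (Or.inl h)), if_neg (fun h => hc (Or.inr h))]
          have h4 : ml x y a' b' l b a = l b a := by
            unfold ml
            rw [if_neg (fun h => hc (Or.inr ⟨h.2, h.1⟩)), if_neg (fun h => hc (Or.inl ⟨h.2, h.1⟩))]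
          simp only [h2, h3, h4]
      · intro a
        unfold ml
        rw [if_neg, if_neg]
        · exact h.diag a
        · rintro ⟨rfl, h2⟩; exact hyx h2
        · rintro ⟨rfl, h2⟩; exact hxy h2
      · intro u
        refine lt_of_le_of_lt (le_of_eq ?_) (h.wt u)
        apply Finset.sum_congr rfl
        intro w _
        have := ml_sum hxy e3 e4 w
        omega
  · have hl := h.ld x y hxy
    rw [if_neg ht, hp.p1] at hl
    obtain ⟨a', b', α, β, e1, e2, e3, e4⟩ := split_loads (q0 x y) (l x y) (l y x) j (by omega)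
    refine ⟨α, β, A, ml x y a' b' l, ?_, Or.inl e2⟩
    refine ⟨h.acA, h.acB, h.cov, h.sub, ?_, ?_, ?_⟩
    · intro a b hab
      by_cases hc : (a = x ∧ b = y) ∨ (a = y ∧ b = x)
      · have h1 : ¬ (A.Adj a b ∧ ¬ E0.Adj a b) := by
          rcases hc with ⟨rfl, rfl⟩ | ⟨rfl, rfl⟩
          · exact ht
          · rw [A.adj_comm, E0.adj_comm]; exact ht
        rw [if_neg h1]
        rcases hc with ⟨rfl, rfl⟩ | ⟨rfl, rfl⟩
        · simp only [ml, hxy, hyx, and_self, if_true, if_false]
          omega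
        · rw [hp.p4]
          simp only [ml, hxy, hyx, and_self, if_true, if_false]
          omega
      · have h1 := h.ld a b hab
        rw [hp.p3 a b hc] at h1
        rw [← h1]
        have h3 : ml x y a' b' l a b = l a b := by
          unfold ml
          rw [if_neg (fun h => hc (Or.inl h)), if_neg (fun h => hc (Or.inr h))]
        have h4 : ml x y a' b' l b a = l b a := by
          unfold ml
          rw [if_neg (fun h => hc (Or.inr ⟨h.2, h.1⟩)), if_neg (fun h => hc (Or.inl ⟨h.2, h.1⟩))]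
        rw [h3, h4]
    · intro a
      unfold ml
      rw [if_neg, if_neg]
      · exact h.diag a
      · rintro ⟨rfl, h2⟩; exact hyx h2
      · rintro ⟨rfl, h2⟩; exact hxy h2
    · intro u
      refine lt_of_le_of_lt (le_of_eq ?_) (h.wt u)
      apply Finset.sum_congr rfl
      intro w _
      have := ml_sum hxy e3 e4 w
      omega

theorem base2 (hxy : x ≠ y) (hp : Plus q0 q1 x y j)
    (hE : ∀ a b, E2.Adj a b ↔ E0.Adj a b ∨ ((a = x ∧ b = y) ∨ (a = y ∧ b = x)))
    (hn : ¬ E0.Adj x y) (h : Sol D E2 q1 (fun _ => 0) A B l) :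
    ∃ α β A' B' l', Sol D E0 q0 (ep x y α β) A' B' l' ∧
      ((α + β = j ∧ ¬ A'.Reachable x y) ∨ (α + β = j + 1 ∧ 1 ≤ α)) := by
  have hyx : y ≠ x := Ne.symm hxy
  have hE2 : E2.Adj x y := (hE x y).2 (Or.inr (Or.inl ⟨rfl, rfl⟩))
  have hl := h.ld x y hxy
  rw [if_neg (fun h1 => h1.2 hE2), hp.p1] at hl
  obtain ⟨a', b', α, β, e1, e2, e3, e4⟩ := split_loads (q0 x y) (l x y) (l y x) j (by omega)
  have hE0 : ∀ a b, E0.Adj a b → ¬ ((a = x ∧ b = y) ∨ (a = y ∧ b = x)) := by
    rintro a b hab (⟨rfl, rfl⟩ | ⟨rfl, rfl⟩)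
    · exact hn hab
    · exact hn hab.symm
  have hd : ∀ a, ml x y a' b' l a a = 0 := by
    intro a
    unfold ml
    rw [if_neg, if_neg]
    · exact h.diag a
    · rintro ⟨rfl, h2⟩; exact hyx h2
    · rintro ⟨rfl, h2⟩; exact hxy h2
  have hml : ∀ a b, ¬ ((a = x ∧ b = y) ∨ (a = y ∧ b = x)) →
      ml x y a' b' l a b = l a b ∧ ml x y a' b' l b a = l b a := by
    intro a b hc
    unfold ml
    rw [if_neg (fun h => hc (Or.inl h)), if_neg (fun h => hc (Or.inr h)),
      if_neg (fun h => hc (Or.inr ⟨h.2, h.1⟩)), if_neg (fun h => hc (Or.inl ⟨h.2, h.1⟩))]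
    exact ⟨rfl, rfl⟩
  have hld : ∀ A' : SimpleGraph V, ¬ A'.Adj x y →
      (∀ a b, ¬ ((a = x ∧ b = y) ∨ (a = y ∧ b = x)) → (A'.Adj a b ↔ A.Adj a b)) →
      ∀ a b, a ≠ b → ml x y a' b' l a b + ml x y a' b' l b a +
        (if A'.Adj a b ∧ ¬ E0.Adj a b then 1 else 0) = q0 a b := by
    intro A' hA1 hA2 a b hab
    by_cases hc : (a = x ∧ b = y) ∨ (a = y ∧ b = x)
    · rcases hc with ⟨rfl, rfl⟩ | ⟨rfl, rfl⟩
      · rw [if_neg (fun h => hA1 h.1)]
        simp only [ml, hxy, hyx, and_self, if_true, if_false]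
        omega
      · rw [if_neg (fun h => hA1 h.1.symm), hp.p4]
        simp only [ml, hxy, hyx, and_self, if_true, if_false]
        omega
    · have h1 := h.ld a b hab
      rw [hp.p3 a b hc] at h1
      rw [← h1, (hml a b hc).1, (hml a b hc).2]
      have h2 : E2.Adj a b ↔ E0.Adj a b := by
        rw [hE]; tauto
      simp only [h2, hA2 a b hc]
  by_cases hA : A.Adj x y
  · have hB : ¬ B.Adj x y := (h.cov x y hE2).1 hA
    refine ⟨α, β, A.deleteEdges {s(x, y)}, B, ml x y a' b' l, ?_, Or.inl ⟨e2, del_not_reach h.acA hA⟩⟩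
    refine ⟨del_acyclic h.acA, h.acB, ?_, ?_, ?_, hd, ?_⟩
    · intro a b hab
      rw [del_adj, ← h.cov a b ((hE a b).2 (Or.inl hab))]
      exact ⟨fun h1 => h1.1, fun h1 => ⟨h1, hE0 a b hab⟩⟩
    · intro a b hab
      rcases (hE a b).1 (h.sub a b hab) with h1 | ⟨rfl, rfl⟩ | ⟨rfl, rfl⟩
      · exact h1
      · exact absurd hab hB
      · exact absurd hab.symm hB
    · apply hld
      · rw [del_adj]; tauto
      · intro a b hc
        rw [del_adj]; tauto
    · intro u
      refine lt_of_le_of_lt (le_of_eq ?_) (h.wt u)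
      apply Finset.sum_congr rfl
      intro w _
      have := ml_sum hxy e3 e4 w
      omega
  · have hB : B.Adj x y := by
      by_contra h1
      exact hA ((h.cov x y hE2).2 h1)
    have hnr := del_not_reach h.acB hB
    refine ⟨α + 1, β, A, B.deleteEdges {s(x, y)}, ml x y a' b' l, ?_, Or.inr ⟨by omega, by omega⟩⟩
    refine ⟨h.acA, del_acyclic h.acB, ?_, ?_, ?_, hd, ?_⟩
    · intro a b hab
      rw [h.cov a b ((hE a b).2 (Or.inl hab)), del_adj]
      constructor
      · exact fun h1 h2 => h1 h2.1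
      · exact fun h1 h2 => h1 ⟨h2, hE0 a b hab⟩
    · intro a b hab
      rw [del_adj] at hab
      rcases (hE a b).1 (h.sub a b hab.1) with h1 | h1
      · exact h1
      · exact absurd h1 hab.2
    · apply hld
      · exact hA
      · intro a b _; exact Iff.rfl
    · intro u
      have hsub : cmp (B.deleteEdges {s(x, y)}) u ⊆ cmp B u := by
        intro w hw
        rw [mem_cmp] at hw ⊢
        exact hw.mono (deleteEdges_le _)
      by_cases hux : (B.deleteEdges {s(x, y)}).Reachable u x
      · have hyn : y ∉ cmp (B.deleteEdges {s(x, y)}) u := by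
          rw [mem_cmp]
          intro h1
          exact hnr (hux.symm.trans h1)
        have hym : y ∈ cmp B u := by
          rw [mem_cmp]
          exact (hux.mono (deleteEdges_le _)).trans hB.reachable
        have hxm : x ∈ cmp (B.deleteEdges {s(x, y)}) u := by rwa [mem_cmp]
        have h1 : insert y (cmp (B.deleteEdges {s(x, y)}) u) ⊆ cmp B u :=
          Finset.insert_subset hym hsub
        have h2 := Finset.sum_le_sum_of_subset (f := fun w => 1 + (∑ z, l w z) + 0) h1
        have h3 := h.wt u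
        rw [Finset.sum_insert hyn] at h2
        have h4 : ∑ w ∈ cmp (B.deleteEdges {s(x, y)}) u,
            (1 + (∑ z, ml x y a' b' l w z) + ep x y (α + 1) β w) =
            ∑ w ∈ cmp (B.deleteEdges {s(x, y)}) u, (1 + (∑ z, l w z) + 0) + 1 := by
          rw [← Finset.add_sum_erase _ _ hxm, ← Finset.add_sum_erase _ _ hxm]
          have h5 : ∑ w ∈ (cmp (B.deleteEdges {s(x, y)}) u).erase x,
              (1 + (∑ z, ml x y a' b' l w z) + ep x y (α + 1) β w) =
              ∑ w ∈ (cmp (B.deleteEdges {s(x, y)}) u).erase x, (1 + (∑ z, l w z) + 0) := by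
            apply Finset.sum_congr rfl
            intro w hw
            have hwx : w ≠ x := (mem_erase.1 hw).1
            have h6 := ml_sum hxy e3 e4 w
            have h7 : ep x y (α + 1) β w = ep x y α β w := by
              unfold ep; simp [hwx]
            rw [h7]; omega
          rw [h5]
          have h6 := ml_sum hxy e3 e4 x
          have h7 : ep x y (α + 1) β x = ep x y α β x + 1 := by
            unfold ep; simp
          rw [h7]; omega
        rw [h4]
        omega
      · refine lt_of_le_of_lt ?_ (h.wt u)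
        refine le_trans (le_of_eq ?_) (Finset.sum_le_sum_of_subset hsub)
        apply Finset.sum_congr rfl
        intro w hw
        have hwx : w ≠ x := by
          rintro rfl
          exact hux (mem_cmp.1 hw)
        have h6 := ml_sum hxy e3 e4 w
        have h7 : ep x y (α + 1) β w = ep x y α β w := by
          unfold ep; simp [hwx]
        rw [h7]; omega

end Base

section Two

variable {D : ℕ} {E E0 : SimpleGraph V} {q q0 : V → V → ℕ} {v x y : V} {α β : ℕ}
  {A B : SimpleGraph V} {l : V → V → ℕ}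

theorem ep_sum (hxy : x ≠ y) (r1 r2 : ℕ) : ∑ z, ep x y r1 r2 z = r1 + r2 := by
  have h1 : ∀ z, ep x y r1 r2 z = (if z = x then r1 else 0) + (if z = y then r2 else 0) := by
    intro z
    unfold ep
    by_cases hz : z = x
    · subst hz; simp [hxy]
    · simp [hz]
  rw [Finset.sum_congr rfl (fun z _ => h1 z), Finset.sum_add_distrib]
  simp

theorem step1' (h : Sol D E0 q0 (ep x y α β) A B l) (hd : Drop E E0 q q0 v) (hxy : x ≠ y)
    (hx : x ≠ v) (hy : y ≠ v) (hnb : ∀ z, z ≠ x → z ≠ y → ¬ E.Adj v z ∧ q v z = 0)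
    (t1 t2 : Prop) (r1 r2 s1 s2 : ℕ)
    (h1 : r1 + s1 + (if t1 ∧ ¬ E.Adj v x then 1 else 0) = q v x)
    (h2 : r2 + s2 + (if t2 ∧ ¬ E.Adj v y then 1 else 0) = q v y)
    (hE1 : E.Adj v x → t1) (hE2 : E.Adj v y → t2) (hs1 : s1 ≤ α) (hs2 : s2 ≤ β)
    (hw : 1 + (r1 + r2) < D) (hr : t1 → t2 → ¬ A.Reachable x y) : Solv D E q := by
  obtain ⟨A', hA'a, hA'⟩ := exA (h.isolA hd) hx hy h.acA t1 t2 hr
  refine step1 h hd (r := ep x y r1 r2) (s := ep x y s1 s2)
    (t := fun z => (z = x ∧ t1) ∨ (z = y ∧ t2)) hA'a hA' ?_ ?_ ?_ ?_ ?_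
  · simp [ep, Ne.symm hx, Ne.symm hy]
  · intro z hz
    by_cases hzx : z = x
    · subst hzx
      simp only [ep, if_true, true_and, hxy, false_and, or_false]
      exact h1
    · by_cases hzy : z = y
      · subst hzy
        simp only [ep, if_true, true_and, hzx, false_and, false_or, if_false]
        exact h2
      · simp only [ep, hzx, hzy, false_and, or_false, if_false]
        rw [(hnb z hzx hzy).2]
  · intro z hz
    by_cases hzx : z = x
    · left; subst hzx; exact ⟨rfl, hE1 hz⟩
    · by_cases hzy : z = y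
      · right; subst hzy; exact ⟨rfl, hE2 hz⟩
      · exact absurd hz (hnb z hzx hzy).1
  · intro z _
    unfold ep
    split_ifs
    · exact hs1
    · exact hs2
    · exact le_rfl
  · rw [ep_sum hxy]; exact hw

theorem step2' (h : Sol D E0 q0 (ep x y α β) A B l) (hd : Drop E E0 q q0 v) (hxy : x ≠ y)
    (hx : x ≠ v) (hy : y ≠ v) (hnb : ∀ z, z ≠ x → z ≠ y → ¬ E.Adj v z ∧ q v z = 0)
    (r1 r2 s1 s2 : ℕ) (h1 : r1 + s1 = q v x) (h2 : r2 + s2 = q v y)
    (hE1 : E.Adj v x) (hE2 : E.Adj v y) (hs2 : s2 ≤ β)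
    (hw : s1 + (1 + (r1 + r2)) ≤ α) : Solv D E q := by
  obtain ⟨A', hA'a, hA'⟩ := exA (h.isolA hd) hx hy h.acA False True (fun h => h.elim)
  refine step2 h hd (r := ep x y r1 r2) (s := ep x y s1 s2) (x := x)
    (t := fun z => (z = x ∧ False) ∨ (z = y ∧ True)) hA'a hA' ?_ ?_ hE1 ?_ ?_ ?_ ?_
  · simp [ep, Ne.symm hx, Ne.symm hy]
  · intro z hz
    by_cases hzx : z = x
    · subst hzx
      simp only [ep, if_true, and_false, hxy, false_and, or_false, if_false]
      exact h1
    · by_cases hzy : z = y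
      · subst hzy
        simp only [ep, if_true, hzx, false_and, false_or, if_false, and_true, true_and, hE2,
          not_true_eq_false]
        exact h2
      · simp only [ep, hzx, hzy, false_and, or_false, if_false]
        rw [(hnb z hzx hzy).2]
  · rintro (h | h)
    · exact h.2
    · exact hxy h.1
  · intro z hz hzx
    by_cases hzy : z = y
    · right; exact ⟨hzy, trivial⟩
    · exact absurd hz (hnb z hzx hzy).1
  · intro z _ hzx
    unfold ep
    rw [if_neg hzx, if_neg hzx]
    split_ifs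
    · exact hs2
    · exact le_rfl
  · rw [ep_sum hxy]
    simp only [ep, if_true]
    exact hw

end Two

end Pool.Agent.H13.Sndt
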