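import Pool.Agent.H13.SndtStep

namespace Pool.Agent.H13.Sndt

open SimpleGraph Finset
open scoped Classical

variable {V : Type*}

/-- Cost of a pair. -/
noncomputable def cst (D : ℕ) (E : SimpleGraph V) (q : V → V → ℕ) (a b : V) : ℕ :=
  2 * q a b + (if E.Adj a b then D else 0)

variable [Fintype V]

section Two

variable {D : ℕ} {E E0 : SimpleGraph V} {q q0 : V → V → ℕ} {v x y : V}

theorem two_ff (hD : 3 ≤ D) (hd : Drop E E0 q q0 v) (hxy : x ≠ y)
    (hx : x ≠ v) (hy : y ≠ v) (hnb : ∀ z, z ≠ x → z ≠ y → ¬ E.Adj v z ∧ q v z = 0)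
    (he1 : ¬ E.Adj v x) (he2 : ¬ E.Adj v y)
    (h1 : cst D E q v x ≤ 2 * D - 2) (h2 : cst D E q v y ≤ 2 * D - 2)
    (ih0 : Solv D E0 q0)
    (ih1 : ∀ j q1, 2 * j + (2 * D - 2) ≤ cst D E q v x + cst D E q v y → Plus q0 q1 x y j →
      Solv D E0 q1) (hq1 : ∀ j, ∃ q1, Plus q0 q1 x y j) : Solv D E q := by
  simp only [cst, he1, he2, if_false] at h1 h2 ih1
  by_cases hc : q v x + q v y < D
  · obtain ⟨A, B, l, h⟩ := ih0
    rw [← ep_zero x y] at h
    by_cases hj1 : q v x = 0
    · by_cases hj2 : q v y = 0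
      · refine step1' h hd hxy hx hy hnb False False 0 0 0 0 ?_ ?_ ?_ ?_ ?_ ?_ ?_ ?_
        · simp [hj1]
        · simp [hj2]
        · exact he1
        · exact he2
        · omega
        · omega
        · omega
        · exact fun h => h.elim
      · refine step1' h hd hxy hx hy hnb False True 0 (q v y - 1) 0 0 ?_ ?_ ?_ ?_ ?_ ?_ ?_ ?_
        · simp [hj1]
        · simp [he2]; omega
        · exact he1
        · exact fun _ => trivial
        · omega
        · omega
        · omega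
        · exact fun h => h.elim
    · refine step1' h hd hxy hx hy hnb True False (q v x - 1) (q v y) 0 0 ?_ ?_ ?_ ?_ ?_ ?_ ?_ ?_
      · simp [he1]; omega
      · simp
      · exact fun _ => trivial
      · exact he2
      · omega
      · omega
      · omega
      · exact fun _ h => h.elim
  · obtain ⟨q1, hq1⟩ := hq1 (q v x + q v y - (D - 1))
    obtain ⟨A, B, l, h⟩ := ih1 _ q1 (by omega) hq1
    obtain ⟨α, β, A', l', h, hc' | ⟨hc', hr⟩⟩ := base1 hxy hq1 h
    · by_cases hα : α < q v x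
      · refine step1' h hd hxy hx hy hnb True False (q v x - 1 - α) (q v y - β) α β ?_ ?_ ?_ ?_ ?_ ?_ ?_ ?_
        · simp [he1]; omega
        · simp; omega
        · exact fun _ => trivial
        · exact he2
        · omega
        · omega
        · omega
        · exact fun _ h => h.elim
      · refine step1' h hd hxy hx hy hnb False True 0 (q v y - 1) α 0 ?_ ?_ ?_ ?_ ?_ ?_ ?_ ?_
        · simp; omega
        · simp [he2]; omega
        · exact he1
        · exact fun _ => trivial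
        · omega
        · omega
        · omega
        · exact fun h => h.elim
    · refine step1' h hd hxy hx hy hnb True True (q v x - 1 - α) (q v y - 1 - β) α β ?_ ?_ ?_ ?_ ?_ ?_ ?_ ?_
      · simp [he1]; omega
      · simp [he2]; omega
      · exact fun _ => trivial
      · exact fun _ => trivial
      · omega
      · omega
      · omega
      · exact fun _ _ => hr

theorem two_ft (hD : 3 ≤ D) (hd : Drop E E0 q q0 v) (hxy : x ≠ y)
    (hx : x ≠ v) (hy : y ≠ v) (hnb : ∀ z, z ≠ x → z ≠ y → ¬ E.Adj v z ∧ q v z = 0)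
    (he1 : ¬ E.Adj v x) (he2 : E.Adj v y)
    (h1 : cst D E q v x ≤ 2 * D - 2) (h2 : cst D E q v y ≤ 2 * D - 2)
    (h3 : cst D E q v x + cst D E q v y + cst D E q x y ≤ 4 * D - 4)
    (ih0 : Solv D E0 q0)
    (ih1 : ∀ j q1, 2 * j + (2 * D - 2) ≤ cst D E q v x + cst D E q v y → Plus q0 q1 x y j →
      Solv D E0 q1)
    (ih2 : ∀ j q1 E2, ¬ E0.Adj x y → D + 2 * j + (2 * D - 2) ≤ cst D E q v x + cst D E q v y →
      Plus q0 q1 x y j → (∀ a b, E2.Adj a b ↔ E0.Adj a b ∨ ((a = x ∧ b = y) ∨ (a = y ∧ b = x))) →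
      Solv D E2 q1)
    (hq1 : ∀ j, ∃ q1, Plus q0 q1 x y j) : Solv D E q := by
  simp only [cst, he1, he2, if_false, if_true] at h1 h2 h3 ih1 ih2
  have hexy : q v x = D - 1 → ¬ E.Adj x y := by
    intro hc hE
    rw [if_pos hE] at h3
    omega
  by_cases hc : q v x = D - 1
  · obtain ⟨q1, hq1⟩ := hq1 (q v y)
    have hn : ¬ E0.Adj x y := fun h => hexy hc ((hd.adj x y).1 h).1
    have hE2 : ∀ a b, (E0 ⊔ edge x y).Adj a b ↔
        E0.Adj a b ∨ ((a = x ∧ b = y) ∨ (a = y ∧ b = x)) := by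
      intro a b
      rw [sup_adj, adj_edge]
      constructor
      · rintro (h | h)
        · exact Or.inl h
        · exact Or.inr h.1
      · rintro (h | h)
        · exact Or.inl h
        · refine Or.inr ⟨h, ?_⟩
          rcases h with h | h
          · rw [h.1, h.2]; exact hxy
          · rw [h.1, h.2]; exact Ne.symm hxy
    obtain ⟨A, B, l, h⟩ := ih2 _ q1 (E0 ⊔ edge x y) hn (by omega) hq1 hE2
    obtain ⟨α, β, A', B', l', h, ⟨hc', hr⟩ | ⟨hc', hα⟩⟩ := base2 hxy hq1 hE2 hn h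
    · refine step1' h hd hxy hx hy hnb True True (q v x - 1 - α) (q v y - β) α β ?_ ?_ ?_ ?_ ?_ ?_ ?_ ?_
      · simp [he1]; omega
      · simp [he2]; omega
      · exact fun _ => trivial
      · exact fun _ => trivial
      · omega
      · omega
      · omega
      · exact fun _ _ => hr
    · refine step1' h hd hxy hx hy hnb False True (q v x - α) (q v y - β) α β ?_ ?_ ?_ ?_ ?_ ?_ ?_ ?_
      · simp; omega
      · simp [he2]; omega
      · exact he1
      · exact fun _ => trivial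
      · omega
      · omega
      · omega
      · exact fun h => h.elim
  · by_cases hc2 : q v x + q v y + 2 ≤ D
    · obtain ⟨A, B, l, h⟩ := ih0
      rw [← ep_zero x y] at h
      refine step1' h hd hxy hx hy hnb False True (q v x) (q v y) 0 0 ?_ ?_ ?_ ?_ ?_ ?_ ?_ ?_
      · simp
      · simp [he2]
      · exact he1
      · exact fun _ => trivial
      · omega
      · omega
      · omega
      · exact fun h => h.elim
    · obtain ⟨q1, hq1⟩ := hq1 (q v x + q v y + 2 - D)
      obtain ⟨A, B, l, h⟩ := ih1 _ q1 (by omega) hq1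
      obtain ⟨α, β, A', l', h, hc' | ⟨hc', hr⟩⟩ := base1 hxy hq1 h
      · refine step1' h hd hxy hx hy hnb False True (q v x - α) (q v y - β) α β ?_ ?_ ?_ ?_ ?_ ?_ ?_ ?_
        · simp; omega
        · simp [he2]; omega
        · exact he1
        · exact fun _ => trivial
        · omega
        · omega
        · omega
        · exact fun h => h.elim
      · refine step1' h hd hxy hx hy hnb True True (q v x - 1 - α) (q v y - β) α β ?_ ?_ ?_ ?_ ?_ ?_ ?_ ?_
        · simp [he1]; omega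
        · simp [he2]; omega
        · exact fun _ => trivial
        · exact fun _ => trivial
        · omega
        · omega
        · omega
        · exact fun _ _ => hr

theorem two_tt (hD : 3 ≤ D) (hd : Drop E E0 q q0 v) (hxy : x ≠ y)
    (hx : x ≠ v) (hy : y ≠ v) (hnb : ∀ z, z ≠ x → z ≠ y → ¬ E.Adj v z ∧ q v z = 0)
    (he1 : E.Adj v x) (he2 : E.Adj v y)
    (h1 : cst D E q v x ≤ 2 * D - 2) (h2 : cst D E q v y ≤ 2 * D - 2)
    (ih1 : ∀ j q1, 2 * j + (2 * D - 2) ≤ cst D E q v x + cst D E q v y → Plus q0 q1 x y j →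
      Solv D E0 q1) (hq1 : ∀ j, ∃ q1, Plus q0 q1 x y j) : Solv D E q := by
  simp only [cst, he1, he2, if_true] at h1 h2 ih1
  obtain ⟨q1, hq1⟩ := hq1 (q v x + q v y + 1)
  obtain ⟨A, B, l, h⟩ := ih1 _ q1 (by omega) hq1
  obtain ⟨α, β, A', l', h, hc' | ⟨hc', hr⟩⟩ := base1 hxy hq1 h
  · by_cases hβ : β ≤ q v y
    · refine step2' h hd hxy hx hy hnb (q v x) (q v y - β) 0 β ?_ ?_ he1 he2 ?_ ?_ <;> omega
    · rw [ep_swap hxy] at h
      refine step2' h hd (Ne.symm hxy) hy hx (fun z h1 h2 => hnb z h2 h1)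
        (q v y) (q v x - α) 0 α ?_ ?_ he2 he1 ?_ ?_ <;> omega
  · refine step1' h hd hxy hx hy hnb True True (q v x) (q v y) 0 0 ?_ ?_ ?_ ?_ ?_ ?_ ?_ ?_
    · simp [he1]
    · simp [he2]
    · exact fun _ => trivial
    · exact fun _ => trivial
    · omega
    · omega
    · omega
    · exact fun _ _ => hr

theorem Plus.swap {q0 q1 : V → V → ℕ} {j : ℕ} (h : Plus q0 q1 x y j) : Plus q0 q1 y x j :=
  ⟨h.p2, h.p1, fun a b hab => h.p3 a b (fun h => hab (Or.symm h)), h.p4.symm⟩

theorem cst_symm (hs : ∀ a b, q a b = q b a) (a b : V) : cst D E q a b = cst D E q b a := by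
  unfold cst
  rw [hs a b, E.adj_comm a b]

theorem step_two (hD : 3 ≤ D) (hd : Drop E E0 q q0 v) (hxy : x ≠ y)
    (hx : x ≠ v) (hy : y ≠ v) (hnb : ∀ z, z ≠ x → z ≠ y → ¬ E.Adj v z ∧ q v z = 0)
    (h1 : cst D E q v x ≤ 2 * D - 2) (h2 : cst D E q v y ≤ 2 * D - 2)
    (h3 : cst D E q v x + cst D E q v y + cst D E q x y ≤ 4 * D - 4)
    (ih0 : Solv D E0 q0)
    (ih1 : ∀ j q1, 2 * j + (2 * D - 2) ≤ cst D E q v x + cst D E q v y → Plus q0 q1 x y j →
      Solv D E0 q1)
    (ih2 : ∀ j q1 E2, ¬ E0.Adj x y → D + 2 * j + (2 * D - 2) ≤ cst D E q v x + cst D E q v y →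
      Plus q0 q1 x y j → (∀ a b, E2.Adj a b ↔ E0.Adj a b ∨ ((a = x ∧ b = y) ∨ (a = y ∧ b = x))) →
      Solv D E2 q1)
    (hq1 : ∀ j, ∃ q1, Plus q0 q1 x y j) : Solv D E q := by
  by_cases he1 : E.Adj v x <;> by_cases he2 : E.Adj v y
  · exact two_tt hD hd hxy hx hy hnb he1 he2 h1 h2 ih1 hq1
  · refine two_ft hD hd (Ne.symm hxy) hy hx (fun z h1 h2 => hnb z h2 h1) he2 he1 h2 h1 ?_ ih0
      (fun j q1 h h' => ih1 j q1 (by omega) h'.swap) ?_ (fun j => ?_)
    · rw [cst_symm hd.sym y x]; omega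
    · intro j q1 E2 h4 h5 h6 h7
      refine ih2 j q1 E2 (fun h => h4 h.symm) (by omega) h6.swap (fun a b => ?_)
      rw [h7]; tauto
    · obtain ⟨q1, h⟩ := hq1 j
      exact ⟨q1, h.swap⟩
  · exact two_ft hD hd hxy hx hy hnb he1 he2 h1 h2 h3 ih0 ih1 ih2 hq1
  · exact two_ff hD hd hxy hx hy hnb he1 he2 h1 h2 ih0 ih1 hq1

end Two

section One

variable {D : ℕ} {E E0 : SimpleGraph V} {q q0 : V → V → ℕ} {v x : V}

theorem step_one (hD : 3 ≤ D) (hd : Drop E E0 q q0 v) (hx : x ≠ v)
    (hnb : ∀ z, z ≠ x → ¬ E.Adj v z ∧ q v z = 0) (h1 : cst D E q v x ≤ 2 * D - 2)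
    (ih0 : Solv D E0 q0) : Solv D E q := by
  obtain ⟨A, B, l, h⟩ := ih0
  have key : ∀ (t : Prop) (r : ℕ), (r + (if t ∧ ¬ E.Adj v x then 1 else 0) = q v x) →
      (E.Adj v x → t) → 1 + r < D → Solv D E q := by
    intro t r h2 h3 h4
    obtain ⟨A', hA'a, hA'⟩ : ∃ A' : SimpleGraph V, A'.IsAcyclic ∧ ∀ a b, A'.Adj a b ↔ A.Adj a b ∨
        (a = v ∧ (b = x ∧ t)) ∨ (b = v ∧ (a = x ∧ t)) := by
      by_cases ht : t
      · refine ⟨A ⊔ edge v x, leaf_acyclic (h.isolA hd) hx h.acA, ?_⟩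
        intro a b
        rw [sup_adj, adj_edge]
        constructor
        · rintro (h5 | ⟨h5 | h5, _⟩)
          · exact Or.inl h5
          · exact Or.inr (Or.inl ⟨h5.1, h5.2, ht⟩)
          · exact Or.inr (Or.inr ⟨h5.2, h5.1, ht⟩)
        · rintro (h5 | h5 | h5)
          · exact Or.inl h5
          · refine Or.inr ⟨Or.inl ⟨h5.1, h5.2.1⟩, ?_⟩
            rw [h5.1, h5.2.1]; exact hx.symm
          · refine Or.inr ⟨Or.inr ⟨h5.2.1, h5.1⟩, ?_⟩
            rw [h5.1, h5.2.1]; exact hx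
      · refine ⟨A, h.acA, ?_⟩
        intro a b
        tauto
    refine step1 h hd (r := fun z => if z = x then r else 0) (s := fun _ => 0)
      (t := fun z => z = x ∧ t) hA'a hA' ?_ ?_ ?_ ?_ ?_
    · simp [Ne.symm hx]
    · intro z _
      by_cases hzx : z = x
      · subst hzx
        simp only [if_true, true_and, add_zero]
        exact h2
      · simp only [hzx, false_and, if_false]
        rw [(hnb z hzx).2]
    · intro z hz
      by_cases hzx : z = x
      · subst hzx; exact ⟨rfl, h3 hz⟩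
      · exact absurd hz (hnb z hzx).1
    · intro z _; exact Nat.zero_le _
    · simpa using h4
  unfold cst at h1
  by_cases he : E.Adj v x
  · rw [if_pos he] at h1
    exact key True (q v x) (by simp [he]) (fun _ => trivial) (by omega)
  · rw [if_neg he] at h1
    by_cases hq : q v x = 0
    · exact key False 0 (by simp [hq]) (fun h => absurd h he) (by omega)
    · exact key True (q v x - 1) (by simp [he]; omega) (fun _ => trivial) (by omega)

theorem step_zero (hD : 3 ≤ D) (hd : Drop E E0 q q0 v)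
    (hnb : ∀ z, ¬ E.Adj v z ∧ q v z = 0) (ih0 : Solv D E0 q0) : Solv D E q := by
  obtain ⟨A, B, l, h⟩ := ih0
  refine step1 h hd (r := fun _ => 0) (s := fun _ => 0) (t := fun _ => False) h.acA ?_ rfl ?_ ?_ ?_ ?_
  · intro a b; tauto
  · intro z _; simp [(hnb z).2]
  · intro z hz; exact absurd hz (hnb z).1
  · intro z _; exact Nat.zero_le _
  · simp; omega

end One

end Pool.Agent.H13.Sndt
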