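import Mathlib

/-!
A counting version of the local lemma for independent transversals.

Each index `b : ι` chooses an element of a finite type `X`; a symmetric conflict relation is given.
If for every `b` the number of conflicting pairs between `b` and all the other indices is at
most `|X|^2 / 4`, then there is a choice function without conflicts.
-/

namespace Pool.Agent.H13

open Finset

section Transversal

variable {ι X : Type*} [Fintype ι] [DecidableEq ι] [Fintype X] [DecidableEq X]

/-- `f` has no conflict inside `S`. -/
def GoodOn (R : ι → X → ι → X → Prop) (S : Finset ι) (f : ι → X) : Prop :=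
  ∀ b ∈ S, ∀ c ∈ S, b ≠ c → ¬ R b (f b) c (f c)

open Classical in
/-- number of choice functions with no conflict inside `S` -/
noncomputable def numGood (R : ι → X → ι → X → Prop) (S : Finset ι) : ℕ :=
  ((univ : Finset (ι → X)).filter (fun f => GoodOn R S f)).card

open Classical in
/-- number of conflicting pairs between `b` and `c` -/
noncomputable def numConf (R : ι → X → ι → X → Prop) (b c : ι) : ℕ :=
  ((univ : Finset (X × X)).filter (fun p => R b p.1 c p.2)).card

open Classical in
theorem fiber_le (R : ι → X → ι → X → Prop) (S : Finset ι) {b c : ι} (hb : b ∉ S) (hc : c ∉ S)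
    (hbc : b ≠ c) (x y x' y' : X) :
    ((univ : Finset (ι → X)).filter (fun f => GoodOn R S f ∧ f b = x ∧ f c = y)).card ≤
    ((univ : Finset (ι → X)).filter (fun f => GoodOn R S f ∧ f b = x' ∧ f c = y')).card := by
  apply Finset.card_le_card_of_injOn
    (fun f => Function.update (Function.update f b x') c y')
  · intro f hf
    simp only [coe_filter, mem_univ, true_and, Set.mem_ofPred_eq] at hf ⊢
    obtain ⟨hg, h1, h2⟩ := hf
    refine ⟨?_, ?_, ?_⟩
    · intro d hd e he hde
      have hd1 : d ≠ b := fun h => hb (h ▸ hd)
      have hd2 : d ≠ c := fun h => hc (h ▸ hd)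
      have he1 : e ≠ b := fun h => hb (h ▸ he)
      have he2 : e ≠ c := fun h => hc (h ▸ he)
      simp only [Function.update_of_ne hd1, Function.update_of_ne hd2,
        Function.update_of_ne he1, Function.update_of_ne he2]
      exact hg d hd e he hde
    · simp [Function.update_of_ne hbc]
    · simp
  · intro f hf g hg hfg
    simp only [coe_filter, mem_univ, true_and, Set.mem_ofPred_eq] at hf hg
    funext d
    by_cases hd1 : d = b
    · subst hd1; rw [hf.2.1, hg.2.1]
    · by_cases hd2 : d = c
      · subst hd2; rw [hf.2.2, hg.2.2]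
      · have := congrFun hfg d
        simpa [Function.update_of_ne hd1, Function.update_of_ne hd2] using this

open Classical in
theorem conf_count (R : ι → X → ι → X → Prop) (S : Finset ι) {b c : ι} (hb : b ∉ S) (hc : c ∉ S)
    (hbc : b ≠ c) :
    (Fintype.card X)^2 *
      ((univ : Finset (ι → X)).filter (fun f => GoodOn R S f ∧ R b (f b) c (f c))).card ≤
    numConf R b c * numGood R S := by
  set A : X × X → ℕ := fun p =>
    ((univ : Finset (ι → X)).filter (fun f => GoodOn R S f ∧ f b = p.1 ∧ f c = p.2)).card with hA
  have h1 : ((univ : Finset (ι → X)).filter (fun f => GoodOn R S f ∧ R b (f b) c (f c))).card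
      = ∑ p ∈ (univ : Finset (X × X)).filter (fun p => R b p.1 c p.2), A p := by
    rw [Finset.card_eq_sum_card_fiberwise (f := fun f => (f b, f c))
      (t := (univ : Finset (X × X)).filter (fun p => R b p.1 c p.2))]
    · apply Finset.sum_congr rfl
      intro p hp
      simp only [hA]
      congr 1
      ext f
      simp only [mem_filter, mem_univ, true_and] at hp ⊢
      constructor
      · rintro ⟨⟨h1, h2⟩, h3⟩
        rw [← h3]
        exact ⟨h1, rfl, rfl⟩
      · rintro ⟨h1, h2, h3⟩
        refine ⟨⟨h1, ?_⟩, ?_⟩
        · rw [h2, h3]; exact hp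
        · rw [h2, h3]
    · intro f hf
      simp only [coe_filter, mem_univ, true_and, Set.mem_ofPred_eq] at hf ⊢
      exact hf.2
  have h2 : numGood R S = ∑ p : X × X, A p := by
    unfold numGood
    rw [Finset.card_eq_sum_card_fiberwise (f := fun f => (f b, f c))
      (t := (univ : Finset (X × X)))]
    · apply Finset.sum_congr rfl
      intro p hp
      simp only [hA]
      congr 1
      ext f
      simp only [mem_filter, mem_univ, true_and]
      constructor
      · rintro ⟨h1, h3⟩
        rw [← h3]
        exact ⟨h1, rfl, rfl⟩
      · rintro ⟨h1, h2, h3⟩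
        refine ⟨h1, ?_⟩
        rw [h2, h3]
    · intro f _
      simp
  have h3 : ∀ p q : X × X, A p ≤ A q := fun p q => fiber_le R S hb hc hbc _ _ _ _
  rw [h1, h2]
  unfold numConf
  have h4 : (Fintype.card X)^2 * ∑ p ∈ (univ : Finset (X × X)).filter (fun p => R b p.1 c p.2), A p
      = ∑ p ∈ (univ : Finset (X × X)).filter (fun p => R b p.1 c p.2), ∑ _q : X × X, A p := by
    rw [Finset.mul_sum]
    apply Finset.sum_congr rfl
    intro p _
    rw [Finset.sum_const, Finset.card_univ, Fintype.card_prod, smul_eq_mul, sq]
  rw [h4]
  calc ∑ p ∈ (univ : Finset (X × X)).filter (fun p => R b p.1 c p.2), ∑ _q : X × X, A p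
      ≤ ∑ p ∈ (univ : Finset (X × X)).filter (fun p => R b p.1 c p.2), ∑ q : X × X, A q := by
        apply Finset.sum_le_sum
        intro p _
        apply Finset.sum_le_sum
        intro q _
        exact h3 p q
    _ = _ := by
        rw [Finset.sum_const, smul_eq_mul]

open Classical in
theorem numGood_insert (R : ι → X → ι → X → Prop) [Nonempty X]
    (hsymm : ∀ b x c y, R b x c y → R c y b x)
    (hcount : ∀ b, 4 * (∑ c ∈ univ.erase b, numConf R b c) ≤ (Fintype.card X)^2) :
    ∀ (n : ℕ) (S : Finset ι), S.card = n → ∀ b, b ∉ S →
      numGood R S ≤ 2 * numGood R (insert b S) := by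
  intro n
  induction n using Nat.strong_induction_on with
  | _ n ih =>
  intro S hS b hb
  set K := Fintype.card X with hK
  have hKpos : 0 < K := Fintype.card_pos
  -- the bad set
  have hsub : ((univ : Finset (ι → X)).filter (fun f => GoodOn R S f)) ⊆
      ((univ : Finset (ι → X)).filter (fun f => GoodOn R (insert b S) f)) ∪
      S.biUnion (fun c => (univ : Finset (ι → X)).filter
        (fun f => GoodOn R (S.erase c) f ∧ R b (f b) c (f c))) := by
    intro f hf
    simp only [mem_filter, mem_univ, true_and, mem_union, mem_biUnion] at hf ⊢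
    by_cases h : GoodOn R (insert b S) f
    · exact Or.inl h
    · right
      unfold GoodOn at h
      push Not at h
      obtain ⟨d, hd, e, he, hde, hR⟩ := h
      have key : ∃ c ∈ S, R b (f b) c (f c) := by
        rw [mem_insert] at hd he
        rcases hd with rfl | hd
        · rcases he with rfl | he
          · exact absurd rfl hde
          · exact ⟨e, he, hR⟩
        · rcases he with rfl | he
          · exact ⟨d, hd, hsymm _ _ _ _ hR⟩
          · exact absurd hR (hf d hd e he hde)
      obtain ⟨c, hc, hR⟩ := key
      refine ⟨c, hc, ?_, hR⟩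
      intro d hd e he hde
      exact hf d (mem_of_mem_erase hd) e (mem_of_mem_erase he) hde
  have hcard := (card_le_card hsub).trans ((card_union_le _ _).trans
    (Nat.add_le_add_left card_biUnion_le _))
  have hterm : ∀ c ∈ S, K^2 * ((univ : Finset (ι → X)).filter
        (fun f => GoodOn R (S.erase c) f ∧ R b (f b) c (f c))).card ≤
        numConf R b c * (2 * numGood R S) := by
    intro c hc
    have hbc : b ≠ c := fun h => hb (h ▸ hc)
    have h1 := conf_count R (S.erase c) (b := b) (c := c)
      (fun h => hb (mem_of_mem_erase h)) (notMem_erase c S) hbc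
    refine h1.trans (Nat.mul_le_mul_left _ ?_)
    have h2 := ih (S.erase c).card (by
      rw [← hS]; exact card_erase_lt_of_mem hc) (S.erase c) rfl c (notMem_erase c S)
    rwa [insert_erase hc] at h2
  have hsum : K^2 * (∑ c ∈ S, ((univ : Finset (ι → X)).filter
        (fun f => GoodOn R (S.erase c) f ∧ R b (f b) c (f c))).card) ≤
        (∑ c ∈ univ.erase b, numConf R b c) * (2 * numGood R S) := by
    rw [Finset.mul_sum, Finset.sum_mul]
    calc _ ≤ ∑ c ∈ S, numConf R b c * (2 * numGood R S) := Finset.sum_le_sum hterm
      _ ≤ _ := by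
        apply Finset.sum_le_sum_of_subset
        intro c hc
        rw [mem_erase]
        exact ⟨fun h => hb (h ▸ hc), mem_univ _⟩
  have hmain : K^2 * numGood R S ≤ K^2 * numGood R (insert b S) +
      (∑ c ∈ univ.erase b, numConf R b c) * (2 * numGood R S) := by
    have := Nat.mul_le_mul_left (K^2) hcard
    rw [Nat.mul_add] at this
    exact this.trans (Nat.add_le_add_left hsum _)
  have hc := hcount b
  have hK2 : 0 < K^2 := by positivity
  have h5 : 4 * ((∑ c ∈ univ.erase b, numConf R b c) * (2 * numGood R S)) ≤
      K^2 * (2 * numGood R S) := by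
    rw [← mul_assoc]
    exact Nat.mul_le_mul_right _ hc
  have h6 : K^2 * (2 * numGood R S) ≤ K^2 * (4 * numGood R (insert b S)) := by nlinarith
  have h7 := Nat.le_of_mul_le_mul_left h6 hK2
  omega

/-- A conflict-free choice function exists. -/
theorem exists_transversal (R : ι → X → ι → X → Prop) [Nonempty X]
    (hsymm : ∀ b x c y, R b x c y → R c y b x)
    (hcount : ∀ b, 4 * (∑ c ∈ univ.erase b, numConf R b c) ≤ (Fintype.card X)^2) :
    ∃ f : ι → X, ∀ b c, b ≠ c → ¬ R b (f b) c (f c) := by
  classical
  have hpos : ∀ S : Finset ι, 0 < numGood R S := by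
    intro S
    induction S using Finset.induction_on with
    | empty =>
      unfold numGood
      rw [Finset.card_pos]
      obtain ⟨x⟩ := (inferInstance : Nonempty X)
      exact ⟨fun _ => x, by simp [GoodOn]⟩
    | insert b S hb ih =>
      have := numGood_insert R hsymm hcount S.card S rfl b hb
      omega
  have h := hpos univ
  unfold numGood at h
  rw [Finset.card_pos] at h
  obtain ⟨f, hf⟩ := h
  simp only [mem_filter, mem_univ, true_and] at hf
  exact ⟨f, fun b c hbc => hf b (mem_univ _) c (mem_univ _) hbc⟩

end Transversal

end Pool.Agent.H13
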